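import Pool.Agent.H35.SW.Base

/-!
The axioms of ZF for an arbitrary structure, class comprehension, definite descriptions and the
basic operations (pairs, unions, power sets, separation, images).
-/

set_option linter.unusedVariables false
set_option synthInstance.maxSize 100000

namespace SW

section

variable {M : Type} [SetStr M]

/-- a class with parameters -/
abbrev Cl (C : M → Prop) : Prop := Df (fun w : Fin 1 → M => C (w 0))

/-- a binary class relation with parameters -/
abbrev Cl2 (R : M → M → Prop) : Prop := Df (fun w : Fin 2 → M => R (w 0) (w 1))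

/-- a ternary class relation with parameters -/
abbrev Cl3 (R : M → M → M → Prop) : Prop := Df (fun w : Fin 3 → M => R (w 0) (w 1) (w 2))

/-- a class function with parameters -/
abbrev Fn1 (f : M → M) : Prop := DfT (fun w : Fin 1 → M => f (w 0))

/-- a binary class function with parameters -/
abbrev Fn2 (f : M → M → M) : Prop := DfT (fun w : Fin 2 → M => f (w 0) (w 1))

instance Df.exu {n : ℕ} {P : M → (Fin n → M) → Prop}
    [h : Df (fun w : Fin (n + 1) → M => P (w 0) (fun i => w i.succ))] :
    Df (fun v => ∃! x : M, P x v) := by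
  have h2 : Df (fun w : Fin (n + 1 + 1) → M => P (w 0) (fun i => w i.succ.succ)) :=
    (h.ren (Fin.cons 0 (fun i => i.succ.succ))).congr fun v => by simp
  exact (inferInstance : Df (fun v => ∃ x : M, P x v ∧ ∀ y : M, P y v → y = x)).congr
    (fun _ => Iff.rfl)

/-- fixing all but the first variable -/
theorem Df.fix {n : ℕ} {P : M → (Fin n → M) → Prop}
    (h : Df (fun w : Fin (n + 1) → M => P (w 0) (fun i => w i.succ))) (v : Fin n → M) :
    Cl (fun x => P x v) := by
  obtain ⟨m, f, c, hc⟩ := h.out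
  refine ⟨m, f, fun i => Sum.elim (Fin.cases (Sum.inl 0) (fun j => Sum.inr (v j))) Sum.inr (c i),
    fun w => ?_⟩
  have := hc (Fin.cons (w 0) v)
  simp only [Fin.cons_zero, Fin.cons_succ] at this
  refine Iff.trans this ?_
  have e : (fun i => Sum.elim (Fin.cons (w 0) v : Fin (n + 1) → M) id (c i))
      = fun i => Sum.elim w id
        (Sum.elim (Fin.cases (Sum.inl 0) (fun j => Sum.inr (v j))) Sum.inr (c i)) := by
    funext i
    generalize c i = z
    rcases z with j | a
    · refine Fin.cases ?_ (fun j' => ?_) j <;> simp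
    · simp
  rw [e]

theorem Df.fix2 {n : ℕ} {P : M → M → (Fin n → M) → Prop}
    (h : Df (fun w : Fin (n + 2) → M => P (w 0) (w 1) (fun i => w i.succ.succ)))
    (v : Fin n → M) : Cl2 (fun x y => P x y v) := by
  obtain ⟨m, f, c, hc⟩ := h.out
  refine ⟨m, f, fun i => Sum.elim (Fin.cases (Sum.inl 0)
    (Fin.cases (Sum.inl 1) (fun j => Sum.inr (v j)))) Sum.inr (c i), fun w => ?_⟩
  have := hc (Fin.cons (w 0) (Fin.cons (w 1) v))
  simp only [Fin.cons_zero, Fin.cons_succ, Fin.cons_one] at this
  refine Iff.trans this ?_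
  have e : (fun i => Sum.elim (Fin.cons (w 0) (Fin.cons (w 1) v) : Fin (n + 2) → M) id (c i))
      = fun i => Sum.elim w id
        (Sum.elim (Fin.cases (Sum.inl 0)
          (Fin.cases (Sum.inl 1) (fun j => Sum.inr (v j)))) Sum.inr (c i)) := by
    funext i
    generalize c i = z
    rcases z with j | a
    · refine Fin.cases ?_ (fun j' => ?_) j
      · simp
      · refine Fin.cases ?_ (fun j'' => ?_) j'
        · rfl
        · simp
    · simp
  rw [e]

/-- For functions of two variables obtained by fixing parameters. -/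
theorem DfT.fix {n : ℕ} {F : M → (Fin n → M) → M}
    (h : DfT (fun w : Fin (n + 1) → M => F (w 0) (fun i => w i.succ))) (v : Fin n → M) :
    Fn1 (fun x => F x v) := by
  have h1 := h.out
  have h2 : Df (fun w : Fin (n + 2) → M => w 1 = F (w 0) (fun i => w i.succ.succ)) :=
    (h1.ren (Fin.cons 1 (Fin.cons 0 (fun i => i.succ.succ)))).congr fun v => by simp
  have h3 := (h2.fix2 (P := fun x y v => y = F x v) v)
  refine ⟨(h3.ren ![1, 0]).congr fun w => ?_⟩
  simp

theorem Cl.out {C : M → Prop} (h : Cl C) (d : M) :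
    ∃ (k : ℕ) (f : Fml (k + 1)) (v : Fin k → M), ∀ x, C x ↔ Sat f (Fin.cons x v) := by
  obtain ⟨m, f, c, hc⟩ := Df.out (P := fun w : Fin 1 → M => C (w 0)) (self := h)
  refine ⟨m, f.ren (fun i => Sum.elim (fun _ => 0) (fun _ => i.succ) (c i)),
    fun i => Sum.elim (fun _ => d) id (c i), fun x => ?_⟩
  rw [Sat_ren]
  refine Iff.trans (hc (fun _ => x)) ?_
  have e : (fun i => Sum.elim (fun _ : Fin 1 => x) id (c i)) = fun i =>
      (Fin.cons x (fun i => Sum.elim (fun _ => d) id (c i)) : Fin (m + 1) → M)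
        (Sum.elim (fun _ => 0) (fun _ => i.succ) (c i)) := by
    funext i
    have : ∀ z : Fin 1 ⊕ M, c i = z → Sum.elim (fun _ : Fin 1 => x) id (c i) =
      (Fin.cons x (fun i => Sum.elim (fun _ => d) id (c i)) : Fin (m + 1) → M)
        (Sum.elim (fun _ => 0) (fun _ => i.succ) (c i)) := by
      intro z hz
      rcases z with j | a
      · rw [hz]; simp
      · simp [hz]
    exact this _ rfl
  rw [e]

theorem Cl2.out {R : M → M → Prop} (h : Cl2 R) (d : M) :
    ∃ (k : ℕ) (f : Fml (k + 2)) (v : Fin k → M),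
      ∀ x y, R x y ↔ Sat f (Fin.cons x (Fin.cons y v)) := by
  obtain ⟨m, f, c, hc⟩ := Df.out (P := fun w : Fin 2 → M => R (w 0) (w 1)) (self := h)
  refine ⟨m, f.ren (fun i => Sum.elim (Fin.cases 0 (fun _ => 1)) (fun _ => i.succ.succ) (c i)),
    fun i => Sum.elim (fun _ => d) id (c i), fun x y => ?_⟩
  rw [Sat_ren]
  refine Iff.trans (hc ![x, y]) ?_
  have e : (fun i => Sum.elim ![x, y] id (c i)) = fun i =>
      (Fin.cons x (Fin.cons y (fun i => Sum.elim (fun _ => d) id (c i))) : Fin (m + 2) → M)
        (Sum.elim (Fin.cases 0 (fun _ => 1)) (fun _ => i.succ.succ) (c i)) := by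
    funext i
    have : ∀ z : Fin 2 ⊕ M, c i = z → Sum.elim ![x, y] id (c i) =
      (Fin.cons x (Fin.cons y (fun i => Sum.elim (fun _ => d) id (c i))) : Fin (m + 2) → M)
        (Sum.elim (Fin.cases 0 (fun _ => 1)) (fun _ => i.succ.succ) (c i)) := by
      intro z hz
      rcases z with j | a
      · rw [hz]
        refine Fin.cases ?_ (fun j' => ?_) j
        · simp
        · have : j' = 0 := Subsingleton.elim _ _
          subst this
          simp only [Sum.elim_inl, Fin.cases_succ]
          rfl
      · simp [hz]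
    exact this _ rfl
  rw [e]

end

section

variable {M : Type} [SetStr M] [ZF M]

theorem ext {x y : M} (h : ∀ z, E z x ↔ E z y) : x = y := ZF.ext x y h

theorem ext_iff' {x y : M} : x = y ↔ ∀ z, E z x ↔ E z y :=
  ⟨fun h z => by rw [h], ext⟩

theorem ZF.nonempty (M : Type) [SetStr M] [ZF M] : Nonempty M := by
  obtain ⟨x, _⟩ := ZF.infinity (M := M)
  exact ⟨x⟩

theorem sep_ex {C : M → Prop} (h : Cl C) (a : M) : ∃ b, ∀ x, E x b ↔ E x a ∧ C x := by
  obtain ⟨k, f, v, hf⟩ := Cl.out h a
  obtain ⟨b, hb⟩ := ZF.sep k f v a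
  exact ⟨b, fun x => by rw [hb, hf]⟩

theorem emp_ex : ∃ e : M, ∀ z, ¬ E z e := by
  obtain ⟨x⟩ := ZF.nonempty M
  obtain ⟨b, hb⟩ := sep_ex (C := fun _ : M => False) inferInstance x
  exact ⟨b, fun z hz => ((hb z).1 hz).2⟩

/-- the empty set -/
noncomputable def emp : M := (emp_ex (M := M)).choose

@[simp] theorem not_mem_emp (z : M) : ¬ E z (emp : M) := (emp_ex (M := M)).choose_spec z

theorem eq_emp {x : M} (h : ∀ z, ¬ E z x) : x = emp :=
  ext fun z => ⟨fun hz => absurd hz (h z), fun hz => absurd hz (not_mem_emp z)⟩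

open Classical in
/-- definite description: the unique `x` with `p x` (the empty set if there is none) -/
noncomputable def the (p : M → Prop) : M := if h : ∃! x, p x then h.choose else emp

theorem the_spec {p : M → Prop} (h : ∃! x, p x) : p (the p) := by
  unfold the
  rw [dif_pos h]
  exact h.choose_spec.1

theorem the_eq {p : M → Prop} {y : M} (hy : p y) (hu : ∀ z, p z → z = y) : the p = y :=
  hu _ (the_spec ⟨y, hy, hu⟩)

theorem eq_the_iff {p : M → Prop} {y : M} :
    y = the p ↔ (p y ∧ ∀ z, p z → z = y) ∨ ((¬ ∃! x, p x) ∧ y = emp) := by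
  constructor
  · rintro rfl
    by_cases h : ∃! x, p x
    · left
      exact ⟨the_spec h, fun z hz => h.unique hz (the_spec h)⟩
    · right
      refine ⟨h, ?_⟩
      unfold the
      rw [dif_neg h]
  · rintro (⟨h1, h2⟩ | ⟨h1, h2⟩)
    · exact (the_eq h1 h2).symm
    · unfold the
      rw [dif_neg h1, h2]

instance DfT.the {n : ℕ} {p : M → (Fin n → M) → Prop}
    [h : Df (fun w : Fin (n + 1) → M => p (w 0) (fun i => w i.succ))] :
    DfT (fun v => SW.the (fun x => p x v)) := by
  refine ⟨?_⟩
  have h1 : Df (fun w : Fin (n + 1 + 1) → M => p (w 0) (fun i => w i.succ.succ)) :=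
    (h.ren (Fin.cons 0 (fun i => i.succ.succ))).congr fun v => by simp
  have h2 : Df (fun w : Fin (n + 1) → M => p (w 0) (fun i => w i.succ)) := h
  have h3 : Df (fun w : Fin (n + 1) → M => (p (w 0) (fun i => w i.succ)
      ∧ ∀ z : M, p z (fun i => w i.succ) → z = w 0) ∨
      ((¬ ∃! x : M, p x (fun i => w i.succ)) ∧ w 0 = SW.emp)) := by
    have : Df (fun w : Fin (n + 1) → M => ∃! x : M, p x (fun i => w i.succ)) :=
      Df.exu (P := fun x (w : Fin (n + 1) → M) => p x (fun i => w i.succ))
    have : Df (fun w : Fin (n + 1) → M => ∀ z : M, p z (fun i => w i.succ) → z = w 0) :=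
      Df.all (P := fun z (w : Fin (n + 1) → M) => p z (fun i => w i.succ) → z = w 0)
    infer_instance
  exact h3.congr fun w => eq_the_iff

/-! ### separation -/

/-- `sep a C = {x ∈ a : C x}` -/
noncomputable def sep (a : M) (C : M → Prop) : M := the (fun b => ∀ x, E x b ↔ E x a ∧ C x)

theorem mem_sep' {C : M → Prop} (h : Cl C) {a x : M} : E x (sep a C) ↔ E x a ∧ C x := by
  obtain ⟨b, hb⟩ := sep_ex h a
  have := the_spec (p := fun b => ∀ x, E x b ↔ E x a ∧ C x)
    ⟨b, hb, fun c hc => ext fun z => by rw [hb, hc]⟩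
  exact this x

@[simp] theorem mem_sep {C : M → Prop} [h : Cl C] {a x : M} : E x (sep a C) ↔ E x a ∧ C x :=
  mem_sep' h

instance DfT.sep {n : ℕ} {t : (Fin n → M) → M} {C : M → (Fin n → M) → Prop} [ht : DfT t]
    [h : Df (fun w : Fin (n + 1) → M => C (w 0) (fun i => w i.succ))] :
    DfT (fun v => SW.sep (t v) (fun x => C x v)) := by
  refine ⟨?_⟩
  have h1 : Df (fun w : Fin (n + 1 + 1) → M => C (w 0) (fun i => w i.succ.succ)) :=
    (h.ren (Fin.cons 0 (fun i => i.succ.succ))).congr fun v => by simp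
  have h2 : DfT (fun w : Fin (n + 1 + 1) → M => t (fun i => w i.succ.succ)) :=
    ht.ren (fun i => i.succ.succ)
  have h3 : Df (fun w : Fin (n + 1) → M => ∀ x : M, E x (w 0) ↔
      E x (t (fun i => w i.succ)) ∧ C x (fun i => w i.succ)) :=
    Df.all (P := fun x (w : Fin (n + 1) → M) => E x (w 0) ↔
      E x (t (fun i => w i.succ)) ∧ C x (fun i => w i.succ))
  refine h3.congr fun w => ?_
  have hc := h.fix (P := C) (fun i => w i.succ)
  constructor
  · intro e x
    rw [e]
    exact mem_sep' hc
  · intro e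
    refine ext fun x => ?_
    rw [e]
    exact (mem_sep' hc).symm

/-! ### images -/

/-- `img a f = {f x : x ∈ a}` -/
noncomputable def img (a : M) (f : M → M) : M := the (fun b => ∀ y, E y b ↔ ∃ x, E x a ∧ y = f x)

theorem mem_img' {f : M → M} (h : Fn1 f) {a y : M} :
    E y (img a f) ↔ ∃ x, E x a ∧ y = f x := by
  have h1 : Cl2 (fun x y => y = f x) := by
    have := (h.out).ren (![1, 0] : Fin 2 → Fin 2)
    exact this.congr fun v => by simp
  obtain ⟨k, g, v, hg⟩ := Cl2.out h1 a
  obtain ⟨b, hb⟩ := ZF.repl k g v a (fun x _ => by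
    refine ⟨f x, (hg x (f x)).1 rfl, fun y hy => (hg x y).2 hy⟩)
  have hb' : ∀ y, E y b ↔ ∃ x, E x a ∧ y = f x := fun y => by
    rw [hb]
    refine exists_congr fun x => and_congr_right fun _ => (hg x y).symm
  have := the_spec (p := fun b => ∀ y, E y b ↔ ∃ x, E x a ∧ y = f x)
    ⟨b, hb', fun c hc => ext fun z => by rw [hb', hc]⟩
  exact this y

@[simp] theorem mem_img {f : M → M} [h : Fn1 f] {a y : M} :
    E y (img a f) ↔ ∃ x, E x a ∧ y = f x := mem_img' h

instance DfT.img {n : ℕ} {t : (Fin n → M) → M} {f : M → (Fin n → M) → M} [ht : DfT t]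
    [h : DfT (fun w : Fin (n + 1) → M => f (w 0) (fun i => w i.succ))] :
    DfT (fun v => SW.img (t v) (fun x => f x v)) := by
  refine ⟨?_⟩
  have h1 : DfT (fun w : Fin (n + 1 + 1 + 1) → M => f (w 0) (fun i => w i.succ.succ.succ)) :=
    (h.ren (Fin.cons 0 (fun i => i.succ.succ.succ)))
  have h2 : DfT (fun w : Fin (n + 1 + 1 + 1) → M => t (fun i => w i.succ.succ.succ)) :=
    ht.ren (fun i => i.succ.succ.succ)
  have h3 : Df (fun w : Fin (n + 1) → M => ∀ y : M, E y (w 0) ↔
      ∃ x : M, E x (t (fun i => w i.succ)) ∧ y = f x (fun i => w i.succ)) := by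
    have := Df.ex (P := fun x (w : Fin (n + 1 + 1) → M) => E x (t (fun i => w i.succ.succ)) ∧
        w 0 = f x (fun i => w i.succ.succ))
    exact Df.all (P := fun y (w : Fin (n + 1) → M) => E y (w 0) ↔
      ∃ x : M, E x (t (fun i => w i.succ)) ∧ y = f x (fun i => w i.succ))
  refine h3.congr fun w => ?_
  have hc := h.fix (F := f) (fun i => w i.succ)
  constructor
  · intro e y
    rw [e]
    exact mem_img' hc
  · intro e
    refine ext fun x => ?_
    rw [e]
    exact (mem_img' hc).symm


/-! ### pairs -/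

noncomputable def upair (a b : M) : M := the (fun z => ∀ w, E w z ↔ w = a ∨ w = b)

@[simp] theorem mem_upair {a b w : M} : E w (upair a b) ↔ w = a ∨ w = b := by
  obtain ⟨z, hz⟩ := ZF.pair a b
  exact the_spec (p := fun z => ∀ w, E w z ↔ w = a ∨ w = b)
    ⟨z, hz, fun c hc => ext fun w => by rw [hz, hc]⟩ w

theorem upair_df : Fn2 (fun a b : M => upair a b) := by unfold upair; infer_instance

instance {n : ℕ} {t s : (Fin n → M) → M} [ht : DfT t] [hs : DfT s] :
    DfT (fun v => upair (t v) (s v)) := upair_df.comp2 ht hs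

/-- the singleton -/
noncomputable def sing (a : M) : M := upair a a

@[simp] theorem mem_sing {a w : M} : E w (sing a) ↔ w = a := by simp [sing]

instance {n : ℕ} {t : (Fin n → M) → M} [ht : DfT t] : DfT (fun v => sing (t v)) := by
  unfold sing; infer_instance

/-- the ordered pair (Kuratowski) -/
noncomputable def opair (a b : M) : M := upair (sing a) (upair a b)

instance {n : ℕ} {t s : (Fin n → M) → M} [ht : DfT t] [hs : DfT s] :
    DfT (fun v => opair (t v) (s v)) := by unfold opair; infer_instance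

theorem upair_eq_sing {a b c : M} : upair a b = sing c ↔ a = c ∧ b = c := by
  constructor
  · intro h
    have h1 : E a (sing c) := by rw [← h]; simp
    have h2 : E b (sing c) := by rw [← h]; simp
    simp only [mem_sing] at h1 h2
    exact ⟨h1, h2⟩
  · rintro ⟨rfl, rfl⟩
    rfl

theorem upair_inj_left {a b c : M} (h : upair a b = upair a c) : b = c := by
  have h1 : E b (upair a c) := by rw [← h]; simp
  have h2 : E c (upair a b) := by rw [h]; simp
  simp only [mem_upair] at h1 h2
  rcases h1 with h1 | h1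
  · rcases h2 with h2 | h2
    · rw [h1, h2]
    · exact h2.symm
  · exact h1

@[simp] theorem opair_inj {a b c d : M} : opair a b = opair c d ↔ a = c ∧ b = d := by
  constructor
  · intro h
    have hac : a = c := by
      have h1 : E (sing a) (opair c d) := by rw [← h]; simp [opair]
      simp only [opair, mem_upair] at h1
      rcases h1 with h1 | h1
      · exact (upair_eq_sing.1 h1).1
      · exact (upair_eq_sing.1 h1.symm).1.symm
    subst hac
    refine ⟨rfl, ?_⟩
    exact upair_inj_left (upair_inj_left h)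
  · rintro ⟨rfl, rfl⟩
    rfl

/-! ### unions, power sets, products -/

/-- the union of a set -/
noncomputable def sUn (x : M) : M := the (fun u => ∀ w, E w u ↔ ∃ y, E y x ∧ E w y)

@[simp] theorem mem_sUn {x w : M} : E w (sUn x) ↔ ∃ y, E y x ∧ E w y := by
  obtain ⟨z, hz⟩ := ZF.union x
  exact the_spec (p := fun u => ∀ w, E w u ↔ ∃ y, E y x ∧ E w y)
    ⟨z, hz, fun c hc => ext fun w => by rw [hz, hc]⟩ w

theorem sUn_df : Fn1 (fun a : M => sUn a) := by unfold sUn; infer_instance

instance {n : ℕ} {t : (Fin n → M) → M} [ht : DfT t] : DfT (fun v => sUn (t v)) :=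
  sUn_df.comp1 ht

/-- the union of two sets -/
noncomputable def bun (x y : M) : M := sUn (upair x y)

@[simp] theorem mem_bun {x y w : M} : E w (bun x y) ↔ E w x ∨ E w y := by
  simp only [bun, mem_sUn, mem_upair]
  constructor
  · rintro ⟨z, rfl | rfl, h⟩
    · exact Or.inl h
    · exact Or.inr h
  · rintro (h | h)
    · exact ⟨x, Or.inl rfl, h⟩
    · exact ⟨y, Or.inr rfl, h⟩

instance {n : ℕ} {t s : (Fin n → M) → M} [ht : DfT t] [hs : DfT s] :
    DfT (fun v => bun (t v) (s v)) := by unfold bun; infer_instance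

/-- `ins a x = x ∪ {a}` -/
noncomputable def ins (a x : M) : M := bun x (sing a)

@[simp] theorem mem_ins {a x w : M} : E w (ins a x) ↔ E w x ∨ w = a := by simp [ins]

instance {n : ℕ} {t s : (Fin n → M) → M} [ht : DfT t] [hs : DfT s] :
    DfT (fun v => ins (t v) (s v)) := by unfold ins; infer_instance

/-- inclusion -/
def Sub (x y : M) : Prop := ∀ z, E z x → E z y

omit [ZF M] in
theorem Sub.refl (x : M) : Sub x x := fun _ h => h

omit [ZF M] in
theorem Sub.trans {x y z : M} (h : Sub x y) (h' : Sub y z) : Sub x z := fun w hw => h' w (h w hw)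

theorem Sub.antisymm {x y : M} (h : Sub x y) (h' : Sub y x) : x = y :=
  ext fun w => ⟨h w, h' w⟩

omit [ZF M] in
theorem Sub_df : Cl2 (fun a b : M => Sub a b) := by unfold Sub; infer_instance

instance {n : ℕ} {t s : (Fin n → M) → M} [ht : DfT t] [hs : DfT s] :
    Df (fun v => Sub (t v) (s v)) := Sub_df.comp2 ht hs

/-- the power set -/
noncomputable def pow (x : M) : M := the (fun p => ∀ w, E w p ↔ Sub w x)

@[simp] theorem mem_pow {x w : M} : E w (pow x) ↔ Sub w x := by
  obtain ⟨z, hz⟩ := ZF.power x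
  exact the_spec (p := fun p => ∀ w, E w p ↔ Sub w x)
    ⟨z, hz, fun c hc => ext fun w => by rw [hz, hc]; exact Iff.rfl⟩ w

theorem pow_df : Fn1 (fun a : M => pow a) := by unfold pow; infer_instance

instance {n : ℕ} {t : (Fin n → M) → M} [ht : DfT t] : DfT (fun v => pow (t v)) :=
  pow_df.comp1 ht

/-- the product -/
noncomputable def prod (x y : M) : M :=
  sep (pow (pow (bun x y))) (fun z => ∃ a b, E a x ∧ E b y ∧ z = opair a b)

theorem mem_prod' {x y z : M} : E z (prod x y) ↔ ∃ a b, E a x ∧ E b y ∧ z = opair a b := by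
  unfold prod
  rw [mem_sep]
  constructor
  · exact fun h => h.2
  · rintro ⟨a, b, ha, hb, rfl⟩
    refine ⟨?_, a, b, ha, hb, rfl⟩
    simp only [mem_pow, Sub, opair, mem_upair]
    rintro z (rfl | rfl)
    · simp only [mem_sing]
      rintro w rfl
      simp [ha]
    · simp only [mem_upair]
      rintro w (rfl | rfl)
      · simp [ha]
      · simp [hb]

@[simp] theorem mem_prod {x y a b : M} : E (opair a b) (prod x y) ↔ E a x ∧ E b y := by
  rw [mem_prod']
  constructor
  · rintro ⟨a', b', ha, hb, h⟩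
    rw [opair_inj] at h
    rw [h.1, h.2]
    exact ⟨ha, hb⟩
  · rintro ⟨ha, hb⟩
    exact ⟨a, b, ha, hb, rfl⟩

theorem prod_df : Fn2 (fun a b : M => prod a b) := by unfold prod; infer_instance

instance {n : ℕ} {t s : (Fin n → M) → M} [ht : DfT t] [hs : DfT s] :
    DfT (fun v => prod (t v) (s v)) := prod_df.comp2 ht hs

/-- the intersection of two sets and the difference -/
noncomputable def inter (x y : M) : M := sep x (fun z => E z y)

@[simp] theorem mem_inter {x y w : M} : E w (inter x y) ↔ E w x ∧ E w y := by simp [inter]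

instance {n : ℕ} {t s : (Fin n → M) → M} [ht : DfT t] [hs : DfT s] :
    DfT (fun v => inter (t v) (s v)) :=
  DfT.comp2 (f := fun a b => inter a b) (by unfold inter; infer_instance) ht hs

noncomputable def diff (x y : M) : M := sep x (fun z => ¬ E z y)

@[simp] theorem mem_diff {x y w : M} : E w (diff x y) ↔ E w x ∧ ¬ E w y := by simp [diff]

instance {n : ℕ} {t s : (Fin n → M) → M} [ht : DfT t] [hs : DfT s] :
    DfT (fun v => diff (t v) (s v)) :=
  DfT.comp2 (f := fun a b => diff a b) (by unfold diff; infer_instance) ht hs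

/-- no set is a member of itself -/
theorem not_mem_self (x : M) : ¬ E x x := by
  intro h
  obtain ⟨y, hy, hy'⟩ := ZF.found (sing x) ⟨x, by simp⟩
  rw [mem_sing] at hy
  subst hy
  exact hy' y (by simp) h

theorem not_mem_cycle {x y : M} (h : E x y) (h' : E y x) : False := by
  obtain ⟨z, hz, hz'⟩ := ZF.found (upair x y) ⟨x, by simp⟩
  rw [mem_upair] at hz
  rcases hz with rfl | rfl
  · exact hz' y (by simp) h'
  · exact hz' x (by simp) h

end

end SW
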