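import Mathlib.Data.Set.Countable
import Mathlib.Data.Countable.Basic
import Mathlib.Data.Nat.Pairing
import Pool.Agent.H35.SW.Sets

/-!
Every model of ZF has a countable elementary submodel, which is a model of ZF.
-/

set_option linter.unusedVariables false
set_option synthInstance.maxSize 100000

namespace SW

/-- the code of a formula -/
def Fml.enc : {n : ℕ} → Fml n → ℕ
  | _, .mem i j => Nat.pair 0 (Nat.pair i j)
  | _, .eq i j => Nat.pair 1 (Nat.pair i j)
  | _, .bot => Nat.pair 2 0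
  | _, .imp f g => Nat.pair 3 (Nat.pair f.enc g.enc)
  | _, .all f => Nat.pair 4 f.enc

theorem Fml.enc_inj : ∀ {n : ℕ} (f g : Fml n), f.enc = g.enc → f = g
  | _, .mem i j, .mem i' j', h => by
      simp only [Fml.enc, Nat.pair_eq_pair, Fin.val_inj, true_and] at h
      rw [h.1, h.2]
  | _, .eq i j, .eq i' j', h => by
      simp only [Fml.enc, Nat.pair_eq_pair, Fin.val_inj, true_and] at h
      rw [h.1, h.2]
  | _, .bot, .bot, h => rfl
  | _, .imp f g, .imp f' g', h => by
      simp only [Fml.enc, Nat.pair_eq_pair, true_and] at h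
      rw [Fml.enc_inj f f' h.1, Fml.enc_inj g g' h.2]
  | _, .all f, .all f', h => by
      simp only [Fml.enc, Nat.pair_eq_pair, true_and] at h
      rw [Fml.enc_inj f f' h]
  | _, .mem i j, .eq i' j', h => by simp [Fml.enc, Nat.pair_eq_pair] at h
  | _, .mem i j, .bot, h => by simp [Fml.enc, Nat.pair_eq_pair] at h
  | _, .mem i j, .imp f' g', h => by simp [Fml.enc, Nat.pair_eq_pair] at h
  | _, .mem i j, .all f', h => by simp [Fml.enc, Nat.pair_eq_pair] at h
  | _, .eq i j, .mem i' j', h => by simp [Fml.enc, Nat.pair_eq_pair] at h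
  | _, .eq i j, .bot, h => by simp [Fml.enc, Nat.pair_eq_pair] at h
  | _, .eq i j, .imp f' g', h => by simp [Fml.enc, Nat.pair_eq_pair] at h
  | _, .eq i j, .all f', h => by simp [Fml.enc, Nat.pair_eq_pair] at h
  | _, .bot, .mem i' j', h => by simp [Fml.enc, Nat.pair_eq_pair] at h
  | _, .bot, .eq i' j', h => by simp [Fml.enc, Nat.pair_eq_pair] at h
  | _, .bot, .imp f' g', h => by simp [Fml.enc, Nat.pair_eq_pair] at h
  | _, .bot, .all f', h => by simp [Fml.enc, Nat.pair_eq_pair] at h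
  | _, .imp f g, .mem i' j', h => by simp [Fml.enc, Nat.pair_eq_pair] at h
  | _, .imp f g, .eq i' j', h => by simp [Fml.enc, Nat.pair_eq_pair] at h
  | _, .imp f g, .bot, h => by simp [Fml.enc, Nat.pair_eq_pair] at h
  | _, .imp f g, .all f', h => by simp [Fml.enc, Nat.pair_eq_pair] at h
  | _, .all f, .mem i' j', h => by simp [Fml.enc, Nat.pair_eq_pair] at h
  | _, .all f, .eq i' j', h => by simp [Fml.enc, Nat.pair_eq_pair] at h
  | _, .all f, .bot, h => by simp [Fml.enc, Nat.pair_eq_pair] at h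
  | _, .all f, .imp f' g', h => by simp [Fml.enc, Nat.pair_eq_pair] at h

instance {n : ℕ} : Countable (Fml n) :=
  Function.Injective.countable (f := Fml.enc) fun f g h => Fml.enc_inj f g h

section

variable {M : Type} [SetStr M]

/-- Skolem functions -/
noncomputable def sk [Nonempty M] {n : ℕ} (f : Fml (n + 1)) (v : Fin n → M) : M :=
  Classical.epsilon (fun x => Sat f (Fin.cons x v))

theorem sk_spec [Nonempty M] {n : ℕ} {f : Fml (n + 1)} {v : Fin n → M} {x : M}
    (h : Sat f (Fin.cons x v)) : Sat f (Fin.cons (sk f v) v) :=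
  Classical.epsilon_spec (p := fun x => Sat f (Fin.cons x v)) ⟨x, h⟩

/-- the stages of the Skolem hull -/
noncomputable def stg (M : Type) [SetStr M] [Nonempty M] : ℕ → Set M
  | 0 => ∅
  | k + 1 => stg M k ∪ ⋃ n : ℕ, ⋃ f : Fml (n + 1),
      Set.range (fun v : Fin n → stg M k => sk f (fun i => (v i : M)))

theorem stg_countable [Nonempty M] : ∀ k, (stg M k).Countable
  | 0 => Set.countable_empty
  | k + 1 => by
      have : Countable (stg M k) := (stg_countable k).to_subtype
      refine (stg_countable k).union (Set.countable_iUnion fun n =>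
        Set.countable_iUnion fun f => ?_)
      have h3 : Countable (Fin n → stg M k) := inferInstance
      exact Set.countable_range _

theorem stg_mono [Nonempty M] {k l : ℕ} (h : k ≤ l) : stg M k ⊆ stg M l := by
  induction h with
  | refl => exact subset_rfl
  | step _ ih => exact ih.trans Set.subset_union_left

/-- the Skolem hull of the empty set -/
def Hull (M : Type) [SetStr M] [Nonempty M] : Type := {x : M // ∃ k, x ∈ stg M k}

instance [Nonempty M] : SetStr (Hull M) where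
  mem x y := E x.1 y.1

instance [Nonempty M] : Countable (Hull M) := by
  have h : (⋃ k, stg M k).Countable := Set.countable_iUnion stg_countable
  have h2 : {x : M | ∃ k, x ∈ stg M k} = ⋃ k, stg M k := by
    ext x
    simp
  rw [← h2] at h
  exact h.to_subtype

theorem sk_mem [Nonempty M] {n : ℕ} (f : Fml (n + 1)) (v : Fin n → Hull M) :
    ∃ k, sk f (fun i => (v i).1) ∈ stg M k := by
  choose g hg using fun i => (v i).2
  obtain ⟨k, hk⟩ : ∃ k, ∀ i, g i ≤ k := by
    refine ⟨Finset.univ.sup g, fun i => Finset.le_sup (Finset.mem_univ i)⟩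
  refine ⟨k + 1, Or.inr ?_⟩
  refine Set.mem_iUnion.2 ⟨n, Set.mem_iUnion.2 ⟨f, ⟨fun i => ⟨(v i).1, ?_⟩, rfl⟩⟩⟩
  exact stg_mono (hk i) (hg i)

theorem hull_sat [Nonempty M] : ∀ {n : ℕ} (f : Fml n) (v : Fin n → Hull M),
    Sat f v ↔ Sat f (fun i => (v i).1)
  | _, .mem i j, v => Iff.rfl
  | _, .eq i j, v => by
      simp only [Sat]
      exact Subtype.ext_iff
  | _, .bot, v => Iff.rfl
  | _, .imp f g, v => by
      simp only [Sat]
      rw [hull_sat f v, hull_sat g v]
  | _, .all f, v => by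
      have hc : ∀ x : Hull M, (fun i => ((Fin.cons x v : Fin _ → Hull M) i).1)
          = (Fin.cons x.1 (fun i => (v i).1) : Fin _ → M) := by
        intro x
        funext i
        refine Fin.cases ?_ (fun j => ?_) i <;> rfl
      simp only [Sat]
      constructor
      · intro h
        by_contra hx
        push Not at hx
        obtain ⟨x, hx⟩ := hx
        have h2 : Sat (M := M) (.imp f .bot) (Fin.cons x (fun i => (v i).1)) := hx
        have h3 := sk_spec h2
        obtain ⟨x0, hx0⟩ : ∃ x0 : Hull M, x0.1 = sk (.imp f .bot) (fun i => (v i).1) :=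
          ⟨⟨_, sk_mem _ v⟩, rfl⟩
        have h4 := (hull_sat f _).1 (h x0)
        rw [hc, hx0] at h4
        exact h3 h4
      · intro h x
        rw [hull_sat f, hc]
        exact h x.1

theorem hull_u [Nonempty M] {n : ℕ} (Q : ∀ (N : Type) [SetStr N], (Fin n → N) → Prop)
    (h : UDf Q) (v : Fin n → Hull M) : Q (Hull M) v ↔ Q M (fun i => (v i).1) := by
  obtain ⟨f, hf⟩ := h.out
  rw [hf, hf, hull_sat]

theorem UDf.sat {m k : ℕ} (f : Fml m) (r : Fin m → Fin k) :
    UDf (fun M _ (w : Fin k → M) => Sat f (fun i => w (r i))) :=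
  ⟨f.ren r, fun M _ w => (Sat_ren f r w).symm⟩

end

/-- separation, as a uniformly definable predicate -/
def QSep {n : ℕ} (f : Fml (n + 1)) (N : Type) [SetStr N] (w : Fin (n + 1) → N) : Prop :=
  ∃ b, ∀ x, E x b ↔ E x (w 0) ∧ Sat f (Fin.cons x (fun i => w i.succ))

/-- replacement, as a uniformly definable predicate -/
def QRep {n : ℕ} (f : Fml (n + 2)) (N : Type) [SetStr N] (w : Fin (n + 1) → N) : Prop :=
  (∀ x, E x (w 0) → ∃ y, Sat f (Fin.cons x (Fin.cons y (fun i => w i.succ))) ∧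
    ∀ y', Sat f (Fin.cons x (Fin.cons y' (fun i => w i.succ))) → y' = y) →
      ∃ b, ∀ y, E y b ↔ ∃ x, E x (w 0) ∧ Sat f (Fin.cons x (Fin.cons y (fun i => w i.succ)))

theorem QSep_u {n : ℕ} (f : Fml (n + 1)) : UDf (QSep f) := by
  have h1 : UDf (fun M _ (w : Fin (n + 1 + 1 + 1) → M) =>
      Sat f (Fin.cons (w 0) (fun i => w i.succ.succ.succ))) := by
    refine (UDf.sat f (Fin.cons 0 (fun i => i.succ.succ.succ))).congr fun M _ v => ?_
    have : (fun i => v ((Fin.cons 0 (fun i => i.succ.succ.succ) : Fin (n + 1) → Fin (n + 3)) i))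
        = (Fin.cons (v 0) (fun i => v i.succ.succ.succ) : Fin (n + 1) → M) := by
      funext i
      refine Fin.cases ?_ (fun j => ?_) i <;> rfl
    rw [this]
  have h2 : UDf (fun M _ (w : Fin (n + 1 + 1 + 1) → M) => E (w 0) (w 1) ↔
      E (w 0) (w (Fin.succ (Fin.succ 0))) ∧ Sat f (Fin.cons (w 0) (fun i => w i.succ.succ.succ))) :=
    inferInstance
  unfold QSep
  exact UDf.ex (P := fun M _ b (w : Fin (n + 1) → M) => ∀ x, E x b ↔ E x (w 0) ∧
    Sat f (Fin.cons x (fun i => w i.succ))) (h := UDf.all (P := fun M _ x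
      (w : Fin (n + 1 + 1) → M) => E x (w 0) ↔ E x (w (Fin.succ 0)) ∧
        Sat f (Fin.cons x (fun i => w i.succ.succ))) (h := h2))

theorem QRep_u {n : ℕ} (f : Fml (n + 2)) : UDf (QRep f) := by
  have h0 : ∀ {k : ℕ} (a b : Fin k) (r : Fin n → Fin k), UDf (fun M _ (w : Fin k → M) =>
      Sat f (Fin.cons (w a) (Fin.cons (w b) (fun i => w (r i))))) := by
    intro k a b r
    refine (UDf.sat f (Fin.cons a (Fin.cons b r))).congr fun M _ v => ?_
    have : (fun i => v ((Fin.cons a (Fin.cons b r) : Fin (n + 2) → Fin k) i))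
        = (Fin.cons (v a) (Fin.cons (v b) (fun i => v (r i))) : Fin (n + 2) → M) := by
      funext i
      refine Fin.cases ?_ (fun j => ?_) i
      · rfl
      · refine Fin.cases ?_ (fun j => ?_) j <;> rfl
    rw [this]
  have h1 := h0 (k := n + 1 + 1 + 1) 1 0 (fun i => i.succ.succ.succ)
  have h2 := h0 (k := n + 1 + 1 + 1 + 1) (Fin.succ (Fin.succ 0)) 0
    (fun i => i.succ.succ.succ.succ)
  have h3 := h0 (k := n + 1 + 1 + 1) 0 1 (fun i => i.succ.succ.succ)
  have g1 : UDf (fun M _ (w : Fin (n + 1 + 1 + 1) → M) => ∀ y' : M,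
      Sat f (Fin.cons (w (Fin.succ 0)) (Fin.cons y' (fun i => w i.succ.succ.succ))) →
        y' = w 0) :=
    UDf.all (P := fun M _ y' (w : Fin (n + 1 + 1 + 1) → M) =>
      Sat f (Fin.cons (w (Fin.succ 0)) (Fin.cons y' (fun i => w i.succ.succ.succ))) →
        y' = w 0) (h := (inferInstance : UDf (fun M _ (w : Fin (n + 1 + 1 + 1 + 1) → M) =>
      Sat f (Fin.cons (w (Fin.succ (Fin.succ 0))) (Fin.cons (w 0)
        (fun i => w i.succ.succ.succ.succ))) → w 0 = w (Fin.succ 0))))
  have g2 : UDf (fun M _ (w : Fin (n + 1 + 1) → M) => ∃ y : M,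
      Sat f (Fin.cons (w 0) (Fin.cons y (fun i => w i.succ.succ))) ∧ ∀ y' : M,
      Sat f (Fin.cons (w 0) (Fin.cons y' (fun i => w i.succ.succ))) → y' = y) :=
    UDf.ex (P := fun M _ y (w : Fin (n + 1 + 1) → M) =>
      Sat f (Fin.cons (w 0) (Fin.cons y (fun i => w i.succ.succ))) ∧ ∀ y' : M,
      Sat f (Fin.cons (w 0) (Fin.cons y' (fun i => w i.succ.succ))) → y' = y)
      (h := UDf.and (hP := h1) (hQ := g1))
  have g3 : UDf (fun M _ (w : Fin (n + 1) → M) => ∀ x, E x (w 0) → ∃ y : M,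
      Sat f (Fin.cons x (Fin.cons y (fun i => w i.succ))) ∧ ∀ y' : M,
      Sat f (Fin.cons x (Fin.cons y' (fun i => w i.succ))) → y' = y) :=
    UDf.all (P := fun M _ x (w : Fin (n + 1) → M) => E x (w 0) → ∃ y : M,
      Sat f (Fin.cons x (Fin.cons y (fun i => w i.succ))) ∧ ∀ y' : M,
      Sat f (Fin.cons x (Fin.cons y' (fun i => w i.succ))) → y' = y)
      (h := UDf.imp (P := fun M _ (w : Fin (n + 1 + 1) → M) => E (w 0) (w (Fin.succ 0)))
        (hQ := g2))
  have g4 : UDf (fun M _ (w : Fin (n + 1 + 1 + 1) → M) => ∃ x : M, E x (w (Fin.succ (Fin.succ 0)))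
      ∧ Sat f (Fin.cons x (Fin.cons (w 0) (fun i => w i.succ.succ.succ)))) :=
    UDf.ex (P := fun M _ x (w : Fin (n + 1 + 1 + 1) → M) => E x (w (Fin.succ (Fin.succ 0)))
      ∧ Sat f (Fin.cons x (Fin.cons (w 0) (fun i => w i.succ.succ.succ))))
      (h := UDf.and (P := fun M _ (w : Fin (n + 1 + 1 + 1 + 1) → M) =>
        E (w 0) (w (Fin.succ (Fin.succ (Fin.succ 0)))))
        (hQ := h0 (k := n + 1 + 1 + 1 + 1) 0 (Fin.succ 0) (fun i => i.succ.succ.succ.succ)))
  have g5 : UDf (fun M _ (w : Fin (n + 1) → M) => ∃ b : M, ∀ y : M, E y b ↔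
      ∃ x : M, E x (w 0) ∧ Sat f (Fin.cons x (Fin.cons y (fun i => w i.succ)))) :=
    UDf.ex (P := fun M _ b (w : Fin (n + 1) → M) => ∀ y : M, E y b ↔
      ∃ x : M, E x (w 0) ∧ Sat f (Fin.cons x (Fin.cons y (fun i => w i.succ))))
      (h := UDf.all (P := fun M _ y (w : Fin (n + 1 + 1) → M) => E y (w 0) ↔
        ∃ x : M, E x (w (Fin.succ 0)) ∧ Sat f (Fin.cons x (Fin.cons y (fun i => w i.succ.succ))))
        (h := UDf.iff (P := fun M _ (w : Fin (n + 1 + 1 + 1) → M) => E (w 0) (w (Fin.succ 0)))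
          (hQ := g4)))
  exact UDf.imp (hP := g3) (hQ := g5)

theorem hull_zf {M : Type} [SetStr M] [ZF M] [Nonempty M] : ZF (Hull M) where
  ext x y := (hull_u (fun N _ (w : Fin 2 → N) => (∀ z, E z (w 0) ↔ E z (w 1)) → w 0 = w 1)
    inferInstance ![x, y]).2 (ZF.ext _ _)
  found x := (hull_u (fun N _ (w : Fin 1 → N) => (∃ y, E y (w 0)) → ∃ y, E y (w 0) ∧
    ∀ z, E z (w 0) → ¬ E z y) inferInstance ![x]).2 (ZF.found _)
  pair x y := (hull_u (fun N _ (w : Fin 2 → N) => ∃ z, ∀ u, E u z ↔ u = w 0 ∨ u = w 1)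
    inferInstance ![x, y]).2 (ZF.pair _ _)
  union x := (hull_u (fun N _ (w : Fin 1 → N) => ∃ u, ∀ z, E z u ↔ ∃ y, E y (w 0) ∧ E z y)
    inferInstance ![x]).2 (ZF.union _)
  power x := (hull_u (fun N _ (w : Fin 1 → N) => ∃ p, ∀ u, E u p ↔ ∀ z, E z u → E z (w 0))
    inferInstance ![x]).2 (ZF.power _)
  infinity := (hull_u (fun N _ (w : Fin 0 → N) => ∃ x : N, (∃ e : N, E e x ∧ ∀ z : N, ¬ E z e) ∧
    ∀ y : N, E y x → ∃ s : N, E s x ∧ ∀ u : N, E u s ↔ E u y ∨ u = y) inferInstance ![]).2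
      ZF.infinity
  sep n f v a := by
    have h := (hull_u (QSep f) (QSep_u f) (Fin.cons a v)).2
      (ZF.sep n f (fun i => (v i).1) a.1)
    exact h
  repl n f v a hf := by
    have h := (hull_u (QRep f) (QRep_u f) (Fin.cons a v)).2 (ZF.repl n f (fun i => (v i).1) a.1)
    exact h hf

/-- downward Löwenheim–Skolem for models of ZF -/
theorem exists_countable (M : Type) [SetStr M] [ZF M] :
    ∃ (N : Type) (_ : SetStr N), ZF N ∧ Countable N ∧
      ∀ f : Fml 0, Sat (M := N) f Fin.elim0 ↔ Sat (M := M) f Fin.elim0 := by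
  have : Nonempty M := ⟨(ZF.infinity (M := M)).choose⟩
  refine ⟨Hull M, inferInstance, hull_zf, inferInstance, fun f => ?_⟩
  rw [hull_sat]
  have : (fun i => ((Fin.elim0 : Fin 0 → Hull M) i).1) = (Fin.elim0 : Fin 0 → M) := by
    funext i
    exact i.elim0
  rw [this]

end SW
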