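import Mathlib.Data.Fin.Tuple.Basic
import Mathlib.Data.Countable.Defs

/-!
All definitions used in the statement about independent switches over ZF: formulas of set theory,
structures for the membership relation, satisfaction, the axioms of ZF, generic extensions, and
the forcing relation inside a structure.
-/

namespace SW

/-! ### formulas and structures -/

/-- Formulas of the language of set theory, with free variables indexed by `Fin n`. -/
inductive Fml : ℕ → Type
  | mem {n : ℕ} (i j : Fin n) : Fml n
  | eq {n : ℕ} (i j : Fin n) : Fml n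
  | bot {n : ℕ} : Fml n
  | imp {n : ℕ} (f g : Fml n) : Fml n
  | all {n : ℕ} (f : Fml (n + 1)) : Fml n

/-- A structure for the language of set theory: a binary relation. -/
class SetStr (M : Type) where
  /-- the membership relation -/
  mem : M → M → Prop

/-- `E x y`: the point `x` is a member of the point `y`. -/
def E {M : Type} [SetStr M] (x y : M) : Prop := SetStr.mem x y

/-- Satisfaction of formulas. In `all f` the quantified variable has index `0`. -/
def Sat {M : Type} [SetStr M] : {n : ℕ} → Fml n → (Fin n → M) → Prop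
  | _, .mem i j, v => E (v i) (v j)
  | _, .eq i j, v => v i = v j
  | _, .bot, _ => False
  | _, .imp f g, v => Sat f v → Sat g v
  | _, .all f, v => ∀ x : M, Sat f (Fin.cons x v)

/-! ### the axioms of ZF -/

/-- The structure `M` satisfies the axioms of ZF (separation and replacement as schemes). -/
class ZF (M : Type) [SetStr M] : Prop where
  ext : ∀ x y : M, (∀ z, E z x ↔ E z y) → x = y
  found : ∀ x : M, (∃ y, E y x) → ∃ y, E y x ∧ ∀ z, E z x → ¬ E z y
  pair : ∀ x y : M, ∃ z, ∀ w, E w z ↔ w = x ∨ w = y
  union : ∀ x : M, ∃ u, ∀ w, E w u ↔ ∃ y, E y x ∧ E w y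
  power : ∀ x : M, ∃ p, ∀ w, E w p ↔ ∀ z, E z w → E z x
  infinity : ∃ x : M, (∃ e, E e x ∧ ∀ z, ¬ E z e) ∧
    ∀ y, E y x → ∃ s, E s x ∧ ∀ w, E w s ↔ E w y ∨ w = y
  sep : ∀ (n : ℕ) (f : Fml (n + 1)) (v : Fin n → M) (a : M),
    ∃ b, ∀ x, E x b ↔ E x a ∧ Sat f (Fin.cons x v)
  repl : ∀ (n : ℕ) (f : Fml (n + 2)) (v : Fin n → M) (a : M),
    (∀ x, E x a → ∃! y, Sat f (Fin.cons x (Fin.cons y v))) →
      ∃ b, ∀ y, E y b ↔ ∃ x, E x a ∧ Sat f (Fin.cons x (Fin.cons y v))

/-! ### generic extensions -/

/-- `z` is the ordered pair of `a` and `b` (Kuratowski). -/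
def IsOP {M : Type} [SetStr M] (z a b : M) : Prop :=
  ∃ s t : M, (∀ w, E w s ↔ w = a) ∧ (∀ w, E w t ↔ w = a ∨ w = b) ∧ (∀ w, E w z ↔ w = s ∨ w = t)

/-- the ordered pair of `a` and `b` is a member of `R` -/
def PairIn {M : Type} [SetStr M] (a b R : M) : Prop := ∃ z, IsOP z a b ∧ E z R

/-- `(P, le, one)` is a poset with largest element `one` in the model `M`; the order is the set
`le` of pairs. -/
structure IsPoset {M : Type} [SetStr M] (P le one : M) : Prop where
  one_mem : E one P
  refl : ∀ p, E p P → PairIn p p le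
  trans : ∀ p q r, E p P → E q P → E r P → PairIn p q le → PairIn q r le → PairIn p r le
  le_one : ∀ p, E p P → PairIn p one le

/-- In `N`, the set `y` is the value of the name `t` for the filter `G`: there is a function `f`
with `f t = y` and `f s = {f r : (r, p) ∈ s for some p ∈ G}` for all `s` in its domain. -/
def IsVal {N : Type} [SetStr N] (G t y : N) : Prop :=
  ∃ f, PairIn t y f ∧ (∀ s z z', PairIn s z f → PairIn s z' f → z = z') ∧
    ∀ s z, PairIn s z f →
      (∀ r p, E p G → PairIn r p s → ∃ w, PairIn r w f) ∧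
      (∀ w, E w z ↔ ∃ r p, E p G ∧ PairIn r p s ∧ PairIn r w f)

/-- `N` (with the embedding `i`) is a generic extension `M[G]` of `M`: the image of `M` is a
transitive class of `N`, and there are a poset `P` in `M` with largest element and an element `G`
of `N` which is a filter on `P` meeting all dense subsets of `P` in `M`, such that every
element of `N` is the value of a name in `M`. -/
def IsGenExt {M N : Type} [SetStr M] [SetStr N] (i : M → N) : Prop :=
  (∀ x y, i x = i y → x = y) ∧ (∀ x y, E (i x) (i y) ↔ E x y) ∧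
  (∀ x z, E z (i x) → ∃ y, z = i y) ∧
  ∃ (P le one : M) (G : N), IsPoset P le one ∧
    (∀ z, E z G → ∃ p, E p P ∧ z = i p) ∧
    E (i one) G ∧
    (∀ p q, E (i p) G → E q P → PairIn p q le → E (i q) G) ∧
    (∀ p q, E (i p) G → E (i q) G → ∃ r, E (i r) G ∧ PairIn r p le ∧ PairIn r q le) ∧
    (∀ D, (∀ p, E p P → ∃ q, E q P ∧ E q D ∧ PairIn q p le) → ∃ p, E p P ∧ E p D ∧ E (i p) G) ∧
    (∀ y : N, ∃ t : M, IsVal G (i t) y)

/-- `φ` is a family of independent switches over the model `M` of ZF: over every generic
extension `N` of `M` and for every pattern `ε` there is a further generic extension `N'` of `N`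
in which, for each `k`, the sentence `φ k` holds exactly when `ε k` is true. -/
def IndepSwitches {n : ℕ} (φ : Fin n → Fml 0) (M : Type) [SetStr M] : Prop :=
  ∀ (N : Type) [SetStr N] [ZF N] (i : M → N), IsGenExt i → ∀ ε : Fin n → Bool,
    ∃ (N' : Type) (_ : SetStr N') (_ : ZF N') (j : N → N'), IsGenExt j ∧
      ∀ k, (Sat (M := N') (φ k) Fin.elim0 ↔ ε k = true)

/-! ### the forcing relation in a structure -/

section

variable {M : Type} [SetStr M]

/-- the triple `(p, (a, b))` is a member of `R` -/
def TrIn (p a b R : M) : Prop := ∃ z, IsOP z a b ∧ PairIn p z R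

/-- `R` is a set of triples `(q, (a, b))` with `q` a condition, such that for every pair `(c, s)` in
`a` and every `r` below `q` and `s` there are `r'` below `r` and a pair `(d, s')` in `b` with `r'`
below `s'` and `(r', (c, d)) ∈ R`, and the same with `a` and `b` interchanged. -/
def IsBis (P le R : M) : Prop := ∀ q a b, TrIn q a b R → E q P ∧
  (∀ c s r, PairIn c s a → E s P → E r P → PairIn r q le → PairIn r s le →
    ∃ r' d s', E r' P ∧ PairIn r' r le ∧ PairIn d s' b ∧ E s' P ∧ PairIn r' s' le ∧
      TrIn r' c d R) ∧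
  (∀ d s r, PairIn d s b → E s P → E r P → PairIn r q le → PairIn r s le →
    ∃ r' c s', E r' P ∧ PairIn r' r le ∧ PairIn c s' a ∧ E s' P ∧ PairIn r' s' le ∧
      TrIn r' c d R)

/-- `p` forces `a = b` -/
def ForcesEq (P le p a b : M) : Prop := ∃ R, IsBis P le R ∧ TrIn p a b R

/-- `p` forces `a ∈ b` -/
def ForcesMem (P le p a b : M) : Prop := E p P ∧ ∀ q, E q P → PairIn q p le →
  ∃ r d s, E r P ∧ PairIn r q le ∧ PairIn d s b ∧ E s P ∧ PairIn r s le ∧ ForcesEq P le r a d

/-- the forcing relation for all formulas -/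
def Forces (P le : M) : {n : ℕ} → Fml n → M → (Fin n → M) → Prop
  | _, .mem i j, p, v => ForcesMem P le p (v i) (v j)
  | _, .eq i j, p, v => ForcesEq P le p (v i) (v j)
  | _, .bot, _, _ => False
  | _, .imp f g, p, v => ∀ q, E q P → PairIn q p le → Forces P le f q v → Forces P le g q v
  | _, .all f, p, v => ∀ x : M, Forces P le f p (Fin.cons x v)

end

/-- In `N` there is a poset with a condition which forces, for each `k`, the sentence `φ k` if
`ε k` is true, and its negation if `ε k` is false. -/
def CanForce {n : ℕ} (φ : Fin n → Fml 0) (ε : Fin n → Bool) (N : Type) [SetStr N] : Prop :=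
  ∃ P le one p : N, IsPoset P le one ∧ E p P ∧ ∀ k : Fin n,
    Forces P le (if ε k = true then φ k else .imp (φ k) .bot) p Fin.elim0

end SW
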