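import Pool.Agent.H35.SW.CDefs

/-!
Module VLE: the value lemma for the Cohen poset.
-/

set_option linter.unusedVariables false
set_option synthInstance.maxSize 100000

namespace SW

/-- membership of a pair, as a predicate of three variables -/
def QPair (N : Type) [SetStr N] (v : Fin 3 → N) : Prop := PairIn (v 0) (v 1) (v 2)

instance : UDf QPair := PairIn_u

/-- the third variable is a functional relation between the members of the first two -/
def QFun (N : Type) [SetStr N] (v : Fin 3 → N) : Prop :=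
  ∀ z c c', E z (v 0) → E c (v 1) → E c' (v 1) → PairIn z c (v 2) → PairIn z c' (v 2) → c = c'

instance : UDf QFun := by unfold QFun; infer_instance

section

variable {M : Type} [SetStr M] [ZF M]

/-- `q` forces `(z, c) ∈ a` (for names `z, c, a`) -/
def FP (F : FPoset M) (q z c a : M) : Prop := FS F QPair q ![z, c, a]

theorem FP_df (F : FPoset M) (h : FSFacts F) :
    Df (fun w : Fin 4 → M => FP F (w 0) (w 1) (w 2) (w 3)) := by
  refine (h.df QPair).congr fun w => ?_
  unfold FP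
  have : (fun i : Fin 3 => w i.succ) = ![w 1, w 2, w 3] := by
    funext i
    fin_cases i <;> rfl
  rw [this]

theorem FP.mono {F : FPoset M} {p q z c a : M} (h : FP F p z c a) (hp : E p F.P)
    (hle : F.le q p) : FP F q z c a := fun G hG hq => h G hG (hG.up q p hq hp hle)

theorem FP.pair {F : FPoset M} {G : M → Prop} (hG : Gen F G) {p z c a : M} (hp : G p)
    (h : FP F p (chk F z) (chk F c) a) : PairIn (emb F G z) (emb F G c) (mk F G a) :=
  h G hG hp

theorem FP.truth {F : FPoset M} {G : M → Prop} (hG : Gen F G) (hs : FSFacts F) {z c a : M}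
    (h : PairIn (emb F G z) (emb F G c) (mk F G a)) :
    ∃ p, G p ∧ FP F p (chk F z) (chk F c) a :=
  (hs.truth QPair G hG ![chk F z, chk F c, a]).1 h

theorem not_fnt_ex (hf : FinFacts M) {x y : M} (hx : ¬ Fnt x) (hy : Fnt y) :
    ∃ z, E z x ∧ ¬ E z y := by
  by_contra h
  push Not at h
  exact hx (hf.sub hy h)

end

theorem vle (hhf : HFStmt) (hroot : ROOTStmt) (hmini : MINIStmt) (hemb : EMBStmt)
    (hsem : SEMStmt) : VLEStmt := by
  intro M _ _ _ hf K θ hK G hG _ Z l hl a hfun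
  obtain ⟨a, rfl⟩ := Quot.exists_rep a
  let F := Coh hf K θ
  change ∀ z c c', E z Z → E c l → E c' l → E (opair (emb F G z) (emb F G c)) (mk F G a) →
      E (opair (emb F G z) (emb F G c')) (mk F G a) → c = c' at hfun
  have hs : FSFacts F := hsem M F
  have he := hemb M F G hG
  have hk : HFFacts K := hhf M K hK
  have hP : F.P = cohP K θ := rfl
  have hle : ∀ p q, F.le p q ↔ Sub q p := fun p q => Iff.rfl
  -- a condition forcing that the relation is functional
  have h1 : QFun (Ext F G) (fun i => mk F G (![chk F Z, chk F l, a] i)) := by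
    intro z c c' hz hc hc' h2 h3
    obtain ⟨z, hz1, rfl⟩ := he.trans _ _ hz
    obtain ⟨c, hc1, rfl⟩ := he.trans _ _ hc
    obtain ⟨c', hc1', rfl⟩ := he.trans _ _ hc'
    rw [hfun z c c' hz1 hc1 hc1' (pairIn_iff.1 h2) (pairIn_iff.1 h3)]
  obtain ⟨p, hpG, hp⟩ := (hs.truth QFun G hG ![chk F Z, chk F l, a]).1 h1
  have hpP : E p F.P := hG.sub p hpG
  have hFP := FP_df F hs
  have _ : ∀ {n : ℕ} {t s u : (Fin n → M) → M} [DfT t] [DfT s] [DfT u],
      Df (fun v => FP F (t v) (chk F (s v)) (chk F (u v)) a) := fun {n t s u} _ _ _ =>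
    Df.comp4 (R := fun q z c a => FP F q z c a) hFP inferInstance inferInstance inferInstance
      inferInstance
  -- conditions above `p` forcing `(z, c) ∈ a`
  let X : M → M → M → Prop := fun z c q =>
    E q F.P ∧ Sub p q ∧ FP F q (chk F z) (chk F c) a
  have _ : ∀ {n : ℕ} {t s u : (Fin n → M) → M} [DfT t] [DfT s] [DfT u],
      Df (fun v => X (t v) (s v) (u v)) := by
    intro n t s u _ _ _
    simp only [X]
    infer_instance
  have hXcmp : ∀ z c c' q q', E z Z → E c l → E c' l → X z c q → X z c' q' →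
      Cmp K θ q q' → c = c' := by
    rintro z c c' q q' hz hc hc' ⟨hq, hpq, hqf⟩ ⟨hq', hpq', hqf'⟩ ⟨r, hr, hqr, hqr'⟩
    obtain ⟨G', hG', hrG'⟩ := hs.ex r hr
    have he' := hemb M F G' hG'
    have h2 := hG'.up r q hrG' hq hqr
    have h3 := hG'.up r q' hrG' hq' hqr'
    have h4 := hG'.up r p hrG' hpP (hpq.trans hqr)
    have h5 : QFun (Ext F G') (fun i => mk F G' (![chk F Z, chk F l, a] i)) := hp G' hG' h4
    have h6 := h5 (emb F G' z) (emb F G' c) (emb F G' c') ((he'.mem _ _).2 hz)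
      ((he'.mem _ _).2 hc) ((he'.mem _ _).2 hc') (hqf.pair hG' h2) (hqf'.pair hG' h3)
    exact (he'.inj _ _).1 h6
  have hXup : ∀ z c q s, X z c q → E s F.P → Sub q s → X z c s := by
    rintro z c q s ⟨hq, hpq, hqf⟩ hs' hqs
    exact ⟨hs', hpq.trans hqs, hqf.mono hq hqs⟩
  have hXreg : ∀ z c q, E q F.P → Sub p q →
      (∀ q', E q' F.P → Sub q q' → ∃ r, Sub q' r ∧ X z c r) → X z c q := by
    intro z c q hq hpq h
    refine ⟨hq, hpq, hs.dense QPair hq fun q' hq' hle' => ?_⟩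
    obtain ⟨r, hr, hXr⟩ := h q' hq' hle'
    exact ⟨r, hXr.1, hr, hXr.2.2⟩
  -- minimal ones
  let Mn : M → M → M → Prop := fun z c q => X z c q ∧ ∀ q' : M, Sub q' q → X z c q' → q' = q
  have _ : ∀ {n : ℕ} {t s u : (Fin n → M) → M} [DfT t] [DfT s] [DfT u],
      Df (fun v => Mn (t v) (s v) (u v)) := by
    intro n t s u _ _ _
    simp only [Mn]
    infer_instance
  have hcmp_refl : ∀ q, E q F.P → Cmp K θ q q := fun q hq => ⟨q, hq, Sub.refl q, Sub.refl q⟩
  -- finitely many minimal conditions of each size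
  have hT : ∀ z k, E z Z → E k om →
      Fnt (sep F.P (fun q => card q = k ∧ ∃ c : M, E c l ∧ Mn z c q)) := by
    intro z k hz hk
    by_contra hT
    obtain ⟨T, hT', hTm⟩ : ∃ T : M, ¬ Fnt T ∧
        ∀ q, E q T ↔ E q F.P ∧ card q = k ∧ ∃ c : M, E c l ∧ Mn z c q :=
      ⟨_, hT, fun q => mem_sep' inferInstance⟩
    clear hT
    obtain ⟨r, hr, hpr, hr1, hr2⟩ := hroot M K θ T p k hk (fun q hq => by
      rw [hTm] at hq
      obtain ⟨h1, h2, c, h3, h4⟩ := hq
      exact ⟨h1, h4.1.2.1, h2⟩) hT'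
    obtain ⟨q1, hq1, -⟩ := not_fnt_ex hf hr1 hf.emp
    rw [mem_sep' inferInstance, hTm] at hq1
    obtain ⟨⟨hq1P, hq1k, c1, hc1, hq1M⟩, hrq1⟩ := hq1
    -- members of `T` above `r`, compatible with `q1` and with a given `q'`, different from `s`
    have key : ∀ q', E q' F.P → Sub r q' → ∃ q2, E q2 F.P ∧ Sub r q2 ∧ Mn z c1 q2 ∧
        Cmp K θ q2 q' ∧ q2 ≠ r := by
      intro q' hq' hrq'
      obtain ⟨q2, hq2, hq2'⟩ := not_fnt_ex hf hr1
        (hf.ins (a := r) (hf.bun (hr2 q' hq' hrq') (hr2 q1 hq1P hrq1)))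
      rw [mem_sep' inferInstance] at hq2
      rw [mem_ins, mem_bun, mem_sep' (by unfold Cmp; infer_instance),
        mem_sep' (by unfold Cmp; infer_instance)] at hq2'
      obtain ⟨hq2T, hrq2⟩ := hq2
      obtain ⟨hq2P, hq2k, c2, hc2, hq2M⟩ := (hTm q2).1 hq2T
      have hA : Cmp K θ q2 q' := by
        by_contra hA
        exact hq2' (Or.inl (Or.inl ⟨hq2T, hrq2, hA⟩))
      have hB : Cmp K θ q2 q1 := by
        by_contra hB
        exact hq2' (Or.inl (Or.inr ⟨hq2T, hrq2, hB⟩))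
      have hC : q2 ≠ r := fun h => hq2' (Or.inr h)
      have : c2 = c1 := hXcmp z c2 c1 q2 q1 hz hc2 hc1 hq2M.1 hq1M.1 hB
      subst this
      exact ⟨q2, hq2P, hrq2, hq2M, hA, hC⟩
    have hXr : X z c1 r := by
      refine hXreg z c1 r hr hpr fun q' hq' hrq' => ?_
      obtain ⟨q2, hq2P, hrq2, hq2M, ⟨s, hs1, hs2, hs3⟩, _⟩ := key q' hq' hrq'
      exact ⟨s, hs3, hXup z c1 q2 s hq2M.1 hs1 hs2⟩
    obtain ⟨q2, hq2P, hrq2, hq2M, _, hne⟩ := key r hr (Sub.refl r)
    exact hne (hq2M.2 r hrq2 hXr).symm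
  -- the finite sets of values
  let Γ : M → M → M := fun z k => sep l (fun c => ∃ q : M, E q F.P ∧ card q = k ∧ Mn z c q)
  have _ : ∀ {n : ℕ} {t s : (Fin n → M) → M} [DfT t] [DfT s],
      DfT (fun v => Γ (t v) (s v)) := by
    intro n t s _ _
    simp only [Γ]
    infer_instance
  have hΓm : ∀ z k c, E c (Γ z k) ↔ E c l ∧ ∃ q : M, E q F.P ∧ card q = k ∧ Mn z c q :=
    fun z k c => mem_sep' inferInstance
  have hΓ : ∀ z k, E z Z → E k om → Fnt (Γ z k) := by
    intro z k hz hk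
    have h2 := hf.img (fun q => the (fun c => E c l ∧ Mn z c q)) inferInstance (hT z k hz hk)
    refine hf.sub h2 fun c hc => ?_
    rw [hΓm] at hc
    obtain ⟨hcl, q, hq, hqk, hqM⟩ := hc
    rw [mem_img' inferInstance]
    refine ⟨q, by rw [mem_sep' inferInstance]; exact ⟨hq, hqk, c, hcl, hqM⟩, ?_⟩
    refine (the_eq (p := fun c => E c l ∧ Mn z c q) ⟨hcl, hqM⟩ ?_).symm
    rintro c' ⟨hc', hqM'⟩
    exact hXcmp z c' c q q hz hc' hcl hqM'.1 hqM.1 (hcmp_refl q hq)
  -- the function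
  let W := sep (prod (prod Z K) l) (fun w => ∃ z c k : M,
    w = opair (opair z (opair k (card (inter (Γ z k) c)))) c ∧ E z Z ∧ E c l ∧ E k om ∧
      E c (Γ z k))
  have hWm : ∀ z j c, E (opair (opair z j) c) W ↔ E z Z ∧ E j K ∧ E c l ∧
      ∃ k, j = opair k (card (inter (Γ z k) c)) ∧ E k om ∧ E c (Γ z k) := by
    intro z j c
    simp only [W]
    rw [mem_sep' inferInstance, mem_prod, mem_prod]
    constructor
    · rintro ⟨⟨⟨hz, hj⟩, hc⟩, z', c', k, h2, _, _, hk, h3⟩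
      rw [opair_inj, opair_inj] at h2
      obtain ⟨⟨rfl, rfl⟩, rfl⟩ := h2
      exact ⟨hz, hj, hc, k, rfl, hk, h3⟩
    · rintro ⟨hz, hj, hc, k, rfl, hk, h3⟩
      exact ⟨⟨⟨hz, hj⟩, hc⟩, z, c, k, rfl, hz, hc, hk, h3⟩
  refine ⟨W, ?_, ?_⟩
  · intro z j c c' h2 h3
    rw [hWm] at h2 h3
    obtain ⟨hz, hj, hc, k, rfl, hk, hcΓ⟩ := h2
    obtain ⟨_, _, hc', k', h4, hk', hcΓ'⟩ := h3
    rw [opair_inj] at h4
    obtain ⟨rfl, h4⟩ := h4
    have hlt : ∀ c c' : M, E c l → E c' l → E c (Γ z k) → E c c' →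
        E (card (inter (Γ z k) c)) (card (inter (Γ z k) c')) := by
      intro c c' hc hc' hcΓ hcc'
      refine hf.card_lt (hf.sub (hΓ z k hz hk) fun x hx => (mem_inter.1 hx).1) ?_ ?_
      · intro x hx
        rw [mem_inter] at hx ⊢
        exact ⟨hx.1, (hl.mem hc').trans hcc' hx.2⟩
      · intro h5
        have : E c (inter (Γ z k) c') := mem_inter.2 ⟨hcΓ, hcc'⟩
        rw [← h5, mem_inter] at this
        exact not_mem_self c this.2
    rcases (hl.mem hc).tri (hl.mem hc') with h5 | h5 | h5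
    · have := hlt c c' hc hc' hcΓ h5
      rw [h4] at this
      exact absurd this (not_mem_self _)
    · exact h5
    · have := hlt c' c hc' hc hcΓ' h5
      rw [h4] at this
      exact absurd this (not_mem_self _)
  · intro z c hz hc h2
    obtain ⟨q, hqG, hq⟩ := FP.truth hG hs (pairIn_iff.2 h2)
    obtain ⟨r, hrG, hrq, hrp⟩ := hG.dir q p hqG hpG
    have hXr : X z c r := ⟨hG.sub r hrG, hrp, hq.mono (hG.sub q hqG) hrq⟩
    have hrF : Fnt r := (mem_cohP.1 (hG.sub r hrG)).2.1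
    obtain ⟨q', hq'r, hq'X, hq'm⟩ := hmini M (fun q => X z c q) inferInstance r hrF hXr
    have hq'P := hq'X.1
    have hq'F : Fnt q' := (mem_cohP.1 hq'P).2.1
    have hcΓ : E c (Γ z (card q')) := (hΓm _ _ _).2 ⟨hc, q', hq'P, rfl, hq'X, hq'm⟩
    have hko := hf.card_om hq'F
    refine ⟨opair (card q') (card (inter (Γ z (card q')) c)), ?_, ?_⟩
    · rw [hk.opair]
      exact ⟨hk.nat hko, hk.nat (hf.card_om (hf.sub (hΓ z _ hz hko)
        fun x hx => (mem_inter.1 hx).1))⟩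
    · rw [hWm]
      refine ⟨hz, ?_, hc, card q', rfl, hko, hcΓ⟩
      rw [hk.opair]
      exact ⟨hk.nat hko, hk.nat (hf.card_om (hf.sub (hΓ z _ hz hko)
        fun x hx => (mem_inter.1 hx).1))⟩

end SW
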