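import Pool.Agent.H35.SW.FRelF
import Pool.Agent.H35.SW.VLE
import Pool.Agent.H12.SW.COLL
import Pool.Agent.H12.SW.FIN
import Pool.Agent.H12.SW.MINI
import Pool.Agent.H12.SW.SEM
import Pool.Agent.H15.SW.Val
import Pool.Agent.H26.SW.ZFA
import Pool.Agent.H28.SW.CNT
import Pool.Agent.H28.SW.EQ
import Pool.Agent.H28.SW.GM
import Pool.Agent.H31.SW.TRA
import Pool.Agent.H36.SW.HART
import Pool.Agent.H36.SW.HTOT
import Pool.Agent.H36.SW.ITER
import Pool.Agent.H36.SW.POS
import Pool.Agent.H41.SW.EXCL
import Pool.Agent.H41.SW.HF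
import Pool.Agent.H41.SW.HUP
import Pool.Agent.H45.SW.CTBA
import Pool.Agent.H45.SW.GOOA
import Pool.Agent.H45.SW.ONTA
import Pool.Agent.H46.SW.Reg
import Pool.Agent.H46.SW.Root
import Pool.Agent.H68.SW.INJE
import Pool.Agent.H68.SW.REA
import Pool.Agent.H80.SW.Tru
import Pool.Agent.H80.SW.Zfb
import Pool.Agent.H93.SW.SUPP
import Pool.Agent.H97.SW.EMB
import Pool.Agent.H97.SW.QUO

/-!
All modules together.
-/

set_option linter.unusedVariables false

namespace SW

theorem allModules (n : ℕ) :
    ∃ φ : Fin n → Fml 0,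
      (∀ (M : Type) [SetStr M] [ZF M] [Countable M], IndepSwitches φ M) ∧
      ∃ χ : (Fin n → Bool) → Fml 0,
        (∀ (ε : Fin n → Bool) (N : Type) [SetStr N],
          Sat (M := N) (χ ε) Fin.elim0 ↔ CanForce φ ε N) ∧
        ∀ (M : Type) [SetStr M] [ZF M] (ε : Fin n → Bool) (P le one p : M),
          IsPoset P le one → E p P → Forces P le (χ ε) p Fin.elim0 := by
  have hfin : FINStmt := fin
  have hcoll : COLLStmt := coll
  have hhfex : HFEXStmt := hfex
  have hmini : MINIStmt := mini hfin
  have heq : EQStmt := eq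
  have hgm : GMStmt := gm
  have hquo : QUOStmt := quo heq hgm
  have htru : TRUStmt := tru heq hgm hquo
  have hsem : SEMStmt := sem htru
  have hemb : EMBStmt := embf heq hgm hquo
  have hval : VALStmt := val hquo hemb
  have hzfa : ZFAStmt := zfa heq hgm hquo
  have hzfb : ZFBStmt := zfb heq hgm hquo hcoll hzfa
  have hcnt : CNTStmt := cnt
  have hhf : HFStmt := hf hfin
  have htra : TRAStmt := tra hemb hfin hhf
  have hhart : HARTStmt := hart
  have hpos : POSStmt := pos_mod
  have hhtot : HTOTStmt := htot hhart hpos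
  have hhup : HUPStmt := hup hhf
  have hiter : ITERStmt := iter hhtot hhup
  have hexcl : EXCLStmt := excl hhup
  have hroot : ROOTStmt := root hfin
  have hreg : REGStmt := reg_up hfin hroot
  have hvle : VLEStmt := vle hhf hroot hmini hemb hsem
  have hsupp : SUPPStmt := supp hhf hreg hmini hsem hemb
  have hrea : REAStmt := rea hemb hhf hgm htra
  have hinje : INJEStmt := inje hemb hhf htra hrea hpos
  have honta : ONTAStmt := onta hemb hhf htra hvle
  have hctba : CTBAStmt := ctba htra honta
  have hgooa : GOOAStmt := gooa hemb hhf htra hvle honta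
  have hmain : MAINStmt := main hfin hhfex hhtot hhup hiter hzfa hzfb hemb hsem hval htra hsupp
    hinje hctba hgooa
  exact final2 hzfa hzfb hsem htru (main_all hfin hhfex hhtot hhup hiter hzfa hzfb hemb hsem
    htra hsupp hinje hctba hgooa) hmain hexcl hcnt n

end SW
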