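import Pool.Agent.H35.SW.Rec

/-!
Ordinals in a model of ZF.
-/

set_option linter.unusedVariables false
set_option synthInstance.maxSize 100000

namespace SW

section
variable {M : Type} [SetStr M]

/-- ordinals: transitive sets of transitive sets -/
def Ord (x : M) : Prop := Trans x ∧ ∀ y, E y x → Trans y

theorem Ord_df : Cl (fun x : M => Ord x) := by unfold Ord Trans Sub; infer_instance

instance {n : ℕ} {t : (Fin n → M) → M} [ht : DfT t] : Df (fun v => Ord (t v)) :=
  Ord_df.comp1 ht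

theorem Ord.mem {a b : M} (ha : Ord a) (hb : E b a) : Ord b :=
  ⟨ha.2 b hb, fun y hy => ha.2 y (ha.1 b hb y hy)⟩

theorem Ord.trans {a b c : M} (ha : Ord a) (hb : E b a) (hc : E c b) : E c a := ha.1 b hb c hc

end

section
variable {M : Type} [SetStr M] [ZF M]

theorem Ord_emp : Ord (emp : M) :=
  ⟨fun y hy => absurd hy (not_mem_emp y), fun y hy => absurd hy (not_mem_emp y)⟩

theorem Ord_suc {a : M} (ha : Ord a) : Ord (suc a) := by
  refine ⟨fun y hy z hz => ?_, fun y hy => ?_⟩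
  · rw [mem_suc] at hy ⊢
    rcases hy with hy | rfl
    · exact Or.inl (ha.1 y hy z hz)
    · exact Or.inl hz
  · rw [mem_suc] at hy
    rcases hy with hy | rfl
    · exact ha.2 y hy
    · exact ha.1

/-- ordinals are comparable -/
theorem Ord.tri {a b : M} (ha : Ord a) (hb : Ord b) : E a b ∨ a = b ∨ E b a := by
  by_contra hcon
  obtain ⟨a, ⟨ha, b0, hb0, h0⟩, hmin⟩ := mem_min
    (C := fun a : M => Ord a ∧ ∃ b : M, Ord b ∧ ¬ (E a b ∨ a = b ∨ E b a)) inferInstance
    ⟨a, ha, b, hb, hcon⟩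
  obtain ⟨b, ⟨hb, h⟩, hminb⟩ := mem_min
    (C := fun b : M => Ord b ∧ ¬ (E a b ∨ a = b ∨ E b a)) inferInstance ⟨b0, hb0, h0⟩
  apply h
  right; left
  refine ext fun x => ⟨fun hx => ?_, fun hx => ?_⟩
  · have h1 : E x b ∨ x = b ∨ E b x := by
      by_contra h2
      exact hmin x hx ⟨ha.mem hx, b, hb, h2⟩
    rcases h1 with h1 | rfl | h1
    · exact h1
    · exact absurd (Or.inr (Or.inr hx)) h
    · exact absurd (Or.inr (Or.inr (ha.trans hx h1))) h
  · have h1 : E a x ∨ a = x ∨ E x a := by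
      by_contra h2
      exact hminb x hx ⟨hb.mem hx, h2⟩
    rcases h1 with h1 | rfl | h1
    · exact absurd (Or.inl (hb.trans hx h1)) h
    · exact absurd (Or.inl hx) h
    · exact h1

omit [ZF M] in
theorem Ord.sub_of_mem {a b : M} (hb : Ord b) (h : E a b) : Sub a b := hb.1 a h

theorem Ord.sub_iff {a b : M} (ha : Ord a) (hb : Ord b) : Sub a b ↔ E a b ∨ a = b := by
  constructor
  · intro h
    rcases ha.tri hb with h1 | h1 | h1
    · exact Or.inl h1
    · exact Or.inr h1
    · exact absurd (h b h1) (not_mem_self b)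
  · rintro (h | rfl)
    · exact hb.sub_of_mem h
    · exact Sub.refl a

theorem Ord.not_mem_iff {a b : M} (ha : Ord a) (hb : Ord b) : ¬ E a b ↔ Sub b a := by
  rw [hb.sub_iff ha]
  constructor
  · intro h
    rcases ha.tri hb with h1 | h1 | h1
    · exact absurd h1 h
    · exact Or.inr h1.symm
    · exact Or.inl h1
  · rintro (h | rfl) h'
    · exact not_mem_cycle h h'
    · exact not_mem_self _ h'

/-- an ordinal is at most `b` iff it is a member of the successor -/
theorem Ord.suc_sub {a b : M} (ha : Ord a) (hb : Ord b) (h : E a b) : Sub (suc a) b := by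
  intro x hx
  rw [mem_suc] at hx
  rcases hx with hx | rfl
  · exact hb.trans h hx
  · exact h

/-- least ordinal with a property -/
theorem ord_min {C : M → Prop} (hC : Cl C) {a : M} (ha : Ord a) (h : C a) :
    ∃ b, Ord b ∧ C b ∧ (∀ c, E c b → ¬ C c) ∧ (E b a ∨ b = a) := by
  obtain ⟨b, ⟨hb, h1⟩, h2⟩ := mem_min (C := fun b => Ord b ∧ C b) inferInstance ⟨a, ha, h⟩
  refine ⟨b, hb, h1, fun c hc hcc => h2 c hc ⟨hb.mem hc, hcc⟩, ?_⟩
  rcases ha.tri hb with h3 | h3 | h3
  · exact absurd ⟨ha, h⟩ (h2 a h3)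
  · exact Or.inr h3.symm
  · exact Or.inl h3

theorem Ord_sUn {x : M} (h : ∀ y, E y x → Ord y) : Ord (sUn x) := by
  refine ⟨fun y hy z hz => ?_, fun y hy => ?_⟩
  · rw [mem_sUn] at hy ⊢
    obtain ⟨w, hw, hy⟩ := hy
    exact ⟨w, hw, (h w hw).trans hy hz⟩
  · rw [mem_sUn] at hy
    obtain ⟨w, hw, hy⟩ := hy
    exact (h w hw).2 y hy

theorem sub_sUn {x y : M} (h : E y x) : Sub y (sUn x) := fun z hz => by
  rw [mem_sUn]; exact ⟨y, h, hz⟩

/-- there is an ordinal above a given set of ordinals -/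
theorem exists_ord_gt (x : M) : ∃ a, Ord a ∧ ∀ b, E b x → Ord b → E b a := by
  have h : ∀ y, E y (sep x (fun b => Ord b)) → Ord y := fun y hy => by
    rw [mem_sep] at hy; exact hy.2
  refine ⟨suc (sUn (sep x (fun b => Ord b))), Ord_suc (Ord_sUn h), fun b hb hbo => ?_⟩
  have h1 : Sub b (sUn (sep x (fun b => Ord b))) := sub_sUn (by rw [mem_sep]; exact ⟨hb, hbo⟩)
  rw [hbo.sub_iff (Ord_sUn h)] at h1
  rw [mem_suc]
  exact h1

/-- no set contains all ordinals -/
theorem exists_ord_not_mem (x : M) : ∃ a, Ord a ∧ ¬ E a x := by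
  obtain ⟨a, ha, h⟩ := exists_ord_gt x
  refine ⟨a, ha, fun hx => not_mem_self a (h a hx ha)⟩

theorem Ord_nat {n : M} (hn : E n om) : Ord n :=
  om_ind (C := fun n => Ord n) inferInstance Ord_emp (fun n _ h => Ord_suc h) n hn

theorem Ord_om : Ord (om : M) := ⟨Trans_om, fun y hy => om_trans_elt hy⟩

theorem emp_mem_ord {a : M} (ha : Ord a) (h : a ≠ emp) : E emp a := by
  rcases Ord_emp.tri ha with h1 | h1 | h1
  · exact h1
  · exact absurd h1.symm h
  · exact absurd h1 (not_mem_emp a)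

theorem nat_suc_mem {n m : M} (hn : E n om) (hm : E m n) : E (suc m) n ∨ suc m = n := by
  have hn' := Ord_nat hn
  have hm' := Ord_suc (hn'.mem hm)
  exact (hm'.sub_iff hn').1 ((hn'.mem hm).suc_sub hn' hm)

theorem suc_mem_suc {n m : M} (hn : Ord n) (hm : Ord m) : E (suc n) (suc m) ↔ E n m := by
  constructor
  · intro h
    rw [mem_suc] at h
    rcases h with h | h
    · exact hm.trans h (by simp)
    · rw [← h]; simp
  · intro h
    rw [mem_suc]
    exact ((Ord_suc hn).sub_iff hm).1 (hn.suc_sub hm h)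

/-- a nonempty class of natural numbers below `k` has a maximum -/
theorem nat_max {C : M → Prop} (hC : Cl C) {k : M} (hk : E k om) (h : ∃ n, E n om ∧ C n)
    (hb : ∀ n, E n om → C n → Sub n k) :
    ∃ n, E n om ∧ C n ∧ ∀ m, E m om → C m → Sub m n := by
  revert h
  suffices h' : ∀ k, E k om → (∃ n, E n om ∧ C n) → (∀ n, E n om → C n → Sub n k) →
      ∃ n, E n om ∧ C n ∧ ∀ m, E m om → C m → Sub m n from fun h => h' k hk h hb
  refine om_ind (C := fun k : M => (∃ n : M, E n om ∧ C n) → (∀ n : M, E n om → C n → Sub n k) →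
      ∃ n : M, E n om ∧ C n ∧ ∀ m : M, E m om → C m → Sub m n) inferInstance ?_ ?_
  · rintro ⟨n, hn, hc⟩ hb
    refine ⟨n, hn, hc, fun m hm hcm => fun x hx => absurd (hb m hm hcm x hx) (not_mem_emp x)⟩
  · intro k hk ih hex hb
    by_cases h1 : C (suc k)
    · exact ⟨suc k, suc_mem_om hk, h1, hb⟩
    · refine ih hex fun n hn hc => ?_
      have h2 := hb n hn hc
      rw [(Ord_nat hn).sub_iff (Ord_suc (Ord_nat hk))] at h2
      rcases h2 with h2 | rfl
      · rw [mem_suc] at h2
        exact ((Ord_nat hn).sub_iff (Ord_nat hk)).2 h2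
      · exact absurd hc h1

end

end SW
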