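import Pool.Agent.H35.SW.GenExt
import Pool.Agent.H35.SW.Ord

/-!
The relations from which the switches are built, for an arbitrary structure.
`K` stands for the set of hereditarily finite sets.
-/

set_option linter.unusedVariables false
set_option synthInstance.maxSize 100000

namespace SW

section
variable {M : Type} [SetStr M]

/-- `((x, m), c) ∈ R` -/
def TripleIn (x m c R : M) : Prop := ∃ y, IsOP y x m ∧ PairIn y c R

/-- `Z` contains the empty set and is closed under `x, y ↦ x ∪ {y}` -/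
def HFClosed (Z : M) : Prop := (∃ e, (∀ w, ¬ E w e) ∧ E e Z) ∧
  ∀ x y, E x Z → E y Z → ∃ u, (∀ w, E w u ↔ E w x ∨ w = y) ∧ E u Z

/-- `K` is the set of hereditarily finite sets -/
def IsHF (K : M) : Prop := HFClosed K ∧ ∀ Z, HFClosed Z → ∀ x, E x K → E x Z

/-- there is a family of pairwise distinct subsets of `K`, indexed by `k` -/
def Inj (K k : M) : Prop :=
  ∃ F, ∀ a b, E a k → E b k → a ≠ b → ∃ m, E m K ∧ ¬ (PairIn a m F ↔ PairIn b m F)

/-- some function from a subset of `J × K` is onto `l` -/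
def Onto (K J l : M) : Prop := ∃ g,
  (∀ x m c c', E x J → E m K → TripleIn x m c g → TripleIn x m c' g → c = c') ∧
  ∀ c, E c l → ∃ x m, E x J ∧ E m K ∧ TripleIn x m c g

/-- some function from a subset of `K` is onto `l` -/
def Ctb (K l : M) : Prop := ∃ g,
  (∀ m c c', E m K → PairIn m c g → PairIn m c' g → c = c') ∧
  ∀ c, E c l → ∃ m, E m K ∧ PairIn m c g

/-- `a` is (as far as first coordinates in `K` matter) a function on a subset of `K` -/
def PFun (K a : M) : Prop := ∀ m c c', E m K → PairIn m c a → PairIn m c' a → c = c'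

/-- `J` is the set of those `b ∈ k` such that all values of the `b`-th function of `S` are among
the values of `a` -/
def IsJ (K k S a J : M) : Prop := ∀ b, E b J ↔ E b k ∧
  ∀ m c, E m K → TripleIn b m c S → ∃ m', E m' K ∧ PairIn m' c a

/-- `S` is a family of functions from subsets of `K` to `l`, indexed by `k`, such that for every
function `a` on a subset of `K` only few of them have their values among the values of `a` -/
def GoodS (K k l S : M) : Prop :=
  (∀ b m c, E b k → E m K → TripleIn b m c S → E c l) ∧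
  (∀ b m c c', E b k → E m K → TripleIn b m c S → TripleIn b m c' S → c = c') ∧
  ∀ a, PFun K a → ∀ J, IsJ K k S a J → ¬ Onto K J l

/-- there is such a family -/
def Good (K k l : M) : Prop := ∃ S, GoodS K k l S

/-- `k` is the least ordinal for which there is no such family -/
def IsH (K l k : M) : Prop := Ord k ∧ ¬ Good K k l ∧ ∀ k', E k' k → Good K k' l

/-- `k` is the least ordinal which does not inject into the power set of `K` -/
def IsR (K k : M) : Prop := Ord k ∧ ¬ Inj K k ∧ ∀ k', E k' k → Inj K k'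

/-- `l` is an uncountable ordinal closed under the function of `IsH` -/
def Bas (K l : M) : Prop := Ord l ∧ ¬ Ctb K l ∧ ∀ l', E l' l → ∃ k, E k l ∧ IsH K l' k

/-- `l` is reached from a closed ordinal in `j` steps -/
def Chain : ℕ → M → M → Prop
  | 0, K, l => Bas K l
  | j + 1, K, l => ∃ l', Chain j K l' ∧ IsH K l' l

end

/-- the sentence number `j`: the least ordinal not injecting into the power set of `K` is
reached from a closed ordinal in `j + 1` steps -/
def Psi (j : ℕ) (M : Type) [SetStr M] : Prop :=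
  ∃ K k : M, IsHF K ∧ IsR K k ∧ Chain (j + 1) K k

/-! uniform definability (instances) -/

theorem Ord_u : UDf (fun M _ (w : Fin 1 → M) => Ord (w 0)) := by
  unfold Ord Trans Sub; infer_instance

instance {n : ℕ} {t : ∀ (M : Type) [SetStr M], (Fin n → M) → M} [UV t] :
    UDf (fun M _ v => Ord (t M v)) :=
  Ord_u.comp1 (R := fun _ _ a => Ord a) t

theorem TripleIn_u : UDf (fun M _ (w : Fin 4 → M) => TripleIn (w 0) (w 1) (w 2) (w 3)) := by
  unfold TripleIn; infer_instance

instance {n : ℕ} {t s u x : ∀ (M : Type) [SetStr M], (Fin n → M) → M} [UV t] [UV s] [UV u] [UV x] :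
    UDf (fun M _ v => TripleIn (t M v) (s M v) (u M v) (x M v)) :=
  TripleIn_u.comp4 (R := fun _ _ a b c d => TripleIn a b c d) t s u x

instance {M : Type} [SetStr M] {n : ℕ} {t s u x : (Fin n → M) → M} [ht : DfT t] [hs : DfT s] [hu : DfT u] [hx : DfT x] :
    Df (fun v => TripleIn (t v) (s v) (u v) (x v)) :=
  (TripleIn_u.df M).comp4 (R := fun a b c d => TripleIn a b c d) ht hs hu hx

theorem HFClosed_u : UDf (fun M _ (w : Fin 1 → M) => HFClosed (w 0)) := by
  unfold HFClosed; infer_instance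

instance {n : ℕ} {t : ∀ (M : Type) [SetStr M], (Fin n → M) → M} [UV t] :
    UDf (fun M _ v => HFClosed (t M v)) :=
  HFClosed_u.comp1 (R := fun _ _ a => HFClosed a) t

instance {M : Type} [SetStr M] {n : ℕ} {t : (Fin n → M) → M} [ht : DfT t] :
    Df (fun v => HFClosed (t v)) :=
  (HFClosed_u.df M).comp1 (R := fun a => HFClosed a) ht

theorem IsHF_u : UDf (fun M _ (w : Fin 1 → M) => IsHF (w 0)) := by
  unfold IsHF; infer_instance

instance {n : ℕ} {t : ∀ (M : Type) [SetStr M], (Fin n → M) → M} [UV t] :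
    UDf (fun M _ v => IsHF (t M v)) :=
  IsHF_u.comp1 (R := fun _ _ a => IsHF a) t

instance {M : Type} [SetStr M] {n : ℕ} {t : (Fin n → M) → M} [ht : DfT t] :
    Df (fun v => IsHF (t v)) :=
  (IsHF_u.df M).comp1 (R := fun a => IsHF a) ht

theorem Inj_u : UDf (fun M _ (w : Fin 2 → M) => Inj (w 0) (w 1)) := by
  unfold Inj; infer_instance

instance {n : ℕ} {t s : ∀ (M : Type) [SetStr M], (Fin n → M) → M} [UV t] [UV s] :
    UDf (fun M _ v => Inj (t M v) (s M v)) :=
  Inj_u.comp2 (R := fun _ _ a b => Inj a b) t s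

instance {M : Type} [SetStr M] {n : ℕ} {t s : (Fin n → M) → M} [ht : DfT t] [hs : DfT s] :
    Df (fun v => Inj (t v) (s v)) :=
  (Inj_u.df M).comp2 (R := fun a b => Inj a b) ht hs

theorem Onto_u : UDf (fun M _ (w : Fin 3 → M) => Onto (w 0) (w 1) (w 2)) := by
  unfold Onto; infer_instance

instance {n : ℕ} {t s u : ∀ (M : Type) [SetStr M], (Fin n → M) → M} [UV t] [UV s] [UV u] :
    UDf (fun M _ v => Onto (t M v) (s M v) (u M v)) :=
  Onto_u.comp3 (R := fun _ _ a b c => Onto a b c) t s u

instance {M : Type} [SetStr M] {n : ℕ} {t s u : (Fin n → M) → M} [ht : DfT t] [hs : DfT s] [hu : DfT u] :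
    Df (fun v => Onto (t v) (s v) (u v)) :=
  (Onto_u.df M).comp3 (R := fun a b c => Onto a b c) ht hs hu

theorem Ctb_u : UDf (fun M _ (w : Fin 2 → M) => Ctb (w 0) (w 1)) := by
  unfold Ctb; infer_instance

instance {n : ℕ} {t s : ∀ (M : Type) [SetStr M], (Fin n → M) → M} [UV t] [UV s] :
    UDf (fun M _ v => Ctb (t M v) (s M v)) :=
  Ctb_u.comp2 (R := fun _ _ a b => Ctb a b) t s

instance {M : Type} [SetStr M] {n : ℕ} {t s : (Fin n → M) → M} [ht : DfT t] [hs : DfT s] :
    Df (fun v => Ctb (t v) (s v)) :=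
  (Ctb_u.df M).comp2 (R := fun a b => Ctb a b) ht hs

theorem PFun_u : UDf (fun M _ (w : Fin 2 → M) => PFun (w 0) (w 1)) := by
  unfold PFun; infer_instance

instance {n : ℕ} {t s : ∀ (M : Type) [SetStr M], (Fin n → M) → M} [UV t] [UV s] :
    UDf (fun M _ v => PFun (t M v) (s M v)) :=
  PFun_u.comp2 (R := fun _ _ a b => PFun a b) t s

instance {M : Type} [SetStr M] {n : ℕ} {t s : (Fin n → M) → M} [ht : DfT t] [hs : DfT s] :
    Df (fun v => PFun (t v) (s v)) :=
  (PFun_u.df M).comp2 (R := fun a b => PFun a b) ht hs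

theorem IsJ_u : UDf (fun M _ (w : Fin 5 → M) => IsJ (w 0) (w 1) (w 2) (w 3) (w 4)) := by
  unfold IsJ; infer_instance

theorem GoodS_u : UDf (fun M _ (w : Fin 4 → M) => GoodS (w 0) (w 1) (w 2) (w 3)) := by
  unfold GoodS IsJ; infer_instance

instance {n : ℕ} {t s u x : ∀ (M : Type) [SetStr M], (Fin n → M) → M} [UV t] [UV s] [UV u] [UV x] :
    UDf (fun M _ v => GoodS (t M v) (s M v) (u M v) (x M v)) :=
  GoodS_u.comp4 (R := fun _ _ a b c d => GoodS a b c d) t s u x

instance {M : Type} [SetStr M] {n : ℕ} {t s u x : (Fin n → M) → M} [ht : DfT t] [hs : DfT s]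
    [hu : DfT u] [hx : DfT x] : Df (fun v => GoodS (t v) (s v) (u v) (x v)) :=
  (GoodS_u.df M).comp4 (R := fun a b c d => GoodS a b c d) ht hs hu hx

theorem Good_u : UDf (fun M _ (w : Fin 3 → M) => Good (w 0) (w 1) (w 2)) := by
  unfold Good; infer_instance

instance {n : ℕ} {t s u : ∀ (M : Type) [SetStr M], (Fin n → M) → M} [UV t] [UV s] [UV u] :
    UDf (fun M _ v => Good (t M v) (s M v) (u M v)) :=
  Good_u.comp3 (R := fun _ _ a b c => Good a b c) t s u

instance {M : Type} [SetStr M] {n : ℕ} {t s u : (Fin n → M) → M} [ht : DfT t] [hs : DfT s] [hu : DfT u] :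
    Df (fun v => Good (t v) (s v) (u v)) :=
  (Good_u.df M).comp3 (R := fun a b c => Good a b c) ht hs hu

theorem IsH_u : UDf (fun M _ (w : Fin 3 → M) => IsH (w 0) (w 1) (w 2)) := by
  unfold IsH; infer_instance

instance {n : ℕ} {t s u : ∀ (M : Type) [SetStr M], (Fin n → M) → M} [UV t] [UV s] [UV u] :
    UDf (fun M _ v => IsH (t M v) (s M v) (u M v)) :=
  IsH_u.comp3 (R := fun _ _ a b c => IsH a b c) t s u

instance {M : Type} [SetStr M] {n : ℕ} {t s u : (Fin n → M) → M} [ht : DfT t] [hs : DfT s] [hu : DfT u] :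
    Df (fun v => IsH (t v) (s v) (u v)) :=
  (IsH_u.df M).comp3 (R := fun a b c => IsH a b c) ht hs hu

theorem IsR_u : UDf (fun M _ (w : Fin 2 → M) => IsR (w 0) (w 1)) := by
  unfold IsR; infer_instance

instance {n : ℕ} {t s : ∀ (M : Type) [SetStr M], (Fin n → M) → M} [UV t] [UV s] :
    UDf (fun M _ v => IsR (t M v) (s M v)) :=
  IsR_u.comp2 (R := fun _ _ a b => IsR a b) t s

instance {M : Type} [SetStr M] {n : ℕ} {t s : (Fin n → M) → M} [ht : DfT t] [hs : DfT s] :
    Df (fun v => IsR (t v) (s v)) :=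
  (IsR_u.df M).comp2 (R := fun a b => IsR a b) ht hs

theorem Bas_u : UDf (fun M _ (w : Fin 2 → M) => Bas (w 0) (w 1)) := by
  unfold Bas; infer_instance

instance {n : ℕ} {t s : ∀ (M : Type) [SetStr M], (Fin n → M) → M} [UV t] [UV s] :
    UDf (fun M _ v => Bas (t M v) (s M v)) :=
  Bas_u.comp2 (R := fun _ _ a b => Bas a b) t s

instance {M : Type} [SetStr M] {n : ℕ} {t s : (Fin n → M) → M} [ht : DfT t] [hs : DfT s] :
    Df (fun v => Bas (t v) (s v)) :=
  (Bas_u.df M).comp2 (R := fun a b => Bas a b) ht hs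

theorem Chain_u (j : ℕ) : UDf (fun M _ (w : Fin 2 → M) => Chain j (w 0) (w 1)) := by
  induction j with
  | zero =>
    simp only [Chain]
    infer_instance
  | succ j ih =>
    simp only [Chain]
    have _ : ∀ {n : ℕ} {t s : ∀ (M : Type) [SetStr M], (Fin n → M) → M} [UV t] [UV s],
        UDf (fun M _ v => Chain j (t M v) (s M v)) := fun {n} {t s} _ _ =>
      ih.comp2 (R := fun _ _ a b => Chain j a b) t s
    infer_instance

instance (j : ℕ) {n : ℕ} {t s : ∀ (M : Type) [SetStr M], (Fin n → M) → M} [UV t] [UV s] :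
    UDf (fun M _ v => Chain j (t M v) (s M v)) :=
  (Chain_u j).comp2 (R := fun _ _ a b => Chain j a b) t s

instance (j : ℕ) {M : Type} [SetStr M] {n : ℕ} {t s : (Fin n → M) → M} [ht : DfT t]
    [hs : DfT s] : Df (fun v => Chain j (t v) (s v)) :=
  ((Chain_u j).df M).comp2 (R := fun a b => Chain j a b) ht hs

theorem Psi_u (j : ℕ) : UDf (fun M _ (_ : Fin 0 → M) => Psi j M) := by
  unfold Psi; infer_instance

end SW
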