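import Mathlib.Data.Fin.Tuple.Basic
import Pool.Agent.H35.SW.Core
import Mathlib.Data.Set.Basic
import Mathlib.Logic.ExistsUnique
import Mathlib.Tactic

/-!
An automatic treatment (by instances) of predicates which are first order definable with
parameters.
-/

namespace SW

/-- Renaming of variables. -/
def Fml.ren : {n k : ℕ} → Fml n → (Fin n → Fin k) → Fml k
  | _, _, .mem i j, r => .mem (r i) (r j)
  | _, _, .eq i j, r => .eq (r i) (r j)
  | _, _, .bot, _ => .bot
  | _, _, .imp f g, r => .imp (f.ren r) (g.ren r)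
  | _, _, .all f, r => .all (f.ren (Fin.cons 0 (fun i => (r i).succ)))

theorem Sat_ren {M : Type} [SetStr M] : ∀ {n k : ℕ} (f : Fml n) (r : Fin n → Fin k)
    (v : Fin k → M), Sat (f.ren r) v ↔ Sat f (fun i => v (r i))
  | _, _, .mem i j, r, v => Iff.rfl
  | _, _, .eq i j, r, v => Iff.rfl
  | _, _, .bot, r, v => Iff.rfl
  | _, _, .imp f g, r, v => by
      simp only [Fml.ren, Sat]
      rw [Sat_ren f, Sat_ren g]
  | _, _, .all f, r, v => by
      simp only [Fml.ren, Sat]
      refine forall_congr' fun x => ?_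
      rw [Sat_ren f]
      have : (fun i => (Fin.cons x v : Fin _ → M) ((Fin.cons 0 (fun i => (r i).succ) : Fin _ → Fin _) i))
          = (Fin.cons x (fun i => v (r i)) : Fin _ → M) := by
        funext i
        refine Fin.cases ?_ (fun j => ?_) i
        · simp
        · simp
      rw [this]

section Def

variable {M : Type} [SetStr M]

/-- `Df P`: the predicate `P` of `n` variables is first order definable with parameters. -/
class Df {n : ℕ} (P : (Fin n → M) → Prop) : Prop where
  out : ∃ (m : ℕ) (f : Fml m) (c : Fin m → Fin n ⊕ M),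
    ∀ v, P v ↔ Sat f (fun i => Sum.elim v id (c i))

/-- `DfT t`: the function `t` of `n` variables is first order definable with parameters. -/
class DfT {n : ℕ} (t : (Fin n → M) → M) : Prop where
  out : Df (fun w : Fin (n + 1) → M => w 0 = t (fun i => w i.succ))

theorem Df.congr {n : ℕ} {P Q : (Fin n → M) → Prop} (h : Df P) (e : ∀ v, Q v ↔ P v) : Df Q := by
  obtain ⟨m, f, c, hc⟩ := h.out
  exact ⟨m, f, c, fun v => (e v).trans (hc v)⟩

/-- substitution of variables -/
theorem Df.ren {n k : ℕ} {P : (Fin n → M) → Prop} (h : Df P) (r : Fin n → Fin k) :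
    Df (fun w : Fin k → M => P (fun i => w (r i))) := by
  obtain ⟨m, f, c, hc⟩ := h.out
  refine ⟨m, f, fun i => Sum.map r id (c i), fun v => ?_⟩
  rw [hc]
  have : (fun i => Sum.elim (fun i => v (r i)) id (c i))
      = (fun i => Sum.elim v id (Sum.map r id (c i))) := by
    funext i
    cases c i <;> rfl
  rw [this]

theorem Df.all' {n : ℕ} {P : (Fin (n + 1) → M) → Prop} (h : Df P) :
    Df (fun v : Fin n → M => ∀ x : M, P (Fin.cons x v)) := by
  obtain ⟨m, f, c, hc⟩ := h.out
  -- new formula: variables `0` (bound) and `i.succ` for the old index `i`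
  classical
  let r : Fin m → Fin (m + 1) := fun i =>
    Sum.elim (fun j => if j = 0 then 0 else i.succ) (fun _ => i.succ) (c i)
  by_cases hn : Nonempty M
  swap
  · refine ⟨0, .all .bot, Fin.elim0, fun v => ?_⟩
    constructor
    · intro _ x
      exact hn ⟨x⟩
    · intro _ x
      exact absurd ⟨x⟩ hn
  obtain ⟨d⟩ := hn
  let c' : Fin m → Fin n ⊕ M := fun i =>
    Sum.elim (Fin.cases (Sum.inr d) Sum.inl) Sum.inr (c i)
  refine ⟨m, .all (f.ren r), c', fun v => ?_⟩
  simp only [Sat]
  refine forall_congr' fun x => ?_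
  rw [hc, Sat_ren]
  have : (fun i => Sum.elim (Fin.cons x v : Fin (n + 1) → M) id (c i))
      = (fun i => (Fin.cons x (fun i => Sum.elim v id (c' i)) : Fin (m + 1) → M) (r i)) := by
    funext i
    have hc' : Sum.elim v id (c' i) = Sum.elim (Fin.cases d v) id (c i) := by
      simp only [c']
      generalize c i = z
      rcases z with j | a
      · refine Fin.cases ?_ (fun j' => ?_) j <;> simp
      · simp
    have hr : (Fin.cons x (fun i => Sum.elim v id (c' i)) : Fin (m + 1) → M) (r i)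
        = Sum.elim (fun j => if j = 0 then x else Sum.elim v id (c' i))
          (fun _ => Sum.elim v id (c' i)) (c i) := by
      suffices key : ∀ (z : Fin (n + 1) ⊕ M),
          (Fin.cons x (fun i => Sum.elim v id (c' i)) : Fin (m + 1) → M)
            (Sum.elim (fun j => if j = 0 then 0 else i.succ) (fun _ => i.succ) z)
          = Sum.elim (fun j => if j = 0 then x else Sum.elim v id (c' i))
            (fun _ => Sum.elim v id (c' i)) z from key (c i)
      intro z
      rcases z with j | a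
      · refine Fin.cases ?_ (fun j' => ?_) j
        · simp
        · simp [Fin.succ_ne_zero]
      · simp
    rw [hr, hc']
    generalize c i = z
    rcases z with j | a
    · refine Fin.cases ?_ (fun j' => ?_) j
      · simp
      · simp [Fin.succ_ne_zero]
    · simp
  rw [this]

instance Df.false {n : ℕ} : Df (fun _ : Fin n → M => False) :=
  ⟨0, .bot, Fin.elim0, fun _ => Iff.rfl⟩

instance Df.imp {n : ℕ} {P Q : (Fin n → M) → Prop} [hP : Df P] [hQ : Df Q] :
    Df (fun v => P v → Q v) := by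
  obtain ⟨m, f, c, hc⟩ := hP.out
  obtain ⟨m', f', c', hc'⟩ := hQ.out
  refine ⟨m + m', .imp (f.ren (Fin.castAdd m')) (f'.ren (Fin.natAdd m)),
    Fin.append c c', fun v => ?_⟩
  simp only [Sat]
  rw [Sat_ren, Sat_ren, hc, hc']
  simp only [Fin.append_left, Fin.append_right]

instance Df.true {n : ℕ} : Df (fun _ : Fin n → M => True) :=
  (inferInstance : Df (fun _ : Fin n → M => False → False)).congr (fun _ => by simp)

instance Df.not {n : ℕ} {P : (Fin n → M) → Prop} [hP : Df P] : Df (fun v => ¬ P v) :=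
  (inferInstance : Df (fun v => P v → False)).congr (fun _ => Iff.rfl)

instance Df.and {n : ℕ} {P Q : (Fin n → M) → Prop} [hP : Df P] [hQ : Df Q] :
    Df (fun v => P v ∧ Q v) :=
  (inferInstance : Df (fun v => ¬ (P v → ¬ Q v))).congr (fun _ => by tauto)

instance Df.or {n : ℕ} {P Q : (Fin n → M) → Prop} [hP : Df P] [hQ : Df Q] :
    Df (fun v => P v ∨ Q v) :=
  (inferInstance : Df (fun v => (¬ P v → Q v))).congr (fun _ => by tauto)

instance Df.iff {n : ℕ} {P Q : (Fin n → M) → Prop} [hP : Df P] [hQ : Df Q] :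
    Df (fun v => P v ↔ Q v) :=
  (inferInstance : Df (fun v => (P v → Q v) ∧ (Q v → P v))).congr (fun _ => by tauto)

instance Df.all {n : ℕ} {P : M → (Fin n → M) → Prop}
    [h : Df (fun w : Fin (n + 1) → M => P (w 0) (fun i => w i.succ))] :
    Df (fun v => ∀ x : M, P x v) := by
  refine (Df.all' h).congr fun v => ?_
  simp

instance Df.ex {n : ℕ} {P : M → (Fin n → M) → Prop}
    [h : Df (fun w : Fin (n + 1) → M => P (w 0) (fun i => w i.succ))] :
    Df (fun v => ∃ x : M, P x v) :=
  (inferInstance : Df (fun v => ¬ ∀ x : M, ¬ P x v)).congr (fun _ => by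
    simp only [not_forall, not_not])

/-- constant propositions -/
instance (priority := low) Df.const {n : ℕ} (p : Prop) : Df (fun _ : Fin n → M => p) := by
  by_cases hp : p
  · exact Df.true.congr fun _ => by simp [hp]
  · exact Df.false.congr fun _ => by simp [hp]

theorem Df.memv {n : ℕ} (i j : Fin n) : Df (fun v : Fin n → M => E (v i) (v j)) :=
  ⟨n, .mem i j, Sum.inl, fun _ => Iff.rfl⟩

theorem Df.eqv {n : ℕ} (i j : Fin n) : Df (fun v : Fin n → M => v i = v j) :=
  ⟨n, .eq i j, Sum.inl, fun _ => Iff.rfl⟩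

instance DfT.var {n : ℕ} (i : Fin n) : DfT (fun v : Fin n → M => v i) :=
  ⟨Df.eqv 0 i.succ⟩

instance DfT.const {n : ℕ} (a : M) : DfT (fun _ : Fin n → M => a) :=
  ⟨⟨2, .eq 0 1, ![Sum.inl 0, Sum.inr a], fun v => by simp [Sat]⟩⟩

theorem DfT.ren {n k : ℕ} {t : (Fin n → M) → M} (h : DfT t) (r : Fin n → Fin k) :
    DfT (fun w : Fin k → M => t (fun i => w (r i))) := by
  refine ⟨(h.out.ren (Fin.cons 0 (fun i => (r i).succ) : Fin (n + 1) → Fin (k + 1))).congr fun v => ?_⟩
  simp

/-- Substitution of definable functions into a definable predicate, one variable at a time. -/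
theorem Df.subst1 {n : ℕ} {P : (Fin (n + 1) → M) → Prop} (h : Df P) {t : (Fin n → M) → M}
    (ht : DfT t) : Df (fun v => P (Fin.cons (t v) v)) := by
  have _ : Df (fun w : Fin (n + 1) → M => w 0 = t (fun i => w i.succ)) := ht.out
  have _ : Df (fun w : Fin (n + 1) → M => P (Fin.cons (w 0) (fun i => w i.succ))) := by
    refine h.congr fun v => ?_
    have : (Fin.cons (v 0) (fun i => v i.succ) : Fin (n + 1) → M) = v := by
      funext i; refine Fin.cases ?_ (fun j => ?_) i <;> simp
    rw [this]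
  refine (inferInstance : Df (fun v => ∃ x : M, x = t v ∧ P (Fin.cons x v))).congr fun v => ?_
  simp

theorem Df.comp1 {R : M → Prop} (h : Df (fun w : Fin 1 → M => R (w 0))) {n : ℕ}
    {t : (Fin n → M) → M} (ht : DfT t) : Df (fun v => R (t v)) := by
  have h1 : Df (fun w : Fin (n + 1) → M => R (w 0)) := h.ren ![0]
  exact (h1.subst1 ht).congr fun v => by simp

theorem Df.comp2 {R : M → M → Prop} (h : Df (fun w : Fin 2 → M => R (w 0) (w 1))) {n : ℕ}
    {t s : (Fin n → M) → M} (ht : DfT t) (hs : DfT s) : Df (fun v => R (t v) (s v)) := by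
  have h1 : Df (fun w : Fin (n + 1 + 1) → M => R (w 0) (w 1)) := h.ren ![0, 1]
  have h2 := (h1.subst1 (ht.ren (fun i => i.succ)))
  have h3 := (h2.congr (Q := fun w : Fin (n + 1) → M => R (t (fun i => w i.succ)) (w 0))
    (fun v => by simp)).subst1 hs
  exact h3.congr fun v => by simp

theorem Df.comp3 {R : M → M → M → Prop} (h : Df (fun w : Fin 3 → M => R (w 0) (w 1) (w 2)))
    {n : ℕ} {t s u : (Fin n → M) → M} (ht : DfT t) (hs : DfT s) (hu : DfT u) :
    Df (fun v => R (t v) (s v) (u v)) := by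
  have h0 : Df (fun w : Fin (n + 1 + 1 + 1) → M => R (w 0) (w 1) (w 2)) := h.ren ![0, 1, 2]
  have h1 := (h0.subst1 (ht.ren (fun i => i.succ.succ)))
  have h2 := (h1.congr (Q := fun w : Fin (n + 1 + 1) → M =>
    R (t (fun i => w i.succ.succ)) (w 0) (w 1)) (fun v => by
      simp only [Fin.cons_zero]
      exact Iff.rfl)).subst1 (hs.ren (fun i => i.succ))
  have h3 := (h2.congr (Q := fun w : Fin (n + 1) → M =>
    R (t (fun i => w i.succ)) (s (fun i => w i.succ)) (w 0)) (fun v => by
      simp only [Fin.cons_zero, Fin.cons_succ]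
      exact Iff.rfl)).subst1 hu
  exact h3.congr fun v => by simp

theorem Df.comp4 {R : M → M → M → M → Prop}
    (h : Df (fun w : Fin 4 → M => R (w 0) (w 1) (w 2) (w 3)))
    {n : ℕ} {t s u x : (Fin n → M) → M} (ht : DfT t) (hs : DfT s) (hu : DfT u) (hx : DfT x) :
    Df (fun v => R (t v) (s v) (u v) (x v)) := by
  have h0 : Df (fun w : Fin (n + 1 + 1 + 1 + 1) → M => R (w 0) (w 1) (w 2) (w 3)) :=
    h.ren ![0, 1, 2, 3]
  have h1 := (h0.subst1 (ht.ren (fun i => i.succ.succ.succ)))
  have h2 := (h1.congr (Q := fun w : Fin (n + 1 + 1 + 1) → M =>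
    R (t (fun i => w i.succ.succ.succ)) (w 0) (w 1) (w 2)) (fun v => by
      simp only [Fin.cons_zero]
      exact Iff.rfl)).subst1 (hs.ren (fun i => i.succ.succ))
  have h3 := (h2.congr (Q := fun w : Fin (n + 1 + 1) → M =>
    R (t (fun i => w i.succ.succ)) (s (fun i => w i.succ.succ)) (w 0) (w 1)) (fun v => by
      simp only [Fin.cons_zero, Fin.cons_succ]
      exact Iff.rfl)).subst1 (hu.ren (fun i => i.succ))
  have h4 := (h3.congr (Q := fun w : Fin (n + 1) → M =>
    R (t (fun i => w i.succ)) (s (fun i => w i.succ)) (u (fun i => w i.succ)) (w 0)) (fun v => by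
      simp only [Fin.cons_zero, Fin.cons_succ]
      exact Iff.rfl)).subst1 hx
  exact h4.congr fun v => by simp

instance Df.mem {n : ℕ} {t s : (Fin n → M) → M} [ht : DfT t] [hs : DfT s] :
    Df (fun v => E (t v) (s v)) := (Df.memv 0 1).comp2 ht hs

instance Df.eq {n : ℕ} {t s : (Fin n → M) → M} [ht : DfT t] [hs : DfT s] :
    Df (fun v => t v = s v) := (Df.eqv 0 1).comp2 (R := fun a b => a = b) ht hs

instance (priority := 50) Df.lift {n k : ℕ} {t : (Fin n → M) → Prop} {r : Fin n → Fin k}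
    [h : Df t] : Df (fun w : Fin k → M => t (fun i => w (r i))) := h.ren r

instance (priority := 50) DfT.lift {n k : ℕ} {t : (Fin n → M) → M} {r : Fin n → Fin k}
    [h : DfT t] : DfT (fun w : Fin k → M => t (fun i => w (r i))) := h.ren r

instance (priority := 40) Df.app1 {R : M → Prop} [h : Df (fun w : Fin 1 → M => R (w 0))]
    {n : ℕ} {t : (Fin n → M) → M} [ht : DfT t] : Df (fun v => R (t v)) := Df.comp1 h ht

instance (priority := 40) Df.app2 {R : M → M → Prop}
    [h : Df (fun w : Fin 2 → M => R (w 0) (w 1))] {n : ℕ} {t s : (Fin n → M) → M} [ht : DfT t]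
    [hs : DfT s] : Df (fun v => R (t v) (s v)) := Df.comp2 h ht hs

instance (priority := 40) Df.app3 {R : M → M → M → Prop}
    [h : Df (fun w : Fin 3 → M => R (w 0) (w 1) (w 2))] {n : ℕ} {t s u : (Fin n → M) → M}
    [ht : DfT t] [hs : DfT s] [hu : DfT u] : Df (fun v => R (t v) (s v) (u v)) :=
  Df.comp3 h ht hs hu

theorem DfT.comp1 {f : M → M} (h : DfT (fun w : Fin 1 → M => f (w 0))) {n : ℕ}
    {t : (Fin n → M) → M} (ht : DfT t) : DfT (fun v => f (t v)) := by
  have h1 : Df (fun w : Fin 2 → M => w 0 = f (w 1)) := h.out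
  exact ⟨Df.comp2 (R := fun y x => y = f x) h1
    (inferInstance : DfT (fun w : Fin (n + 1) → M => w 0)) (ht.ren (fun i => i.succ))⟩

theorem DfT.comp2 {f : M → M → M} (h : DfT (fun w : Fin 2 → M => f (w 0) (w 1))) {n : ℕ}
    {t s : (Fin n → M) → M} (ht : DfT t) (hs : DfT s) : DfT (fun v => f (t v) (s v)) := by
  have h1 : Df (fun w : Fin 3 → M => w 0 = f (w 1) (w 2)) := h.out
  exact ⟨Df.comp3 (R := fun y x z => y = f x z) h1
    (inferInstance : DfT (fun w : Fin (n + 1) → M => w 0))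
    (ht.ren (fun i => i.succ)) (hs.ren (fun i => i.succ))⟩

theorem DfT.comp3 {f : M → M → M → M} (h : DfT (fun w : Fin 3 → M => f (w 0) (w 1) (w 2)))
    {n : ℕ} {t s u : (Fin n → M) → M} (ht : DfT t)
    (hs : DfT s) (hu : DfT u) : DfT (fun v => f (t v) (s v) (u v)) := by
  have h1 : Df (fun w : Fin 4 → M => w 0 = f (w 1) (w 2) (w 3)) := h.out
  exact ⟨Df.comp4 (R := fun y x z w => y = f x z w) h1
    (inferInstance : DfT (fun w : Fin (n + 1) → M => w 0))
    (ht.ren (fun i => i.succ)) (hs.ren (fun i => i.succ)) (hu.ren (fun i => i.succ))⟩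

instance (priority := 40) DfT.app1 {f : M → M} [h : DfT (fun w : Fin 1 → M => f (w 0))]
    {n : ℕ} {t : (Fin n → M) → M} [ht : DfT t] : DfT (fun v => f (t v)) := DfT.comp1 h ht

instance (priority := 40) DfT.app2 {f : M → M → M}
    [h : DfT (fun w : Fin 2 → M => f (w 0) (w 1))] {n : ℕ} {t s : (Fin n → M) → M} [ht : DfT t]
    [hs : DfT s] : DfT (fun v => f (t v) (s v)) := DfT.comp2 h ht hs

/-- substitution into a definable function with further variables -/
theorem DfT.comp1v {n : ℕ} {F : M → (Fin n → M) → M}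
    (h : DfT (fun w : Fin (n + 1) → M => F (w 0) (fun i => w i.succ))) {k : ℕ}
    {r : Fin n → Fin k} {t : (Fin k → M) → M} (ht : DfT t) :
    DfT (fun w : Fin k → M => F (t w) (fun i => w (r i))) := by
  have h1 : Df (fun w : Fin (k + 1 + 1) → M =>
      w (Fin.succ 0) = F (w 0) (fun i => w (r i).succ.succ)) :=
    (h.out.ren (Fin.cons (Fin.succ 0) (Fin.cons 0 (fun i => (r i).succ.succ)))).congr
      fun v => Iff.rfl
  have h2 := h1.subst1 (t := fun w : Fin (k + 1) → M => t (fun i => w i.succ)) (ht.ren _)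
  exact ⟨h2.congr fun v => by simp⟩

/-- substitution into a definable function with further variables -/
theorem DfT.comp2v {n : ℕ} {F : M → M → (Fin n → M) → M}
    (h : DfT (fun w : Fin (n + 2) → M => F (w 0) (w 1) (fun i => w i.succ.succ))) {k : ℕ}
    {r : Fin n → Fin k} {t s : (Fin k → M) → M} (ht : DfT t) (hs : DfT s) :
    DfT (fun w : Fin k → M => F (t w) (s w) (fun i => w (r i))) := by
  have h1 : Df (fun w : Fin (k + 1 + 1 + 1) → M =>
      w (Fin.succ (Fin.succ 0)) = F (w (Fin.succ 0)) (w 0) (fun i => w (r i).succ.succ.succ)) :=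
    (h.out.ren (Fin.cons (Fin.succ (Fin.succ 0)) (Fin.cons (Fin.succ 0)
      (Fin.cons 0 (fun i => (r i).succ.succ.succ))))).congr fun v => Iff.rfl
  have h2 := (h1.subst1 (t := fun w : Fin (k + 1 + 1) → M => s (fun i => w i.succ.succ))
    (hs.ren _)).congr (Q := fun w : Fin (k + 1 + 1) → M =>
      w (Fin.succ 0) = F (w 0) (s (fun i => w i.succ.succ)) (fun i => w (r i).succ.succ))
      (fun v => by simp only [Fin.cons_zero, Fin.cons_succ])
  have h3 := h2.subst1 (t := fun w : Fin (k + 1) → M => t (fun i => w i.succ)) (ht.ren _)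
  exact ⟨h3.congr fun v => by simp only [Fin.cons_zero, Fin.cons_succ]⟩

/-- substitution into a definable predicate with further variables -/
theorem Df.comp1v {n : ℕ} {F : M → (Fin n → M) → Prop}
    (h : Df (fun w : Fin (n + 1) → M => F (w 0) (fun i => w i.succ))) {k : ℕ}
    {r : Fin n → Fin k} {t : (Fin k → M) → M} (ht : DfT t) :
    Df (fun w : Fin k → M => F (t w) (fun i => w (r i))) := by
  have h1 : Df (fun w : Fin (k + 1) → M => F (w 0) (fun i => w (r i).succ)) :=
    (h.ren (Fin.cons 0 (fun i => (r i).succ))).congr fun v => Iff.rfl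
  have h2 := h1.subst1 (t := fun w : Fin k → M => t w) ht
  exact h2.congr fun v => by simp only [Fin.cons_zero, Fin.cons_succ]

/-- substitution into a definable predicate with further variables -/
theorem Df.comp2v {n : ℕ} {F : M → M → (Fin n → M) → Prop}
    (h : Df (fun w : Fin (n + 2) → M => F (w 0) (w 1) (fun i => w i.succ.succ))) {k : ℕ}
    {r : Fin n → Fin k} {t s : (Fin k → M) → M} (ht : DfT t) (hs : DfT s) :
    Df (fun w : Fin k → M => F (t w) (s w) (fun i => w (r i))) := by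
  have h1 : Df (fun w : Fin (k + 1 + 1) → M =>
      F (w (Fin.succ 0)) (w 0) (fun i => w (r i).succ.succ)) :=
    (h.ren (Fin.cons (Fin.succ 0) (Fin.cons 0 (fun i => (r i).succ.succ)))).congr
      fun v => Iff.rfl
  have h2 := (h1.subst1 (t := fun w : Fin (k + 1) → M => s (fun i => w i.succ))
    (hs.ren _)).congr (Q := fun w : Fin (k + 1) → M =>
      F (w 0) (s (fun i => w i.succ)) (fun i => w (r i).succ))
      (fun v => by simp only [Fin.cons_zero, Fin.cons_succ])
  have h3 := h2.subst1 (t := fun w : Fin k → M => t w) ht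
  exact h3.congr fun v => by simp only [Fin.cons_zero, Fin.cons_succ]

end Def

/-! ### Uniform definability (without parameters) -/

/-- `UDf Q`: the predicate `Q`, given for all structures, is expressed by one formula. -/
class UDf {n : ℕ} (Q : ∀ (M : Type) [SetStr M], (Fin n → M) → Prop) : Prop where
  out : ∃ f : Fml n, ∀ (M : Type) [SetStr M] (v : Fin n → M), Q M v ↔ Sat f v

/-- a variable, as a term -/
class UV {n : ℕ} (t : ∀ (M : Type) [SetStr M], (Fin n → M) → M) : Prop where
  out : ∃ i : Fin n, ∀ (M : Type) [SetStr M] (v : Fin n → M), t M v = v i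

instance UV.var {n : ℕ} (i : Fin n) : UV (fun M _ (v : Fin n → M) => v i) :=
  ⟨⟨i, fun _ _ _ => rfl⟩⟩

theorem UDf.congr {n : ℕ} {P Q : ∀ (M : Type) [SetStr M], (Fin n → M) → Prop} (h : UDf P)
    (e : ∀ (M : Type) [SetStr M] (v : Fin n → M), Q M v ↔ P M v) : UDf Q := by
  obtain ⟨f, hf⟩ := h.out
  exact ⟨f, fun M _ v => (e M v).trans (hf M v)⟩

theorem UDf.ren {n k : ℕ} {P : ∀ (M : Type) [SetStr M], (Fin n → M) → Prop} (h : UDf P)
    (r : Fin n → Fin k) : UDf (fun M _ (v : Fin k → M) => P M (fun i => v (r i))) := by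
  obtain ⟨f, hf⟩ := h.out
  exact ⟨f.ren r, fun M _ v => by rw [Sat_ren]; exact hf M _⟩

instance UDf.false {n : ℕ} : UDf (fun M _ (_ : Fin n → M) => False) :=
  ⟨.bot, fun _ _ _ => Iff.rfl⟩

instance UDf.imp {n : ℕ} {P Q : ∀ (M : Type) [SetStr M], (Fin n → M) → Prop} [hP : UDf P]
    [hQ : UDf Q] : UDf (fun M _ v => P M v → Q M v) := by
  obtain ⟨f, hf⟩ := hP.out
  obtain ⟨g, hg⟩ := hQ.out
  exact ⟨.imp f g, fun M _ v => by rw [hf M v, hg M v]; exact Iff.rfl⟩

instance UDf.true {n : ℕ} : UDf (fun M _ (_ : Fin n → M) => True) :=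
  (inferInstance : UDf (fun M _ (_ : Fin n → M) => False → False)).congr (fun _ => by simp)

instance UDf.not {n : ℕ} {P : ∀ (M : Type) [SetStr M], (Fin n → M) → Prop} [hP : UDf P] :
    UDf (fun M _ v => ¬ P M v) :=
  (inferInstance : UDf (fun M _ v => P M v → False)).congr (fun _ _ _ => Iff.rfl)

instance UDf.and {n : ℕ} {P Q : ∀ (M : Type) [SetStr M], (Fin n → M) → Prop} [hP : UDf P]
    [hQ : UDf Q] : UDf (fun M _ v => P M v ∧ Q M v) :=
  (inferInstance : UDf (fun M _ v => ¬ (P M v → ¬ Q M v))).congr (fun _ _ _ => by tauto)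

instance UDf.or {n : ℕ} {P Q : ∀ (M : Type) [SetStr M], (Fin n → M) → Prop} [hP : UDf P]
    [hQ : UDf Q] : UDf (fun M _ v => P M v ∨ Q M v) :=
  (inferInstance : UDf (fun M _ v => (¬ P M v → Q M v))).congr (fun _ _ _ => by tauto)

instance UDf.iff {n : ℕ} {P Q : ∀ (M : Type) [SetStr M], (Fin n → M) → Prop} [hP : UDf P]
    [hQ : UDf Q] : UDf (fun M _ v => P M v ↔ Q M v) :=
  (inferInstance : UDf (fun M _ v => (P M v → Q M v) ∧ (Q M v → P M v))).congr
    (fun _ _ _ => by tauto)

instance UDf.all {n : ℕ} {P : ∀ (M : Type) [SetStr M], M → (Fin n → M) → Prop}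
    [h : UDf (fun M _ (w : Fin (n + 1) → M) => P M (w 0) (fun i => w i.succ))] :
    UDf (fun M _ (v : Fin n → M) => ∀ x : M, P M x v) := by
  obtain ⟨f, hf⟩ := h.out
  refine ⟨.all f, fun M _ v => ?_⟩
  simp only [Sat]
  refine forall_congr' fun x => ?_
  rw [← hf M]
  simp

instance UDf.ex {n : ℕ} {P : ∀ (M : Type) [SetStr M], M → (Fin n → M) → Prop}
    [h : UDf (fun M _ (w : Fin (n + 1) → M) => P M (w 0) (fun i => w i.succ))] :
    UDf (fun M _ (v : Fin n → M) => ∃ x : M, P M x v) :=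
  (inferInstance : UDf (fun M _ v => ¬ ∀ x : M, ¬ P M x v)).congr (fun _ _ _ => by
    simp only [not_forall, not_not])

instance UDf.mem {n : ℕ} {t s : ∀ (M : Type) [SetStr M], (Fin n → M) → M} [ht : UV t]
    [hs : UV s] : UDf (fun M _ v => E (t M v) (s M v)) := by
  obtain ⟨i, hi⟩ := ht.out
  obtain ⟨j, hj⟩ := hs.out
  exact ⟨.mem i j, fun M _ v => by rw [hi M v, hj M v]; exact Iff.rfl⟩

instance UDf.eq {n : ℕ} {t s : ∀ (M : Type) [SetStr M], (Fin n → M) → M} [ht : UV t]
    [hs : UV s] : UDf (fun M _ v => t M v = s M v) := by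
  obtain ⟨i, hi⟩ := ht.out
  obtain ⟨j, hj⟩ := hs.out
  exact ⟨.eq i j, fun M _ v => by rw [hi M v, hj M v]; exact Iff.rfl⟩

theorem UDf.comp1 {R : ∀ (M : Type) [SetStr M], M → Prop}
    (h : UDf (fun M _ (w : Fin 1 → M) => R M (w 0))) {n : ℕ}
    (t : ∀ (M : Type) [SetStr M], (Fin n → M) → M) [ht : UV t] :
    UDf (fun M _ v => R M (t M v)) := by
  obtain ⟨i, hi⟩ := ht.out
  exact (h.ren ![i]).congr fun M _ v => by rw [hi M v]; exact Iff.rfl

theorem UDf.comp2 {R : ∀ (M : Type) [SetStr M], M → M → Prop}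
    (h : UDf (fun M _ (w : Fin 2 → M) => R M (w 0) (w 1))) {n : ℕ}
    (t s : ∀ (M : Type) [SetStr M], (Fin n → M) → M) [ht : UV t] [hs : UV s] :
    UDf (fun M _ v => R M (t M v) (s M v)) := by
  obtain ⟨i, hi⟩ := ht.out
  obtain ⟨j, hj⟩ := hs.out
  exact (h.ren ![i, j]).congr fun M _ v => by rw [hi M v, hj M v]; exact Iff.rfl

theorem UDf.comp3 {R : ∀ (M : Type) [SetStr M], M → M → M → Prop}
    (h : UDf (fun M _ (w : Fin 3 → M) => R M (w 0) (w 1) (w 2))) {n : ℕ}
    (t s u : ∀ (M : Type) [SetStr M], (Fin n → M) → M) [ht : UV t] [hs : UV s] [hu : UV u] :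
    UDf (fun M _ v => R M (t M v) (s M v) (u M v)) := by
  obtain ⟨i, hi⟩ := ht.out
  obtain ⟨j, hj⟩ := hs.out
  obtain ⟨k, hk⟩ := hu.out
  exact (h.ren ![i, j, k]).congr fun M _ v => by rw [hi M v, hj M v, hk M v]; exact Iff.rfl

theorem UDf.comp4 {R : ∀ (M : Type) [SetStr M], M → M → M → M → Prop}
    (h : UDf (fun M _ (w : Fin 4 → M) => R M (w 0) (w 1) (w 2) (w 3))) {n : ℕ}
    (t s u x : ∀ (M : Type) [SetStr M], (Fin n → M) → M) [ht : UV t] [hs : UV s] [hu : UV u]
    [hx : UV x] : UDf (fun M _ v => R M (t M v) (s M v) (u M v) (x M v)) := by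
  obtain ⟨i, hi⟩ := ht.out
  obtain ⟨j, hj⟩ := hs.out
  obtain ⟨k, hk⟩ := hu.out
  obtain ⟨l, hl⟩ := hx.out
  exact (h.ren ![i, j, k, l]).congr fun M _ v => by
    rw [hi M v, hj M v, hk M v, hl M v]; exact Iff.rfl

theorem UDf.df {n : ℕ} {P : ∀ (M : Type) [SetStr M], (Fin n → M) → Prop} (h : UDf P)
    (M : Type) [SetStr M] : Df (fun v : Fin n → M => P M v) := by
  obtain ⟨f, hf⟩ := h.out
  exact ⟨n, f, Sum.inl, fun v => hf M v⟩

end SW
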