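import Pool.Agent.H35.SW.Sets

/-!
The notion of a generic extension of a model of ZF, stated without names or forcing relation.
-/

namespace SW

theorem isOP_iff {M : Type} [SetStr M] [ZF M] {z a b : M} : IsOP z a b ↔ z = opair a b := by
  constructor
  · rintro ⟨s, t, hs, ht, hz⟩
    have e1 : s = sing a := ext fun w => by rw [hs, mem_sing]
    have e2 : t = upair a b := ext fun w => by rw [ht, mem_upair]
    subst e1
    subst e2
    exact ext fun w => by rw [hz, opair, mem_upair]
  · rintro rfl
    exact ⟨sing a, upair a b, fun w => mem_sing, fun w => mem_upair, fun w => by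
      rw [opair, mem_upair]⟩

theorem pairIn_iff {M : Type} [SetStr M] [ZF M] {a b R : M} :
    PairIn a b R ↔ E (opair a b) R := by
  constructor
  · rintro ⟨z, hz, h⟩
    rw [isOP_iff] at hz
    rwa [← hz]
  · intro h
    exact ⟨_, isOP_iff.2 rfl, h⟩

/-! uniform definability of these relations -/

theorem IsOP_u : UDf (fun M _ (w : Fin 3 → M) => IsOP (w 0) (w 1) (w 2)) := by
  unfold IsOP; infer_instance

instance {n : ℕ} {t s u : ∀ (M : Type) [SetStr M], (Fin n → M) → M} [UV t] [UV s] [UV u] :
    UDf (fun M _ v => IsOP (t M v) (s M v) (u M v)) :=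
  IsOP_u.comp3 (R := fun _ _ a b c => IsOP a b c) t s u

theorem PairIn_u : UDf (fun M _ (w : Fin 3 → M) => PairIn (w 0) (w 1) (w 2)) := by
  unfold PairIn; infer_instance

instance {n : ℕ} {t s u : ∀ (M : Type) [SetStr M], (Fin n → M) → M} [UV t] [UV s] [UV u] :
    UDf (fun M _ v => PairIn (t M v) (s M v) (u M v)) :=
  PairIn_u.comp3 (R := fun _ _ a b c => PairIn a b c) t s u

instance {M : Type} [SetStr M] {n : ℕ} {t s u : (Fin n → M) → M} [ht : DfT t] [hs : DfT s]
    [hu : DfT u] : Df (fun v => IsOP (t v) (s v) (u v)) :=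
  (IsOP_u.df M).comp3 (R := fun a b c => IsOP a b c) ht hs hu

instance {M : Type} [SetStr M] {n : ℕ} {t s u : (Fin n → M) → M} [ht : DfT t] [hs : DfT s]
    [hu : DfT u] : Df (fun v => PairIn (t v) (s v) (u v)) :=
  (PairIn_u.df M).comp3 (R := fun a b c => PairIn a b c) ht hs hu

end SW
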