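import Pool.Agent.H35.SW.FDefs
import Pool.Agent.H35.SW.GenExt

/-!
Statements of the modules about forcing.
-/

set_option linter.unusedVariables false
set_option synthInstance.maxSize 100000

namespace SW

variable {M : Type} [SetStr M] [ZF M] (F : FPoset M)

/-- EQ: facts about forced equality and membership -/
structure EqFacts : Prop where
  inP : ∀ {p a b}, EqF F p a b → E p F.P
  left : ∀ {q a b c s r}, EqF F q a b → E (opair c s) a → E s F.P → E r F.P → F.le r q →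
    F.le r s → ∃ r' d s', E r' F.P ∧ F.le r' r ∧ E (opair d s') b ∧ E s' F.P ∧ F.le r' s' ∧
      EqF F r' c d
  right : ∀ {q a b d s r}, EqF F q a b → E (opair d s) b → E s F.P → E r F.P → F.le r q →
    F.le r s → ∃ r' c s', E r' F.P ∧ F.le r' r ∧ E (opair c s') a ∧ E s' F.P ∧ F.le r' s' ∧
      EqF F r' c d
  coind : ∀ B : M → M → M → Prop, Cl3 B → (∀ q a b, B q a b → E q F.P ∧
    (∀ c s r, E (opair c s) a → E s F.P → E r F.P → F.le r q → F.le r s →
      ∃ r' d s', E r' F.P ∧ F.le r' r ∧ E (opair d s') b ∧ E s' F.P ∧ F.le r' s' ∧ B r' c d) ∧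
    (∀ d s r, E (opair d s) b → E s F.P → E r F.P → F.le r q → F.le r s →
      ∃ r' c s', E r' F.P ∧ F.le r' r ∧ E (opair c s') a ∧ E s' F.P ∧ F.le r' s' ∧ B r' c d)) →
    ∀ p a b, B p a b → EqF F p a b
  mono : ∀ {p q a b}, EqF F p a b → E q F.P → F.le q p → EqF F q a b
  refl : ∀ {p a}, E p F.P → EqF F p a a
  symm : ∀ {p a b}, EqF F p a b → EqF F p b a
  trans : ∀ {p a b c}, EqF F p a b → EqF F p b c → EqF F p a c
  dense : ∀ {p a b}, E p F.P → (∀ q, E q F.P → F.le q p → ∃ r, E r F.P ∧ F.le r q ∧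
    EqF F r a b) → EqF F p a b
  minP : ∀ {p a b}, MemF F p a b → E p F.P
  mmono : ∀ {p q a b}, MemF F p a b → E q F.P → F.le q p → MemF F q a b
  mdense : ∀ {p a b}, E p F.P → (∀ q, E q F.P → F.le q p → ∃ r, E r F.P ∧ F.le r q ∧
    MemF F r a b) → MemF F p a b
  mintro : ∀ {p s a b}, E (opair a s) b → E s F.P → E p F.P → F.le p s → MemF F p a b
  mcongl : ∀ {p a a' b}, EqF F p a a' → MemF F p a b → MemF F p a' b
  mcongr : ∀ {p a b b'}, EqF F p b b' → MemF F p a b → MemF F p a b'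

/-- GM: generic filters meet dense classes, also below a condition -/
structure GenFacts (G : M → Prop) : Prop where
  meetC : ∀ C : M → Prop, Cl C → (∀ p, E p F.P → ∃ q, E q F.P ∧ F.le q p ∧ C q) →
    ∃ p, G p ∧ C p
  meetB : ∀ C : M → Prop, Cl C → ∀ p0, G p0 →
    (∀ p, E p F.P → F.le p p0 → ∃ q, E q F.P ∧ F.le q p ∧ C q) → ∃ p, G p ∧ F.le p p0 ∧ C p

/-- QUO: equality and membership in the extension -/
structure ExtFacts (G : M → Prop) : Prop where
  eq_iff : ∀ a b, mk F G a = mk F G b ↔ ∃ p, G p ∧ EqF F p a b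
  mem_iff : ∀ a b, E (mk F G a) (mk F G b) ↔ ∃ p, G p ∧ MemF F p a b
  mem_iff' : ∀ x b, E x (mk F G b) ↔ ∃ d s, E (opair d s) b ∧ G s ∧ x = mk F G d

/-- TRU: definability of the forcing relation and the truth lemma -/
structure FrcFacts : Prop where
  df : ∀ {n : ℕ} (f : Fml n), Df (fun w : Fin (n + 1) → M => Frc F f (w 0) (fun i => w i.succ))
  mono : ∀ {n : ℕ} (f : Fml n) {p q v}, E p F.P → E q F.P → F.le q p → Frc F f p v →
    Frc F f q v
  dense : ∀ {n : ℕ} (f : Fml n) {p v}, E p F.P →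
    (∀ q, E q F.P → F.le q p → ∃ r, E r F.P ∧ F.le r q ∧ Frc F f r v) → Frc F f p v
  truth : ∀ G, Gen F G → ∀ {n : ℕ} (f : Fml n) (v : Fin n → M),
    Sat f (fun i => mk F G (v i)) ↔ ∃ p, G p ∧ Frc F f p v

/-- COLL: the collection scheme -/
def CollStmt (M : Type) [SetStr M] [ZF M] : Prop := ∀ R : M → M → Prop, Cl2 R → ∀ a,
  (∀ x, E x a → ∃ y, R x y) → ∃ b, ∀ x, E x a → ∃ y, E y b ∧ R x y

/-- EMB: the embedding of `M` and the generic filter as an element of the extension -/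
structure EmbFacts (G : M → Prop) : Prop where
  mem : ∀ x y, E (emb F G x) (emb F G y) ↔ E x y
  inj : ∀ x y, emb F G x = emb F G y ↔ x = y
  trans : ∀ z y, E z (emb F G y) → ∃ x, E x y ∧ z = emb F G x
  G_mem : ∀ z, E z (mk F G (Gnm F)) ↔ ∃ p, G p ∧ z = emb F G p

/-- SEM: properties of semantic forcing (for countable models) -/
structure FSFacts : Prop where
  ex : ∀ p, E p F.P → ∃ G, Gen F G ∧ G p
  df : ∀ {n : ℕ} (Q : ∀ (N : Type) [SetStr N], (Fin n → N) → Prop) [UDf Q],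
    Df (fun w : Fin (n + 1) → M => FS F Q (w 0) (fun i => w i.succ))
  truth : ∀ {n : ℕ} (Q : ∀ (N : Type) [SetStr N], (Fin n → N) → Prop) [UDf Q] (G), Gen F G →
    ∀ v : Fin n → M, Q (Ext F G) (fun i => mk F G (v i)) ↔ ∃ p, G p ∧ FS F Q p v
  dense : ∀ {n : ℕ} (Q : ∀ (N : Type) [SetStr N], (Fin n → N) → Prop) [UDf Q] {p : M}
    {v : Fin n → M}, E p F.P →
    (∀ q, E q F.P → F.le q p → ∃ r, E r F.P ∧ F.le r q ∧ FS F Q r v) → FS F Q p v

/-! ### the module statements -/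

/-- EQ -/
def EQStmt : Prop := ∀ (M : Type) [SetStr M] [ZF M] (F : FPoset M), EqFacts F

/-- GM -/
def GMStmt : Prop := ∀ (M : Type) [SetStr M] [ZF M] (F : FPoset M) (G : M → Prop), Gen F G →
  GenFacts F G

/-- QUO -/
def QUOStmt : Prop := ∀ (M : Type) [SetStr M] [ZF M] (F : FPoset M) (G : M → Prop), Gen F G →
  ExtFacts F G

/-- TRU -/
def TRUStmt : Prop := ∀ (M : Type) [SetStr M] [ZF M] (F : FPoset M), FrcFacts F

/-- COLL -/
def COLLStmt : Prop := ∀ (M : Type) [SetStr M] [ZF M], CollStmt M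

/-- ZFA: the simple axioms in the extension -/
def ZFAStmt : Prop := ∀ (M : Type) [SetStr M] [ZF M] (F : FPoset M) (G : M → Prop), Gen F G →
  (∀ x y : Ext F G, (∀ z, E z x ↔ E z y) → x = y) ∧
  (∀ x : Ext F G, (∃ y, E y x) → ∃ y, E y x ∧ ∀ z, E z x → ¬ E z y) ∧
  (∀ x y : Ext F G, ∃ z, ∀ w, E w z ↔ w = x ∨ w = y) ∧
  (∀ x : Ext F G, ∃ u, ∀ w, E w u ↔ ∃ y, E y x ∧ E w y) ∧
  (∃ x : Ext F G, (∃ e, E e x ∧ ∀ z, ¬ E z e) ∧
    ∀ y, E y x → ∃ s, E s x ∧ ∀ w, E w s ↔ E w y ∨ w = y)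

/-- ZFB: separation, power set, replacement in the extension -/
def ZFBStmt : Prop := ∀ (M : Type) [SetStr M] [ZF M] (F : FPoset M) (G : M → Prop), Gen F G →
  (∀ (n : ℕ) (f : Fml (n + 1)) (v : Fin n → Ext F G) (a : Ext F G),
    ∃ b, ∀ x, E x b ↔ E x a ∧ Sat f (Fin.cons x v)) ∧
  (∀ x : Ext F G, ∃ p, ∀ w, E w p ↔ ∀ z, E z w → E z x) ∧
  (∀ (n : ℕ) (f : Fml (n + 2)) (v : Fin n → Ext F G) (a : Ext F G),
    (∀ x, E x a → ∃! y, Sat f (Fin.cons x (Fin.cons y v))) →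
      ∃ b, ∀ y, E y b ↔ ∃ x, E x a ∧ Sat f (Fin.cons x (Fin.cons y v)))

/-- EMB -/
def EMBStmt : Prop := ∀ (M : Type) [SetStr M] [ZF M] (F : FPoset M) (G : M → Prop), Gen F G →
  EmbFacts F G

/-- SEM -/
def SEMStmt : Prop := ∀ (M : Type) [SetStr M] [ZF M] [Countable M] (F : FPoset M), FSFacts F

/-- VAL: the extension is a generic extension in the abstract sense. `P`, `one` are those of `F`
and `le` is the set of pairs `(p,q)` in `P` with `F.le p q`. -/
def VALStmt : Prop := ∀ (M : Type) [SetStr M] [ZF M] [Countable M] (F : FPoset M)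
  (G : M → Prop), Gen F G → ZF (Ext F G) → IsGenExt (emb F G)

/-- CNT: a generic extension of a countable model of ZF is countable -/
def CNTStmt : Prop := ∀ (M N : Type) [SetStr M] [ZF M] [SetStr N] [ZF N] [Countable M]
  (i : M → N), IsGenExt i → Countable N

end SW
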