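import Pool.Agent.H35.SW.FinDefs
import Pool.Agent.H35.SW.FStmts

/-!
The Cohen poset adding `θ` subsets of `K`, and the statements of the modules about it.
-/

set_option linter.unusedVariables false
set_option synthInstance.maxSize 100000

namespace SW

section
variable {M : Type} [SetStr M] [ZF M]

/-- the two values `0 = ∅` and `1 = {∅}` -/
noncomputable def two : M := upair emp (sing emp)

/-- conditions: finite partial functions from `θ × K` to `2` -/
noncomputable def cohP (K θ : M) : M := sep (pow (prod (prod θ K) two))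
  (fun q => Fnt q ∧ ∀ x i j, E (opair x i) q → E (opair x j) q → i = j)

theorem mem_cohP {K θ q : M} : E q (cohP K θ) ↔ Sub q (prod (prod θ K) two) ∧ Fnt q ∧
    ∀ x i j, E (opair x i) q → E (opair x j) q → i = j := by
  unfold cohP
  rw [mem_sep, mem_pow]

theorem cohP_df : Fn2 (fun a b : M => cohP a b) := by unfold cohP; infer_instance

instance {n : ℕ} {t s : (Fin n → M) → M} [ht : DfT t] [hs : DfT s] :
    DfT (fun v => cohP (t v) (s v)) := cohP_df.comp2 ht hs

/-- the Cohen poset -/
noncomputable def Coh (hf : FinFacts M) (K θ : M) : FPoset M where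
  P := cohP K θ
  le := fun p q => Sub q p
  one := emp
  le_df := inferInstance
  one_mem := by
    rw [mem_cohP]
    exact ⟨fun z hz => absurd hz (not_mem_emp z), hf.emp,
      fun x i j h => absurd h (not_mem_emp _)⟩
  refl := fun p _ => Sub.refl p
  trans := fun p q r _ _ _ h h' => h'.trans h
  le_one := fun p _ z hz => absurd hz (not_mem_emp z)

/-- compatibility of conditions -/
def Cmp (K θ p q : M) : Prop := ∃ r, E r (cohP K θ) ∧ Sub p r ∧ Sub q r

end

/-- ROOT: a set `T` of conditions of the same size which is not finite has a root `r`: the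
members of `T` above `r` are infinitely many, and all but finitely many of them are compatible
with any given condition containing `r`. -/
def ROOTStmt : Prop := ∀ (M : Type) [SetStr M] [ZF M] (K θ T p k : M), E k om →
  (∀ q, E q T → E q (cohP K θ) ∧ Sub p q ∧ card q = k) → ¬ Fnt T →
  ∃ r, E r (cohP K θ) ∧ Sub p r ∧ ¬ Fnt (sep T (fun q => Sub r q)) ∧
    ∀ q', E q' (cohP K θ) → Sub r q' → Fnt (sep T (fun q => Sub r q ∧ ¬ Cmp K θ q q'))

/-- MINI: every condition in a class of conditions contains a minimal one -/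
def MINIStmt : Prop := ∀ (M : Type) [SetStr M] [ZF M] (C : M → Prop), Cl C → ∀ q, Fnt q → C q →
  ∃ q', Sub q' q ∧ C q' ∧ ∀ q'', Sub q'' q' → C q'' → q'' = q'

/-- REG: the minimal elements of a regular class of conditions above `p` come in finitely many
for each size -/
def REGStmt : Prop := ∀ (M : Type) [SetStr M] [ZF M] (K θ p k : M), E k om →
  ∀ C : M → Prop, Cl C → (∀ q, C q → E q (cohP K θ) ∧ Sub p q) →
    (∀ q q', C q → E q' (cohP K θ) → Sub q q' → C q') →
    (∀ q, E q (cohP K θ) → Sub p q →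
      (∀ q', E q' (cohP K θ) → Sub q q' → ∃ r, Sub q' r ∧ C r) → C q) →
    Fnt (sep (cohP K θ) (fun q => C q ∧ card q = k ∧ ∀ q', Sub q' q → C q' → q' = q))

section
variable {M : Type} [SetStr M] [ZF M]

/-- TRA: how the embedding of `M` into an extension satisfying ZF behaves -/
structure TraFacts (F : FPoset M) (G : M → Prop) [ZF (Ext F G)] : Prop where
  opair : ∀ a b, emb F G (opair a b) = opair (emb F G a) (emb F G b)
  emp : emb F G emp = emp
  ins : ∀ a b, emb F G (ins a b) = ins (emb F G a) (emb F G b)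
  suc : ∀ a, emb F G (suc a) = suc (emb F G a)
  om : emb F G om = om
  sub : ∀ a b, Sub (emb F G a) (emb F G b) ↔ Sub a b
  isOP : ∀ z a b, IsOP (emb F G z) (emb F G a) (emb F G b) ↔ IsOP z a b
  pairIn : ∀ a b R, PairIn (emb F G a) (emb F G b) (emb F G R) ↔ PairIn a b R
  tripleIn : ∀ a b c R, TripleIn (emb F G a) (emb F G b) (emb F G c) (emb F G R) ↔
    TripleIn a b c R
  ord : ∀ a, Ord a → Ord (emb F G a)
  hf : ∀ K, IsHF K → IsHF (emb F G K)
  fnt : ∀ a, Fnt a → Fnt (emb F G a)

end

def TRAStmt : Prop := ∀ (M : Type) [SetStr M] [ZF M] (F : FPoset M) (G : M → Prop), Gen F G →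
  ∀ [ZF (Ext F G)], TraFacts F G

/-- VLE (value lemma): a functional relation `a` of the extension, from a set `Z` of `M` to an
ordinal `l`, is covered by a function `W` of `M` on (a part of) `Z × K`. -/
def VLEStmt : Prop := ∀ (M : Type) [SetStr M] [ZF M] [Countable M] (hf : FinFacts M)
  (K θ : M), IsHF K → ∀ (G : M → Prop), Gen (Coh hf K θ) G → ∀ [ZF (Ext (Coh hf K θ) G)],
  ∀ (Z l : M), Ord l → ∀ a : Ext (Coh hf K θ) G,
    (∀ z c c', E z Z → E c l → E c' l → E (opair (emb _ G z) (emb _ G c)) a →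
      E (opair (emb _ G z) (emb _ G c')) a → c = c') →
    ∃ W : M, (∀ z j c c', E (opair (opair z j) c) W → E (opair (opair z j) c') W → c = c') ∧
      ∀ z c, E z Z → E c l → E (opair (emb _ G z) (emb _ G c)) a →
        ∃ j, E j K ∧ E (opair (opair z j) c) W

/-- SUPP (A): if `θ` does not inject into the power set of `K` in `M` but `k` does in the
extension, then there is a good family in `M`. -/
def SUPPStmt : Prop := ∀ (M : Type) [SetStr M] [ZF M] [Countable M] (hf : FinFacts M)
  (K θ : M), IsHF K → Ord θ → ¬ Inj K θ → ∀ (G : M → Prop), Gen (Coh hf K θ) G →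
  ∀ [ZF (Ext (Coh hf K θ) G)], ∀ k : M, Ord k →
    Inj (emb (Coh hf K θ) G K) (emb _ G k) → Good K k θ

/-- REA: the generic family of subsets of `K` -/
def REAStmt : Prop := ∀ (M : Type) [SetStr M] [ZF M] (hf : FinFacts M)
  (K θ : M), IsHF K → ∀ (G : M → Prop), Gen (Coh hf K θ) G → ∀ [ZF (Ext (Coh hf K θ) G)],
  ∃ R : Ext (Coh hf K θ) G,
    (∀ c, E c θ → ∃ m, E m K ∧ E (opair (emb _ G c) (emb _ G m)) R) ∧
    (∀ c c', E c θ → E c' θ → c ≠ c' → ∃ m, E m K ∧
      ¬ (E (opair (emb _ G c) (emb _ G m)) R ↔ E (opair (emb _ G c') (emb _ G m)) R))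

/-- POS: an injective numbering of the fibres of a good family by elements of `l` -/
def POSStmt : Prop := ∀ (M : Type) [SetStr M] [ZF M] (K k l S : M), IsHF K → Ord k → Ord l →
  GoodS K k l S → ∃ Q, (∀ b, E b k → ∃ c, E c l ∧ E (opair b c) Q) ∧
    (∀ b c c', E b k → E (opair b c) Q → E (opair b c') Q → c = c') ∧
    (∀ b b' c, E b k → E b' k → (∀ m d, E m K → (TripleIn b m d S ↔ TripleIn b' m d S)) →
      E (opair b c) Q → E (opair b' c) Q → b = b')

/-- INJE (B): a good family in `M` gives distinct subsets of `K` in the extension -/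
def INJEStmt : Prop := ∀ (M : Type) [SetStr M] [ZF M] (hf : FinFacts M)
  (K θ : M), IsHF K → Ord θ → ∀ (G : M → Prop), Gen (Coh hf K θ) G →
  ∀ [ZF (Ext (Coh hf K θ) G)], ∀ k : M, Ord k → Good K k θ →
    Inj (emb (Coh hf K θ) G K) (emb _ G k)

/-- ONTA (D): absoluteness of `Onto` -/
def ONTAStmt : Prop := ∀ (M : Type) [SetStr M] [ZF M] [Countable M] (hf : FinFacts M)
  (K θ : M), IsHF K → ∀ (G : M → Prop), Gen (Coh hf K θ) G → ∀ [ZF (Ext (Coh hf K θ) G)],
  ∀ J l : M, Ord l →
    (Onto (emb (Coh hf K θ) G K) (emb _ G J) (emb _ G l) ↔ Onto K J l)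

/-- CTBA: absoluteness of `Ctb` -/
def CTBAStmt : Prop := ∀ (M : Type) [SetStr M] [ZF M] [Countable M] (hf : FinFacts M)
  (K θ : M), IsHF K → ∀ (G : M → Prop), Gen (Coh hf K θ) G → ∀ [ZF (Ext (Coh hf K θ) G)],
  ∀ l : M, Ord l → (Ctb (emb (Coh hf K θ) G K) (emb _ G l) ↔ Ctb K l)

/-- GOOA (C): absoluteness of `Good` -/
def GOOAStmt : Prop := ∀ (M : Type) [SetStr M] [ZF M] [Countable M] (hf : FinFacts M)
  (K θ : M), IsHF K → ∀ (G : M → Prop), Gen (Coh hf K θ) G → ∀ [ZF (Ext (Coh hf K θ) G)],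
  ∀ k l : M, Ord k → Ord l →
    (Good (emb (Coh hf K θ) G K) (emb _ G k) (emb _ G l) ↔ Good K k l)

/-- MAIN: every `Psi j` can be forced over every countable model -/
def MAINStmt : Prop := ∀ (M : Type) [SetStr M] [ZF M] [Countable M] (j : ℕ),
  ∃ (N : Type) (_ : SetStr N) (_ : ZF N) (i : M → N), IsGenExt i ∧ Psi j N

end SW
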