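import Pool.Agent.H35.SW.Rec

/-!
Forcing over an arbitrary model of ZF: posets, the forcing relation, generic filters, the
extension as a quotient of the class of names. Every element of the model is used as a name:
`(d, s) ∈ b` with `s` a condition says that `d` is a member of `b` with value at least `s`.
-/

set_option linter.unusedVariables false
set_option synthInstance.maxSize 100000

namespace SW

/-- A poset in the model `M` (the carrier `P` is a set of `M`, the order a class of `M`). -/
structure FPoset (M : Type) [SetStr M] where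
  P : M
  le : M → M → Prop
  one : M
  le_df : Cl2 le
  one_mem : E one P
  refl : ∀ p, E p P → le p p
  trans : ∀ p q r, E p P → E q P → E r P → le p q → le q r → le p r
  le_one : ∀ p, E p P → le p one

attribute [instance] FPoset.le_df

variable {M : Type} [SetStr M] [ZF M] (F : FPoset M)

/-- `R` is a set of triples `(q,(a,b))`, closed under the back and forth condition for
forcing the equality of names. -/
def Bis (R : M) : Prop := ∀ q a b, E (opair q (opair a b)) R → E q F.P ∧
  (∀ c s r, E (opair c s) a → E s F.P → E r F.P → F.le r q → F.le r s →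
    ∃ r' d s', E r' F.P ∧ F.le r' r ∧ E (opair d s') b ∧ E s' F.P ∧ F.le r' s' ∧
      E (opair r' (opair c d)) R) ∧
  (∀ d s r, E (opair d s) b → E s F.P → E r F.P → F.le r q → F.le r s →
    ∃ r' c s', E r' F.P ∧ F.le r' r ∧ E (opair c s') a ∧ E s' F.P ∧ F.le r' s' ∧
      E (opair r' (opair c d)) R)

/-- `p` forces `a = b` -/
def EqF (p a b : M) : Prop := ∃ R, Bis F R ∧ E (opair p (opair a b)) R

/-- `p` forces `a ∈ b` -/
def MemF (p a b : M) : Prop := E p F.P ∧ ∀ q, E q F.P → F.le q p →
  ∃ r d s, E r F.P ∧ F.le r q ∧ E (opair d s) b ∧ E s F.P ∧ F.le r s ∧ EqF F r a d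

theorem Bis_df : Cl (fun R : M => Bis F R) := by unfold Bis; infer_instance

instance {n : ℕ} {t : (Fin n → M) → M} [ht : DfT t] : Df (fun v => Bis F (t v)) :=
  (Bis_df F).comp1 ht

theorem EqF_df : Cl3 (fun p a b : M => EqF F p a b) := by unfold EqF; infer_instance

instance {n : ℕ} {t s u : (Fin n → M) → M} [ht : DfT t] [hs : DfT s] [hu : DfT u] :
    Df (fun v => EqF F (t v) (s v) (u v)) := (EqF_df F).comp3 ht hs hu

theorem MemF_df : Cl3 (fun p a b : M => MemF F p a b) := by unfold MemF; infer_instance

instance {n : ℕ} {t s u : (Fin n → M) → M} [ht : DfT t] [hs : DfT s] [hu : DfT u] :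
    Df (fun v => MemF F (t v) (s v) (u v)) := (MemF_df F).comp3 ht hs hu

/-- the forcing relation for all formulas -/
def Frc : {n : ℕ} → Fml n → M → (Fin n → M) → Prop
  | _, .mem i j, p, v => MemF F p (v i) (v j)
  | _, .eq i j, p, v => EqF F p (v i) (v j)
  | _, .bot, _, _ => False
  | _, .imp f g, p, v => ∀ q, E q F.P → F.le q p → Frc f q v → Frc g q v
  | _, .all f, p, v => ∀ x : M, Frc f p (Fin.cons x v)

/-- `G` is a generic filter over `M` (an external set of conditions) -/
structure Gen (G : M → Prop) : Prop where
  sub : ∀ p, G p → E p F.P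
  one : G F.one
  up : ∀ p q, G p → E q F.P → F.le p q → G q
  dir : ∀ p q, G p → G q → ∃ r, G r ∧ F.le r p ∧ F.le r q
  meet : ∀ D : M, (∀ p, E p F.P → ∃ q, E q F.P ∧ F.le q p ∧ E q D) → ∃ p, G p ∧ E p D

/-- the generic extension: names modulo the equality forced by a condition in `G` -/
def Ext (G : M → Prop) : Type := Quot (fun a b : M => ∃ p, G p ∧ EqF F p a b)

/-- the value of a name -/
def mk (G : M → Prop) (a : M) : Ext F G := Quot.mk _ a

instance (G : M → Prop) : SetStr (Ext F G) where
  mem x y := ∃ a b, mk F G a = x ∧ mk F G b = y ∧ ∃ p, G p ∧ MemF F p a b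

/-- application of a set-function -/
noncomputable def app (g y : M) : M := the (fun w => E (opair y w) g)

theorem app_df : Fn2 (fun a b : M => app a b) := by unfold app; infer_instance

instance {n : ℕ} {t s : (Fin n → M) → M} [ht : DfT t] [hs : DfT s] :
    DfT (fun v => app (t v) (s v)) := app_df.comp2 ht hs

theorem app_gr {f : M → M} (hf : Fn1 f) {x y : M} (h : E y x) : app (gr x f) y = f y := by
  refine the_eq ((opair_mem_gr hf).2 ⟨h, rfl⟩) fun z hz => ((opair_mem_gr hf).1 hz).2

/-- check names -/
noncomputable def chk (x : M) : M := mrec (fun x g => img x (fun y => opair (app g y) F.one)) x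

theorem chk_df : Fn1 (fun x : M => chk F x) := by
  unfold chk; infer_instance

instance {n : ℕ} {t : (Fin n → M) → M} [ht : DfT t] : DfT (fun v => chk F (t v)) :=
  (chk_df F).comp1 ht

theorem mem_chk {x z : M} : E z (chk F x) ↔ ∃ y, E y x ∧ z = opair (chk F y) F.one := by
  have h : chk F x = img x (fun y => opair (app (gr x (chk F)) y) F.one) := by
    unfold chk
    exact mrec_eq inferInstance x
  rw [h, mem_img' inferInstance]
  constructor
  · rintro ⟨y, hy, rfl⟩
    exact ⟨y, hy, by rw [app_gr (chk_df F) hy]⟩
  · rintro ⟨y, hy, rfl⟩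
    exact ⟨y, hy, by rw [app_gr (chk_df F) hy]⟩

/-- the embedding of `M` in the extension -/
noncomputable def emb (G : M → Prop) (x : M) : Ext F G := mk F G (chk F x)

/-- the canonical name of the generic filter -/
noncomputable def Gnm : M := img F.P (fun p => opair (chk F p) p)

/-- forced statements, semantically: `Q` holds in all extensions by generic filters with `p` -/
def FS {n : ℕ} (Q : ∀ (N : Type) [SetStr N], (Fin n → N) → Prop) (p : M) (v : Fin n → M) : Prop :=
  ∀ G, Gen F G → G p → Q (Ext F G) (fun i => mk F G (v i))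

end SW
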