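import Pool.Agent.H35.SW.FStmts

/-!
The forcing relation of a poset which is a set of the model, uniformly in all models.
-/

set_option linter.unusedVariables false
set_option synthInstance.maxSize 100000

namespace SW

/-! ### uniform definability -/

theorem TrIn_u : UDf (fun M _ (w : Fin 4 → M) => TrIn (w 0) (w 1) (w 2) (w 3)) := by
  unfold TrIn; infer_instance

instance {n : ℕ} {t s u x : ∀ (M : Type) [SetStr M], (Fin n → M) → M} [UV t] [UV s] [UV u]
    [UV x] : UDf (fun M _ v => TrIn (t M v) (s M v) (u M v) (x M v)) :=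
  TrIn_u.comp4 (R := fun _ _ a b c d => TrIn a b c d) t s u x

theorem IsBis_u : UDf (fun M _ (w : Fin 3 → M) => IsBis (w 0) (w 1) (w 2)) := by
  unfold IsBis; infer_instance

instance {n : ℕ} {t s u : ∀ (M : Type) [SetStr M], (Fin n → M) → M} [UV t] [UV s] [UV u] :
    UDf (fun M _ v => IsBis (t M v) (s M v) (u M v)) :=
  IsBis_u.comp3 (R := fun _ _ a b c => IsBis a b c) t s u

theorem UDf.comp5 {R : ∀ (M : Type) [SetStr M], M → M → M → M → M → Prop}
    (h : UDf (fun M _ (w : Fin 5 → M) => R M (w 0) (w 1) (w 2) (w 3) (w 4))) {n : ℕ}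
    (t s u x y : ∀ (M : Type) [SetStr M], (Fin n → M) → M) [ht : UV t] [hs : UV s] [hu : UV u]
    [hx : UV x] [hy : UV y] :
    UDf (fun M _ v => R M (t M v) (s M v) (u M v) (x M v) (y M v)) := by
  obtain ⟨i, hi⟩ := ht.out
  obtain ⟨j, hj⟩ := hs.out
  obtain ⟨k, hk⟩ := hu.out
  obtain ⟨l, hl⟩ := hx.out
  obtain ⟨m, hm⟩ := hy.out
  exact (h.ren ![i, j, k, l, m]).congr fun M _ v => by
    rw [hi M v, hj M v, hk M v, hl M v, hm M v]; exact Iff.rfl

theorem ForcesEq_u : UDf (fun M _ (w : Fin 5 → M) =>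
    ForcesEq (w 0) (w 1) (w 2) (w 3) (w 4)) := by
  unfold ForcesEq; infer_instance

instance {n : ℕ} {t s u x y : ∀ (M : Type) [SetStr M], (Fin n → M) → M} [UV t] [UV s] [UV u]
    [UV x] [UV y] : UDf (fun M _ v => ForcesEq (t M v) (s M v) (u M v) (x M v) (y M v)) :=
  ForcesEq_u.comp5 (R := fun _ _ a b c d e => ForcesEq a b c d e) t s u x y

theorem ForcesMem_u : UDf (fun M _ (w : Fin 5 → M) =>
    ForcesMem (w 0) (w 1) (w 2) (w 3) (w 4)) := by
  unfold ForcesMem; infer_instance

instance {n : ℕ} {t s u x y : ∀ (M : Type) [SetStr M], (Fin n → M) → M} [UV t] [UV s] [UV u]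
    [UV x] [UV y] : UDf (fun M _ v => ForcesMem (t M v) (s M v) (u M v) (x M v) (y M v)) :=
  ForcesMem_u.comp5 (R := fun _ _ a b c d e => ForcesMem a b c d e) t s u x y

theorem Forces_u : ∀ {n : ℕ} (f : Fml n), UDf (fun M _ (w : Fin (n + 3) → M) =>
    Forces (w 0) (w 1) f (w 2) (fun i => w i.succ.succ.succ))
  | _, .mem i j => by
      unfold Forces
      infer_instance
  | _, .eq i j => by
      unfold Forces
      infer_instance
  | _, .bot => by
      unfold Forces
      infer_instance
  | n, .imp f g => by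
      have hf := Forces_u f
      have hg := Forces_u g
      have hf' : UDf (fun M _ (w : Fin (n + 3 + 1) → M) =>
          Forces (w (Fin.succ 0)) (w (Fin.succ 1)) f (w 0) (fun i => w i.succ.succ.succ.succ)) :=
        (hf.ren (Fin.cons (Fin.succ 0) (Fin.cons (Fin.succ 1) (Fin.cons 0
          (fun i => i.succ.succ.succ.succ))))).congr fun M _ v => Iff.rfl
      have hg' : UDf (fun M _ (w : Fin (n + 3 + 1) → M) =>
          Forces (w (Fin.succ 0)) (w (Fin.succ 1)) g (w 0) (fun i => w i.succ.succ.succ.succ)) :=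
        (hg.ren (Fin.cons (Fin.succ 0) (Fin.cons (Fin.succ 1) (Fin.cons 0
          (fun i => i.succ.succ.succ.succ))))).congr fun M _ v => Iff.rfl
      have h1 : UDf (fun M _ (w : Fin (n + 3 + 1) → M) => E (w 0) (w (Fin.succ 0)) →
          PairIn (w 0) (w (Fin.succ 2)) (w (Fin.succ 1)) →
          Forces (w (Fin.succ 0)) (w (Fin.succ 1)) f (w 0) (fun i => w i.succ.succ.succ.succ) →
          Forces (w (Fin.succ 0)) (w (Fin.succ 1)) g (w 0)
            (fun i => w i.succ.succ.succ.succ)) := by
        infer_instance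
      exact (UDf.all (P := fun M _ q (w : Fin (n + 3) → M) => E q (w 0) → PairIn q (w 2) (w 1) →
        Forces (w 0) (w 1) f q (fun i => w i.succ.succ.succ) →
        Forces (w 0) (w 1) g q (fun i => w i.succ.succ.succ)) (h := h1)).congr
        fun M _ v => by simp only [Forces]
  | n, .all f => by
      have hf := Forces_u f
      have h1 : UDf (fun M _ (w : Fin (n + 3 + 1) → M) =>
          Forces (w (Fin.succ 0)) (w (Fin.succ 1)) f (w (Fin.succ 2))
            (Fin.cons (w 0) (fun i => w i.succ.succ.succ.succ))) := by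
        refine (hf.ren (Fin.cons (Fin.succ 0) (Fin.cons (Fin.succ 1) (Fin.cons (Fin.succ 2)
          (Fin.cons 0 (fun i => i.succ.succ.succ.succ)))))).congr fun M _ v => ?_
        have : (fun i : Fin (n + 1) => v ((Fin.cons (Fin.succ 0) (Fin.cons (Fin.succ 1)
            (Fin.cons (Fin.succ 2) (Fin.cons 0 (fun i => i.succ.succ.succ.succ)))) :
            Fin (n + 4) → Fin (n + 4)) i.succ.succ.succ))
            = (Fin.cons (v 0) (fun i => v i.succ.succ.succ.succ) : Fin (n + 1) → M) := by
          funext i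
          refine Fin.cases ?_ (fun j => ?_) i <;> rfl
        rw [this]
        exact Iff.rfl
      exact (UDf.all (P := fun M _ x (w : Fin (n + 3) → M) =>
        Forces (w 0) (w 1) f (w 2) (Fin.cons x (fun i => w i.succ.succ.succ))) (h := h1)).congr
        fun M _ v => by simp only [Forces]

end SW
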