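import Pool.Agent.H35.SW.Main2
import Pool.Agent.H35.SW.LS

/-!
The final assembly, with the formalisation by means of the forcing relation.
-/

set_option linter.unusedVariables false
set_option synthInstance.maxSize 100000

namespace SW

theorem IsPoset_u : UDf (fun M _ (w : Fin 3 → M) => IsPoset (w 0) (w 1) (w 2)) := by
  refine (inferInstance : UDf (fun M _ (w : Fin 3 → M) => E (w 2) (w 0) ∧
    (∀ p, E p (w 0) → PairIn p p (w 1)) ∧
    (∀ p q r, E p (w 0) → E q (w 0) → E r (w 0) → PairIn p q (w 1) → PairIn q r (w 1) →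
      PairIn p r (w 1)) ∧ (∀ p, E p (w 0) → PairIn p (w 2) (w 1)))).congr fun M _ w => ?_
  exact ⟨fun h => ⟨h.one_mem, h.refl, h.trans, h.le_one⟩, fun h => ⟨h.1, h.2.1, h.2.2.1, h.2.2.2⟩⟩

instance {n : ℕ} {t s u : ∀ (M : Type) [SetStr M], (Fin n → M) → M} [UV t] [UV s] [UV u] :
    UDf (fun M _ v => IsPoset (t M v) (s M v) (u M v)) :=
  IsPoset_u.comp3 (R := fun _ _ a b c => IsPoset a b c) t s u

theorem Forces0_u (f : Fml 0) : UDf (fun M _ (w : Fin 3 → M) =>
    Forces (w 0) (w 1) f (w 2) Fin.elim0) := by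
  refine (Forces_u f).congr fun M _ w => ?_
  have : (fun i : Fin 0 => w i.succ.succ.succ) = (Fin.elim0 : Fin 0 → M) := by
    funext i
    exact i.elim0
  rw [this]

instance {n : ℕ} {f : Fml 0} {t s u : ∀ (M : Type) [SetStr M], (Fin n → M) → M} [UV t] [UV s]
    [UV u] : UDf (fun M _ w => Forces (t M w) (s M w) f (u M w) Fin.elim0) :=
  (Forces0_u f).comp3 (R := fun _ _ a b c => Forces a b f c Fin.elim0) t s u

theorem UDf.allFin {m n : ℕ} {P : Fin m → ∀ (M : Type) [SetStr M], (Fin n → M) → Prop}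
    (h : ∀ j, UDf (P j)) : UDf (fun M _ v => ∀ j, P j M v) := by
  induction m with
  | zero =>
    exact (inferInstance : UDf (fun M _ (_ : Fin n → M) => True)).congr fun M _ v => by
      simp
  | succ m ih =>
    have h0 := h 0
    have h1 := ih (P := fun j => P j.succ) (fun j => h j.succ)
    exact (inferInstance : UDf (fun M _ v => P 0 M v ∧ ∀ j : Fin m, P j.succ M v)).congr
      fun M _ v => Fin.forall_fin_succ

theorem CanForce_u {n : ℕ} (φ : Fin n → Fml 0) (ε : Fin n → Bool) :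
    UDf (fun N _ (_ : Fin 0 → N) => CanForce φ ε N) := by
  have h : UDf (fun M _ (w : Fin 4 → M) => ∀ k : Fin n,
      Forces (w 3) (w 2) (if ε k = true then φ k else .imp (φ k) .bot) (w 0) Fin.elim0) :=
    UDf.allFin (P := fun k M _ (w : Fin 4 → M) =>
      Forces (w 3) (w 2) (if ε k = true then φ k else .imp (φ k) .bot) (w 0) Fin.elim0)
      fun k => inferInstance
  unfold CanForce
  exact UDf.ex (P := fun M _ P (_ : Fin 0 → M) => ∃ le one p : M, IsPoset P le one ∧ E p P ∧
      ∀ k : Fin n, Forces P le (if ε k = true then φ k else .imp (φ k) .bot) p Fin.elim0)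
    (h := UDf.ex (P := fun M _ le (w : Fin 1 → M) => ∃ one p : M, IsPoset (w 0) le one ∧
      E p (w 0) ∧ ∀ k : Fin n,
        Forces (w 0) le (if ε k = true then φ k else .imp (φ k) .bot) p Fin.elim0)
    (h := UDf.ex (P := fun M _ one (w : Fin 2 → M) => ∃ p : M, IsPoset (w 1) (w 0) one ∧
      E p (w 1) ∧ ∀ k : Fin n,
        Forces (w 1) (w 0) (if ε k = true then φ k else .imp (φ k) .bot) p Fin.elim0)
    (h := UDf.ex (P := fun M _ p (w : Fin 3 → M) => IsPoset (w 2) (w 1) (w 0) ∧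
      E p (w 2) ∧ ∀ k : Fin n,
        Forces (w 2) (w 1) (if ε k = true then φ k else .imp (φ k) .bot) p Fin.elim0)
    (h := UDf.and (P := fun M _ (w : Fin 4 → M) => IsPoset (w 3) (w 2) (w 1)) (hQ :=
      UDf.and (P := fun M _ (w : Fin 4 → M) => E (w 0) (w 3)) (hQ := h))))))

theorem elim0_mk {M : Type} [SetStr M] [ZF M] (F : FPoset M) (G : M → Prop) :
    (fun i : Fin 0 => mk F G ((Fin.elim0 : Fin 0 → M) i)) = (Fin.elim0 : Fin 0 → Ext F G) := by
  funext i
  exact i.elim0

/-- what holds in all extensions is forced -/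
theorem frc_of_gen {M : Type} [SetStr M] [ZF M] {F : FPoset M} (ht : FrcFacts F)
    (hs : FSFacts F) (f : Fml 0) {p : M} (hp : E p F.P)
    (h : ∀ G, Gen F G → G p → Sat (M := Ext F G) f Fin.elim0) : Frc F f p Fin.elim0 := by
  refine ht.dense f hp fun q hq hqp => ?_
  obtain ⟨G, hG, hqG⟩ := hs.ex q hq
  have hpG := hG.up q p hqG hp hqp
  have h1 := h G hG hpG
  rw [← elim0_mk F G] at h1
  obtain ⟨r', hr'G, hr'⟩ := (ht.truth G hG f Fin.elim0).1 h1
  obtain ⟨r, hrG, hrq, hrr'⟩ := hG.dir q r' hqG hr'G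
  exact ⟨r, hG.sub r hrG, hrq, ht.mono f (hG.sub r' hr'G) (hG.sub r hrG) hrr' hr'⟩

theorem isPoset_leS {M : Type} [SetStr M] [ZF M] (F : FPoset M) :
    IsPoset F.P (leS F) F.one := by
  refine ⟨F.one_mem, fun p hp => pairIn_leS.2 ⟨hp, hp, F.refl p hp⟩, ?_, ?_⟩
  · intro p q r hp hq hr h1 h2
    exact pairIn_leS.2 ⟨hp, hr, F.trans p q r hp hq hr (pairIn_leS.1 h1).2.2
      (pairIn_leS.1 h2).2.2⟩
  · intro p hp
    exact pairIn_leS.2 ⟨hp, F.one_mem, F.le_one p hp⟩

theorem final2 (hzfa : ZFAStmt) (hzfb : ZFBStmt) (hsem : SEMStmt) (htru : TRUStmt)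
    (hall : ∀ (M : Type) [SetStr M] [ZF M] [Countable M] (j : ℕ),
      ∃ F : FPoset M, ∀ G, Gen F G → Psi j (Ext F G))
    (hmain : MAINStmt) (hexcl : EXCLStmt) (hcnt : CNTStmt) (n : ℕ) :
    ∃ φ : Fin n → Fml 0,
      (∀ (M : Type) [SetStr M] [ZF M] [Countable M], IndepSwitches φ M) ∧
      ∃ χ : (Fin n → Bool) → Fml 0,
        (∀ (ε : Fin n → Bool) (N : Type) [SetStr N],
          Sat (M := N) (χ ε) Fin.elim0 ↔ CanForce φ ε N) ∧
        ∀ (M : Type) [SetStr M] [ZF M] (ε : Fin n → Bool) (P le one p : M),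
          IsPoset P le one → E p P → Forces P le (χ ε) p Fin.elim0 := by
  classical
  let e := Fintype.equivFin (Fin n → Bool)
  have h1 : ∀ k : Fin n, UDf (fun M _ (_ : Fin 0 → M) =>
      ∃ j : Fin (Fintype.card (Fin n → Bool)), (e.symm j k = true ∧ Psi j M)) := by
    intro k
    refine UDf.exFin (P := fun j M _ _ => e.symm j k = true ∧ Psi j M) fun j => ?_
    by_cases hj : e.symm j k = true
    · exact (Psi_u j).congr fun M _ v => by simp [hj]
    · exact (inferInstance : UDf (fun M _ (_ : Fin 0 → M) => False)).congr fun M _ v => by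
        simp [hj]
  choose φ hφ using fun k => (h1 k).out
  have hpat : ∀ (N : Type) [SetStr N] [ZF N] (ε : Fin n → Bool), Psi (e ε) N → ∀ k,
      (Sat (M := N) (φ k) Fin.elim0 ↔ ε k = true) := by
    intro N _ _ ε hpsi k
    rw [← hφ k N Fin.elim0]
    constructor
    · rintro ⟨j', h2, h3⟩
      have h4 := hexcl N j' (e ε) h3 hpsi
      have h5 : j' = e ε := Fin.ext h4
      rw [h5] at h2
      simpa using h2
    · intro h
      exact ⟨e ε, by simpa using h, hpsi⟩
  refine ⟨φ, fun M _ _ _ N _ _ i hi ε => ?_, ?_⟩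
  · have : Countable N := hcnt M N i hi
    obtain ⟨N', s, z, j, hj, hpsi⟩ := hmain N (e ε)
    exact ⟨N', s, z, j, hj, hpat N' ε hpsi⟩
  choose χ hχ using fun ε => (CanForce_u φ ε).out
  refine ⟨χ, fun ε N _ => (hχ ε N Fin.elim0).symm, ?_⟩
  -- the pattern can be forced over countable models
  have hcan : ∀ (N : Type) [SetStr N] [ZF N] [Countable N] (ε : Fin n → Bool),
      CanForce φ ε N := by
    intro N _ _ _ ε
    obtain ⟨F, hF⟩ := hall N (e ε)
    refine ⟨F.P, leS F, F.one, F.one, isPoset_leS F, F.one_mem, fun k => ?_⟩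
    have hle : LeOf F (leS F) := fun p q hp hq => by
      rw [pairIn_leS]
      exact ⟨fun h => h.2.2, fun h => ⟨hp, hq, h⟩⟩
    rw [forces_iff hle _ _ _ F.one_mem]
    refine frc_of_gen (htru N F) (hsem N F) _ F.one_mem fun G hG _ => ?_
    have hZ : ZF (Ext F G) := ZF_ext hzfa hzfb N F G hG
    have h2 := hpat (Ext F G) ε (hF G hG) k
    by_cases hk : ε k = true
    · rw [if_pos hk]
      exact h2.2 hk
    · rw [if_neg hk]
      exact fun h3 => hk (h2.1 h3)
  -- the statement for countable models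
  have hctb : ∀ (M : Type) [SetStr M] [ZF M] [Countable M] (ε : Fin n → Bool) (P le one p : M),
      IsPoset P le one → E p P → Forces P le (χ ε) p Fin.elim0 := by
    intro M _ _ _ ε P le one p hP hp
    have hle : LeOf (setF P le one hP) le := fun p q hp hq => Iff.rfl
    refine (forces_iff (F := setF P le one hP) hle _ p _ hp).2 ?_
    refine frc_of_gen (htru M _) (hsem M _) _ hp fun G hG _ => ?_
    have hZ : ZF (Ext (setF P le one hP) G) := ZF_ext hzfa hzfb M _ G hG
    have hC : Countable (Ext (setF P le one hP) G) := by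
      unfold Ext
      infer_instance
    exact (hχ ε _ Fin.elim0).1 (hcan _ ε)
  intro M _ _ ε
  obtain ⟨N, hN, hZ, hC, hel⟩ := exists_countable M
  have hu : UDf (fun M _ (_ : Fin 0 → M) => ∀ P le one p : M, IsPoset P le one → E p P →
      Forces P le (χ ε) p Fin.elim0) := inferInstance
  obtain ⟨g, hg⟩ := hu.out
  exact (hg M Fin.elim0).2 ((hel g).1 ((hg N Fin.elim0).1 (hctb N ε)))

end SW
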