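import Pool.Agent.H35.SW.FRel

/-!
In a model of ZF, the forcing relation of a set poset is that of the development.
-/

set_option linter.unusedVariables false
set_option synthInstance.maxSize 100000

namespace SW

variable {M : Type} [SetStr M] [ZF M]

theorem trIn_iff {p a b R : M} : TrIn p a b R ↔ E (opair p (opair a b)) R := by
  unfold TrIn
  constructor
  · rintro ⟨z, hz, h⟩
    rw [isOP_iff] at hz
    subst hz
    exact pairIn_iff.1 h
  · intro h
    exact ⟨_, isOP_iff.2 rfl, pairIn_iff.2 h⟩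

/-- a poset which is a set -/
noncomputable def setF (P le one : M) (h : IsPoset P le one) : FPoset M where
  P := P
  le := fun p q => PairIn p q le
  one := one
  le_df := inferInstance
  one_mem := h.one_mem
  refl := h.refl
  trans := h.trans
  le_one := h.le_one

/-- the set `le` of the model gives the order of `F` on `F.P` -/
def LeOf (F : FPoset M) (le : M) : Prop :=
  ∀ p q, E p F.P → E q F.P → (PairIn p q le ↔ F.le p q)

theorem isBis_iff {F : FPoset M} {le : M} (hle : LeOf F le) {R : M} :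
    IsBis F.P le R ↔ Bis F R := by
  constructor
  · intro h q a b hR
    obtain ⟨hq, h1, h2⟩ := h q a b (trIn_iff.2 hR)
    refine ⟨hq, ?_, ?_⟩
    · intro c s r hc hs hr hrq hrs
      obtain ⟨r', d, s', h3, h4, h5, h6, h7, h8⟩ := h1 c s r (pairIn_iff.2 hc) hs hr
        ((hle r q hr hq).2 hrq) ((hle r s hr hs).2 hrs)
      exact ⟨r', d, s', h3, (hle _ _ h3 hr).1 h4, pairIn_iff.1 h5, h6, (hle _ _ h3 h6).1 h7,
        trIn_iff.1 h8⟩
    · intro c s r hc hs hr hrq hrs
      obtain ⟨r', d, s', h3, h4, h5, h6, h7, h8⟩ := h2 c s r (pairIn_iff.2 hc) hs hr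
        ((hle r q hr hq).2 hrq) ((hle r s hr hs).2 hrs)
      exact ⟨r', d, s', h3, (hle _ _ h3 hr).1 h4, pairIn_iff.1 h5, h6, (hle _ _ h3 h6).1 h7,
        trIn_iff.1 h8⟩
  · intro h q a b hR
    obtain ⟨hq, h1, h2⟩ := h q a b (trIn_iff.1 hR)
    refine ⟨hq, ?_, ?_⟩
    · intro c s r hc hs hr hrq hrs
      obtain ⟨r', d, s', h3, h4, h5, h6, h7, h8⟩ := h1 c s r (pairIn_iff.1 hc) hs hr
        ((hle r q hr hq).1 hrq) ((hle r s hr hs).1 hrs)
      exact ⟨r', d, s', h3, (hle _ _ h3 hr).2 h4, pairIn_iff.2 h5, h6, (hle _ _ h3 h6).2 h7,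
        trIn_iff.2 h8⟩
    · intro c s r hc hs hr hrq hrs
      obtain ⟨r', d, s', h3, h4, h5, h6, h7, h8⟩ := h2 c s r (pairIn_iff.1 hc) hs hr
        ((hle r q hr hq).1 hrq) ((hle r s hr hs).1 hrs)
      exact ⟨r', d, s', h3, (hle _ _ h3 hr).2 h4, pairIn_iff.2 h5, h6, (hle _ _ h3 h6).2 h7,
        trIn_iff.2 h8⟩

theorem forcesEq_iff {F : FPoset M} {le : M} (hle : LeOf F le) {p a b : M} :
    ForcesEq F.P le p a b ↔ EqF F p a b := by
  unfold ForcesEq EqF
  refine exists_congr fun R => ?_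
  rw [isBis_iff hle, trIn_iff]

theorem forcesMem_iff {F : FPoset M} {le : M} (hle : LeOf F le) {p a b : M} :
    ForcesMem F.P le p a b ↔ MemF F p a b := by
  unfold ForcesMem MemF
  refine and_congr_right fun hp => forall_congr' fun q => forall_congr' fun hq => ?_
  rw [hle q p hq hp]
  refine imp_congr_right fun hqp => exists_congr fun r => exists_congr fun d =>
    exists_congr fun s => ?_
  constructor
  · rintro ⟨h1, h2, h3, h4, h5, h6⟩
    exact ⟨h1, (hle _ _ h1 hq).1 h2, pairIn_iff.1 h3, h4, (hle _ _ h1 h4).1 h5,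
      (forcesEq_iff hle).1 h6⟩
  · rintro ⟨h1, h2, h3, h4, h5, h6⟩
    exact ⟨h1, (hle _ _ h1 hq).2 h2, pairIn_iff.2 h3, h4, (hle _ _ h1 h4).2 h5,
      (forcesEq_iff hle).2 h6⟩

theorem forces_iff {F : FPoset M} {le : M} (hle : LeOf F le) : ∀ {n : ℕ} (f : Fml n) (p : M)
    (v : Fin n → M), E p F.P → (Forces F.P le f p v ↔ Frc F f p v)
  | _, .mem i j, p, v, hp => forcesMem_iff hle
  | _, .eq i j, p, v, hp => forcesEq_iff hle
  | _, .bot, p, v, hp => Iff.rfl
  | _, .imp f g, p, v, hp => by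
      simp only [Forces, Frc]
      refine forall_congr' fun q => forall_congr' fun hq => ?_
      rw [hle q p hq hp, forces_iff hle f q v hq, forces_iff hle g q v hq]
  | _, .all f, p, v, hp => by
      simp only [Forces, Frc]
      exact forall_congr' fun x => forces_iff hle f p _ hp

end SW
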