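import Pool.Agent.H35.SW.SwDefs

/-!
Finite sets, cardinalities of finite sets, the hereditarily finite sets, in a model of ZF:
definitions and statements.
-/

set_option linter.unusedVariables false
set_option synthInstance.maxSize 100000

namespace SW

variable {M : Type} [SetStr M] [ZF M]

/-- `f` is a bijection from `n` onto `x` (only pairs `(i, y)` with `i ∈ n`, `y ∈ x` matter) -/
def Enum (f n x : M) : Prop :=
  (∀ i, E i n → ∃ y, E y x ∧ E (opair i y) f) ∧
  (∀ y, E y x → ∃ i, E i n ∧ E (opair i y) f) ∧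
  (∀ i y y', E i n → E (opair i y) f → E (opair i y') f → y = y') ∧
  (∀ i i' y, E i n → E i' n → E y x → E (opair i y) f → E (opair i' y) f → i = i')

theorem Enum_df : Cl3 (fun f n x : M => Enum f n x) := by unfold Enum; infer_instance

instance {n : ℕ} {t s u : (Fin n → M) → M} [ht : DfT t] [hs : DfT s] [hu : DfT u] :
    Df (fun v => Enum (t v) (s v) (u v)) := Enum_df.comp3 ht hs hu

/-- `x` has `n` elements, `n` a natural number -/
def Cnt (x n : M) : Prop := E n om ∧ ∃ f, Enum f n x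

theorem Cnt_df : Cl2 (fun x n : M => Cnt x n) := by unfold Cnt; infer_instance

instance {n : ℕ} {t s : (Fin n → M) → M} [ht : DfT t] [hs : DfT s] :
    Df (fun v => Cnt (t v) (s v)) := Cnt_df.comp2 ht hs

/-- finite sets -/
def Fnt (x : M) : Prop := ∃ n, Cnt x n

theorem Fnt_df : Cl (fun x : M => Fnt x) := by unfold Fnt; infer_instance

instance {n : ℕ} {t : (Fin n → M) → M} [ht : DfT t] : Df (fun v => Fnt (t v)) :=
  Fnt_df.comp1 ht

/-- the number of elements of a finite set -/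
noncomputable def card (x : M) : M := the (fun n => Cnt x n)

theorem card_df : Fn1 (fun x : M => card x) := by unfold card; infer_instance

instance {n : ℕ} {t : (Fin n → M) → M} [ht : DfT t] : DfT (fun v => card (t v)) :=
  card_df.comp1 ht

/-- FIN -/
structure FinFacts (M : Type) [SetStr M] [ZF M] : Prop where
  emp : Fnt (emp : M)
  ins : ∀ {x a : M}, Fnt x → Fnt (ins a x)
  sub : ∀ {x y : M}, Fnt x → Sub y x → Fnt y
  bun : ∀ {x y : M}, Fnt x → Fnt y → Fnt (bun x y)
  sUn : ∀ {x : M}, Fnt x → (∀ y, E y x → Fnt y) → Fnt (sUn x)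
  img : ∀ {x : M} (f : M → M), Fn1 f → Fnt x → Fnt (img x f)
  prod : ∀ {x y : M}, Fnt x → Fnt y → Fnt (prod x y)
  nat : ∀ {n : M}, E n om → Fnt n
  ind : ∀ C : M → Prop, Cl C → C SW.emp → (∀ x a, Fnt x → ¬ E a x → C x → C (SW.ins a x)) →
    ∀ x, Fnt x → C x
  card_om : ∀ {x : M}, Fnt x → E (card x) om
  card_emp : card (SW.emp : M) = SW.emp
  card_ins : ∀ {x a : M}, Fnt x → ¬ E a x → card (SW.ins a x) = suc (card x)
  card_lt : ∀ {x y : M}, Fnt x → Sub y x → y ≠ x → E (card y) (card x)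
  card_le : ∀ {x y : M}, Fnt x → Sub y x → Sub (card y) (card x)

/-- in models of ZF, being closed in the sense of `HFClosed` -/
theorem hfClosed_iff {Z : M} : HFClosed Z ↔ E emp Z ∧ ∀ x y, E x Z → E y Z → E (ins y x) Z := by
  constructor
  · rintro ⟨⟨e, he, h⟩, h2⟩
    refine ⟨by rwa [← eq_emp he], fun x y hx hy => ?_⟩
    obtain ⟨u, hu, hu'⟩ := h2 x y hx hy
    have : u = ins y x := ext fun w => by rw [hu, mem_ins]
    rwa [← this]
  · rintro ⟨h, h2⟩
    exact ⟨⟨emp, not_mem_emp, h⟩, fun x y hx hy => ⟨ins y x, fun w => mem_ins, h2 x y hx hy⟩⟩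

/-- HF: facts about the set `K` of hereditarily finite sets -/
structure HFFacts {M : Type} [SetStr M] [ZF M] (K : M) : Prop where
  emp : E emp K
  ins : ∀ {x y : M}, E x K → E y K → E (ins y x) K
  ind : ∀ C : M → Prop, Cl C → C SW.emp → (∀ x y, E x K → E y K → C x → C y → C (SW.ins y x)) →
    ∀ x, E x K → C x
  trans : Trans K
  nat : ∀ {n : M}, E n om → E n K
  opair : ∀ {x y : M}, E (opair x y) K ↔ E x K ∧ E y K
  sing : ∀ {x : M}, E x K → E (sing x) K
  upair : ∀ {x y : M}, E x K → E y K → E (upair x y) K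
  fin : ∀ {x : M}, E x K ↔ Fnt x ∧ Sub x K

/-- HART: Hartogs' theorem, for functions and for families of disjoint sets -/
def HartStmt (M : Type) [SetStr M] [ZF M] : Prop := ∀ U : M, ∃ a, Ord a ∧
  ¬ ∃ f, (∀ b, E b a → ∃ y, E y U ∧ E (opair b y) f) ∧
    (∀ b y y', E b a → E (opair b y) f → E (opair b y') f → y = y') ∧
    (∀ b b' y, E b a → E b' a → E (opair b y) f → E (opair b' y) f → b = b')

/-! ### module statements -/

def FINStmt : Prop := ∀ (M : Type) [SetStr M] [ZF M], FinFacts M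

def HFEXStmt : Prop := ∀ (M : Type) [SetStr M] [ZF M], ∃ K : M, IsHF K

def HFStmt : Prop := ∀ (M : Type) [SetStr M] [ZF M] (K : M), IsHF K → HFFacts K

def HARTStmt : Prop := ∀ (M : Type) [SetStr M] [ZF M], HartStmt M

/-- ORD2: the ordinal step function `IsH` is total and single valued, and `IsR` exists -/
def HTOTStmt : Prop := ∀ (M : Type) [SetStr M] [ZF M] (K : M), IsHF K →
  (∃ k, IsR K k) ∧ ∀ l, Ord l → ∃ k, IsH K l k

/-- monotonicity, uniqueness, growth -/
def HUPStmt : Prop := ∀ (M : Type) [SetStr M] [ZF M] (K : M), IsHF K →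
  (∀ k k', IsR K k → IsR K k' → k = k') ∧
  (∀ l k k', IsH K l k → IsH K l k' → k = k') ∧
  (∀ l k, Ord l → ¬ Ctb K l → IsH K l k → E l k ∧ ¬ Ctb K k) ∧
  (∀ k k', Ord k → E k' k → Inj K k → Inj K k') ∧
  (∀ l k k', Ord k → E k' k → Good K k l → Good K k' l) ∧
  (∀ l l', Ord l → E l' l → Ctb K l → Ctb K l') ∧
  (∀ l, Ctb K l → Inj K l)

/-- EXCL: the sentences `Psi j` exclude each other -/
def EXCLStmt : Prop := ∀ (M : Type) [SetStr M] [ZF M] (i j : ℕ), Psi i M → Psi j M → i = j

/-- ITER: closed ordinals exist above any ordinal -/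
def ITERStmt : Prop := ∀ (M : Type) [SetStr M] [ZF M] (K : M), IsHF K → ∀ r, Ord r →
  ∃ l, E r l ∧ Bas K l

end SW
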