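import Pool.Agent.H35.SW.CDefs

/-!
The final assembly: from the forcing of every `Psi j` to independent switches.
-/

set_option linter.unusedVariables false
set_option synthInstance.maxSize 100000

namespace SW

theorem UDf.exFin {m n : ℕ} {P : Fin m → ∀ (M : Type) [SetStr M], (Fin n → M) → Prop}
    (h : ∀ j, UDf (P j)) : UDf (fun M _ v => ∃ j, P j M v) := by
  induction m with
  | zero =>
    exact (inferInstance : UDf (fun M _ (_ : Fin n → M) => False)).congr fun M _ v => by
      simp
  | succ m ih =>
    have h0 := h 0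
    have h1 := ih (P := fun j => P j.succ) (fun j => h j.succ)
    exact (inferInstance : UDf (fun M _ v => P 0 M v ∨ ∃ j : Fin m, P j.succ M v)).congr
      fun M _ v => Fin.exists_fin_succ

theorem final (hmain : MAINStmt) (hexcl : EXCLStmt) (hcnt : CNTStmt) (n : ℕ) :
    ∃ φ : Fin n → Fml 0, ∀ (M : Type) [SetStr M] [ZF M] [Countable M], IndepSwitches φ M := by
  classical
  let e := Fintype.equivFin (Fin n → Bool)
  have h1 : ∀ k : Fin n, UDf (fun M _ (_ : Fin 0 → M) =>
      ∃ j : Fin (Fintype.card (Fin n → Bool)), (e.symm j k = true ∧ Psi j M)) := by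
    intro k
    refine UDf.exFin (P := fun j M _ _ => e.symm j k = true ∧ Psi j M) fun j => ?_
    by_cases hj : e.symm j k = true
    · exact (Psi_u j).congr fun M _ v => by simp [hj]
    · exact (inferInstance : UDf (fun M _ (_ : Fin 0 → M) => False)).congr fun M _ v => by
        simp [hj]
  choose φ hφ using fun k => (h1 k).out
  refine ⟨φ, fun M _ _ _ N _ _ i hi ε => ?_⟩
  have : Countable N := hcnt M N i hi
  obtain ⟨N', s, z, j, hj, hpsi⟩ := hmain N (e ε)
  refine ⟨N', s, z, j, hj, fun k => ?_⟩
  rw [← hφ k N' Fin.elim0]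
  constructor
  · rintro ⟨j', h2, h3⟩
    have h4 := hexcl N' j' (e ε) h3 hpsi
    have h5 : j' = e ε := Fin.ext h4
    rw [h5] at h2
    simpa using h2
  · intro h
    exact ⟨e ε, by simpa using h, hpsi⟩

end SW
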