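import Pool.Agent.H35.SW.Final

/-!
Every sentence `Psi j` can be forced over every countable model of ZF.
-/

set_option linter.unusedVariables false
set_option synthInstance.maxSize 100000

namespace SW

theorem Chain.ord {M : Type} [SetStr M] {K : M} : ∀ {j : ℕ} {l : M}, Chain j K l → Ord l
  | 0, _, h => h.1
  | _ + 1, _, ⟨_, _, h⟩ => h.1

theorem ZF_ext (hzfa : ZFAStmt) (hzfb : ZFBStmt) (M : Type) [SetStr M] [ZF M] (F : FPoset M)
    (G : M → Prop) (hG : Gen F G) : ZF (Ext F G) := by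
  obtain ⟨h1, h2, h3, h4, h5⟩ := hzfa M F G hG
  obtain ⟨h6, h7, h8⟩ := hzfb M F G hG
  exact ⟨h1, h2, h3, h4, h7, h5, h6, h8⟩

theorem exists_chain (hhtot : HTOTStmt) (hhup : HUPStmt) (M : Type) [SetStr M] [ZF M] (K : M)
    (hK : IsHF K) {l0 r : M} (h0 : Bas K l0) (hr : E r l0) (j : ℕ) :
    ∃ l, Chain j K l ∧ E r l ∧ ¬ Ctb K l := by
  induction j with
  | zero => exact ⟨l0, h0, hr, h0.2.1⟩
  | succ j ih =>
    obtain ⟨l, hl, hrl, hc⟩ := ih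
    obtain ⟨k, hk⟩ := (hhtot M K hK).2 l hl.ord
    obtain ⟨h1, h2⟩ := (hhup M K hK).2.2.1 l k hl.ord hc hk
    exact ⟨k, ⟨l, hl, hk⟩, hk.1.trans h1 hrl, h2⟩

theorem main (hfin : FINStmt) (hhfex : HFEXStmt) (hhtot : HTOTStmt) (hhup : HUPStmt)
    (hiter : ITERStmt) (hzfa : ZFAStmt) (hzfb : ZFBStmt) (hemb : EMBStmt) (hsem : SEMStmt)
    (hval : VALStmt) (htra : TRAStmt) (hsupp : SUPPStmt) (hinje : INJEStmt) (hctba : CTBAStmt)
    (hgooa : GOOAStmt) : MAINStmt := by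
  intro M _ _ _ j
  obtain ⟨K, hK⟩ := hhfex M
  obtain ⟨r, hr⟩ := (hhtot M K hK).1
  obtain ⟨l0, hrl, h0⟩ := hiter M K hK r hr.1
  obtain ⟨θ, hθ, hrθ, hcθ⟩ := exists_chain hhtot hhup M K hK h0 hrl j
  have hθo : Ord θ := hθ.ord
  have hnInj : ¬ Inj K θ := fun h => hr.2.1 ((hhup M K hK).2.2.2.1 θ r hθo hrθ h)
  obtain ⟨k, hk⟩ := (hhtot M K hK).2 θ hθo
  have hf := hfin M
  obtain ⟨G, hG, -⟩ := (hsem M (Coh hf K θ)).ex _ (Coh hf K θ).one_mem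
  have hZ : ZF (Ext (Coh hf K θ) G) := ZF_ext hzfa hzfb M _ G hG
  have ht := htra M (Coh hf K θ) G hG
  have he := hemb M (Coh hf K θ) G hG
  refine ⟨Ext (Coh hf K θ) G, inferInstance, hZ, emb _ G, hval M _ G hG hZ, ?_⟩
  -- absoluteness
  have hgood : ∀ k l : M, Ord k → Ord l →
      (Good (emb (Coh hf K θ) G K) (emb _ G k) (emb _ G l) ↔ Good K k l) :=
    hgooa M hf K θ hK G hG
  have hH : ∀ l k : M, Ord l → IsH K l k → IsH (emb (Coh hf K θ) G K) (emb _ G l) (emb _ G k) := by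
    intro l k hl h
    refine ⟨ht.ord _ h.1, fun h' => h.2.1 ((hgood k l h.1 hl).1 h'), fun k' hk' => ?_⟩
    obtain ⟨x, hx, rfl⟩ := he.trans _ _ hk'
    exact (hgood x l (h.1.mem hx) hl).2 (h.2.2 x hx)
  have hB : ∀ l : M, Bas K l → Bas (emb (Coh hf K θ) G K) (emb _ G l) := by
    intro l h
    refine ⟨ht.ord _ h.1, fun h' => h.2.1 ((hctba M hf K θ hK G hG l h.1).1 h'),
      fun l' hl' => ?_⟩
    obtain ⟨x, hx, rfl⟩ := he.trans _ _ hl'
    obtain ⟨k, hk, hkH⟩ := h.2.2 x hx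
    exact ⟨emb _ G k, (he.mem _ _).2 hk, hH x k (h.1.mem hx) hkH⟩
  have hC : ∀ (i : ℕ) (l : M), Chain i K l → Chain i (emb (Coh hf K θ) G K) (emb _ G l) := by
    intro i
    induction i with
    | zero => exact fun l h => hB l h
    | succ i ih =>
      rintro l ⟨l', h1, h2⟩
      exact ⟨emb _ G l', ih l' h1, hH l' l h1.ord h2⟩
  refine ⟨emb _ G K, emb _ G k, ht.hf K hK, ⟨ht.ord _ hk.1, fun h => ?_, fun k' hk' => ?_⟩,
    emb _ G θ, hC j θ hθ, hH θ k hθo hk⟩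
  · exact hk.2.1 (hsupp M hf K θ hK hθo hnInj G hG k hk.1 h)
  · obtain ⟨x, hx, rfl⟩ := he.trans _ _ hk'
    exact hinje M hf K θ hK hθo G hG x (hk.1.mem hx) (hk.2.2 x hx)

end SW
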