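import Pool.Agent.H35.SW.Sets

/-!
Natural numbers, recursion on them, transitive closures, induction and recursion on membership.
-/

set_option linter.unusedVariables false
set_option synthInstance.maxSize 100000

namespace SW

variable {M : Type} [SetStr M] [ZF M]

/-- successor -/
noncomputable def suc (x : M) : M := ins x x

@[simp] theorem mem_suc {x y : M} : E y (suc x) ↔ E y x ∨ y = x := by simp [suc]

instance {n : ℕ} {t : (Fin n → M) → M} [ht : DfT t] : DfT (fun v => suc (t v)) := by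
  unfold suc; infer_instance

/-- inductive sets -/
def Ind (z : M) : Prop := E emp z ∧ ∀ y, E y z → E (suc y) z

instance {n : ℕ} {t : (Fin n → M) → M} [ht : DfT t] : Df (fun v => Ind (t v)) :=
  Df.comp1 (R := fun z => Ind z) (by unfold Ind; infer_instance) ht

theorem Ind_ex : ∃ z : M, Ind z := by
  obtain ⟨x, ⟨e, he, he'⟩, hx⟩ := ZF.infinity (M := M)
  refine ⟨x, ?_, fun y hy => ?_⟩
  · rwa [← eq_emp he']
  · obtain ⟨s, hs, hs'⟩ := hx y hy
    have : s = suc y := ext fun w => by rw [hs', mem_suc]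
    rwa [← this]

/-- the set of natural numbers -/
noncomputable def om : M := sep (Ind_ex (M := M)).choose (fun n => ∀ z, Ind z → E n z)

theorem mem_om {n : M} : E n om ↔ ∀ z, Ind z → E n z := by
  unfold om
  rw [mem_sep]
  exact ⟨fun h => h.2, fun h => ⟨h _ (Ind_ex (M := M)).choose_spec, h⟩⟩

@[simp] theorem emp_mem_om : E (emp : M) om := mem_om.2 fun z hz => hz.1

theorem suc_mem_om {n : M} (h : E n om) : E (suc n) om :=
  mem_om.2 fun z hz => hz.2 n (mem_om.1 h z hz)

theorem om_ind {C : M → Prop} (hC : Cl C) (h0 : C emp) (hs : ∀ n, E n om → C n → C (suc n)) :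
    ∀ n, E n om → C n := by
  intro n hn
  have : E n (sep om C) := mem_om.1 hn _ ⟨(mem_sep' hC).2 ⟨emp_mem_om, h0⟩, fun y hy => by
    rw [mem_sep' hC] at hy ⊢
    exact ⟨suc_mem_om hy.1, hs y hy.1 hy.2⟩⟩
  exact ((mem_sep' hC).1 this).2

/-- transitive sets -/
def Trans (x : M) : Prop := ∀ y, E y x → Sub y x

omit [ZF M] in
theorem Trans_df : Cl (fun x : M => Trans x) := by unfold Trans; infer_instance

instance {n : ℕ} {t : (Fin n → M) → M} [ht : DfT t] : Df (fun v => Trans (t v)) :=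
  Df.comp1 Trans_df ht

theorem om_trans_elt {n : M} (hn : E n om) : Trans n := by
  refine om_ind (C := fun n => Trans n) inferInstance ?_ ?_ n hn
  · intro y hy
    exact absurd hy (not_mem_emp y)
  · intro n _ h y hy z hz
    rw [mem_suc] at hy ⊢
    rcases hy with hy | rfl
    · exact Or.inl (h y hy z hz)
    · exact Or.inl hz

theorem Trans_om : Trans (om : M) := by
  intro n hn
  refine om_ind (C := fun n => Sub n om) inferInstance ?_ ?_ n hn
  · intro y hy
    exact absurd hy (not_mem_emp y)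
  · intro n hn h y hy
    rw [mem_suc] at hy
    rcases hy with hy | rfl
    · exact h y hy
    · exact hn

theorem suc_ne_emp (x : M) : suc x ≠ emp := by
  intro h
  have : E x (suc x) := by simp
  rw [h] at this
  exact not_mem_emp x this

theorem suc_inj {x y : M} (h : suc x = suc y) : x = y := by
  have h1 : E x (suc y) := by rw [← h]; simp
  have h2 : E y (suc x) := by rw [h]; simp
  rw [mem_suc] at h1 h2
  rcases h1 with h1 | h1
  · rcases h2 with h2 | h2
    · exact (not_mem_cycle h1 h2).elim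
    · exact h2.symm
  · exact h1

theorem om_cases {n : M} (hn : E n om) : n = emp ∨ ∃ k, E k om ∧ n = suc k := by
  refine om_ind (C := fun n => n = emp ∨ ∃ k, E k om ∧ n = suc k) inferInstance ?_ ?_ n hn
  · exact Or.inl rfl
  · intro n hn _
    exact Or.inr ⟨n, hn, rfl⟩

/-! ### recursion on the natural numbers -/

/-- attempts: `g` is closed downwards under the recursion with start `a` and step `H` -/
def OAtt (a : M) (H : M → M) (g : M) : Prop := ∀ m u, E (opair m u) g →
  (m = emp ∧ u = a) ∨ ∃ k w, E k om ∧ m = suc k ∧ u = H w ∧ E (opair k w) g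

/-- recursion on the natural numbers: `orec a H 0 = a`, `orec a H (n+1) = H (orec a H n)` -/
noncomputable def orec (a : M) (H : M → M) (n : M) : M :=
  the (fun y => ∃ g, OAtt a H g ∧ E (opair n y) g)

instance DfT.orec {n : ℕ} {t s : (Fin n → M) → M} {H : M → (Fin n → M) → M} [ht : DfT t]
    [hs : DfT s] [h : DfT (fun w : Fin (n + 1) → M => H (w 0) (fun i => w i.succ))] :
    DfT (fun v => SW.orec (t v) (fun x => H x v) (s v)) := by
  have _ : ∀ (k : ℕ) (r : Fin n → Fin k) (u : (Fin k → M) → M) [DfT u],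
      DfT (fun w : Fin k → M => H (u w) (fun i => w (r i))) := fun k r u hu => h.comp1v hu
  unfold SW.orec OAtt
  infer_instance

theorem OAtt.uniq {a : M} {H : M → M} (hH : Fn1 H) {g g' n y y' : M} (hn : E n om)
    (hg : OAtt a H g) (hg' : OAtt a H g') (h : E (opair n y) g) (h' : E (opair n y') g') :
    y = y' := by
  suffices hh : ∀ n, E n om → ∀ y y' : M, E (opair n y) g → E (opair n y') g' → y = y' from
    hh n hn y y' h h'
  refine om_ind (C := fun n => ∀ y y' : M, E (opair n y) g → E (opair n y') g' → y = y')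
    inferInstance ?_ ?_
  · intro y y' h h'
    rcases hg _ _ h with ⟨_, h1⟩ | ⟨k, w, _, h1, _⟩
    · rcases hg' _ _ h' with ⟨_, h2⟩ | ⟨k, w, _, h2, _⟩
      · rw [h1, h2]
      · exact absurd h2.symm (suc_ne_emp k)
    · exact absurd h1.symm (suc_ne_emp k)
  · intro n hn ih y y' h h'
    rcases hg _ _ h with ⟨h1, _⟩ | ⟨k, w, _, h1, h1', h1''⟩
    · exact absurd h1 (suc_ne_emp n)
    rcases hg' _ _ h' with ⟨h2, _⟩ | ⟨k', w', _, h2, h2', h2''⟩
    · exact absurd h2 (suc_ne_emp n)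
    have e1 := suc_inj h1
    have e2 := suc_inj h2
    subst e1
    subst e2
    rw [h1', h2', ih w w' h1'' h2'']

theorem orec_ex {a : M} {H : M → M} (hH : Fn1 H) {n : M} (hn : E n om) :
    ∃ y g, OAtt a H g ∧ E (opair n y) g := by
  refine om_ind (C := fun n => ∃ y g, OAtt a H g ∧ E (opair n y) g) ?_ ?_ ?_ n hn
  · unfold OAtt; infer_instance
  · refine ⟨a, sing (opair emp a), fun m u h => ?_, by simp⟩
    rw [mem_sing, opair_inj] at h
    exact Or.inl h
  · rintro n hn ⟨y, g, hg, hy⟩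
    refine ⟨H y, ins (opair (suc n) (H y)) g, fun m u h => ?_, by simp⟩
    rw [mem_ins, opair_inj] at h
    rcases h with h | ⟨rfl, rfl⟩
    · rcases hg _ _ h with h | ⟨k, w, hk, h1, h2, h3⟩
      · exact Or.inl h
      · exact Or.inr ⟨k, w, hk, h1, h2, by rw [mem_ins]; exact Or.inl h3⟩
    · exact Or.inr ⟨n, y, hn, rfl, rfl, by rw [mem_ins]; exact Or.inl hy⟩

theorem orec_spec {a : M} {H : M → M} (hH : Fn1 H) {n : M} (hn : E n om) :
    ∃ g, OAtt a H g ∧ E (opair n (orec a H n)) g := by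
  obtain ⟨y, hy⟩ := orec_ex (a := a) hH hn
  refine the_spec (p := fun y => ∃ g, OAtt a H g ∧ E (opair n y) g) ⟨y, hy, ?_⟩
  rintro z ⟨g, hg, hz⟩
  obtain ⟨g', hg', hy'⟩ := hy
  exact OAtt.uniq hH hn hg hg' hz hy'

theorem orec_zero {a : M} {H : M → M} (hH : Fn1 H) : orec a H emp = a := by
  obtain ⟨g, hg, h⟩ := orec_spec (a := a) hH emp_mem_om
  rcases hg _ _ h with ⟨_, h1⟩ | ⟨k, w, _, h1, _⟩
  · exact h1
  · exact absurd h1.symm (suc_ne_emp k)

theorem orec_suc {a : M} {H : M → M} (hH : Fn1 H) {n : M} (hn : E n om) :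
    orec a H (suc n) = H (orec a H n) := by
  obtain ⟨g, hg, h⟩ := orec_spec (a := a) hH (suc_mem_om hn)
  rcases hg _ _ h with ⟨h1, _⟩ | ⟨k, w, _, h1, h2, h3⟩
  · exact absurd h1 (suc_ne_emp n)
  · have e1 := suc_inj h1
    subst e1
    obtain ⟨g', hg', h'⟩ := orec_spec (a := a) hH hn
    rw [h2, OAtt.uniq hH hn hg hg' h3 h']

/-! ### transitive closure -/

/-- the transitive closure of `x` -/
noncomputable def tc (x : M) : M := sUn (img om (fun n => orec x (fun y => sUn y) n))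

theorem tc_df : Fn1 (fun x : M => tc x) := by unfold tc; infer_instance

instance {n : ℕ} {t : (Fin n → M) → M} [ht : DfT t] : DfT (fun v => tc (t v)) := tc_df.comp1 ht

theorem mem_tc {x z : M} : E z (tc x) ↔ ∃ n, E n om ∧ E z (orec x (fun y => sUn y) n) := by
  unfold tc
  rw [mem_sUn]
  constructor
  · rintro ⟨y, hy, hz⟩
    rw [mem_img] at hy
    obtain ⟨n, hn, rfl⟩ := hy
    exact ⟨n, hn, hz⟩
  · rintro ⟨n, hn, hz⟩
    exact ⟨_, by rw [mem_img]; exact ⟨n, hn, rfl⟩, hz⟩

theorem sub_tc (x : M) : Sub x (tc x) := fun z hz =>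
  mem_tc.2 ⟨emp, emp_mem_om, by rw [orec_zero inferInstance]; exact hz⟩

theorem Trans_tc (x : M) : Trans (tc x) := by
  intro y hy z hz
  obtain ⟨n, hn, hy⟩ := mem_tc.1 hy
  exact mem_tc.2 ⟨suc n, suc_mem_om hn, by
    rw [orec_suc inferInstance hn, mem_sUn]; exact ⟨y, hy, hz⟩⟩

theorem tc_min {x t : M} (h : Sub x t) (ht : Trans t) : Sub (tc x) t := by
  suffices h' : ∀ n, E n om → ∀ z : M, E z (orec x (fun y => sUn y) n) → E z t by
    intro z hz
    obtain ⟨n, hn, hz⟩ := mem_tc.1 hz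
    exact h' n hn z hz
  refine om_ind (C := fun n => ∀ z : M, E z (orec x (fun y => sUn y) n) → E z t) inferInstance
    ?_ ?_
  · intro z hz
    rw [orec_zero inferInstance] at hz
    exact h z hz
  · intro n hn ih z hz
    rw [orec_suc inferInstance hn, mem_sUn] at hz
    obtain ⟨y, hy, hz⟩ := hz
    exact ht y (ih y hy) z hz

/-! ### induction on membership -/

theorem mem_min {C : M → Prop} (hC : Cl C) (h : ∃ x, C x) : ∃ x, C x ∧ ∀ y, E y x → ¬ C y := by
  obtain ⟨x, hx⟩ := h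
  by_cases h1 : ∃ y, E y (sep (tc x) C)
  · obtain ⟨y, hy, hy'⟩ := ZF.found _ h1
    rw [mem_sep' hC] at hy
    refine ⟨y, hy.2, fun z hz hCz => ?_⟩
    exact hy' z ((mem_sep' hC).2 ⟨Trans_tc x y hy.1 z hz, hCz⟩) hz
  · refine ⟨x, hx, fun y hy hCy => h1 ⟨y, (mem_sep' hC).2 ⟨sub_tc x y hy, hCy⟩⟩⟩

theorem mem_induction {C : M → Prop} (hC : Cl C) (h : ∀ x, (∀ y, E y x → C y) → C x) (x : M) :
    C x := by
  by_contra hx
  obtain ⟨y, hy, hy'⟩ := mem_min (C := fun x => ¬ C x) inferInstance ⟨x, hx⟩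
  exact hy (h y fun z hz => by
    have := hy' z hz
    rwa [not_not] at this)

/-! ### recursion on membership -/

/-- attempts for the recursion `rec x = F x {(y, rec y) : y ∈ x}` -/
def Att (F : M → M → M) (g : M) : Prop := ∀ x y, E (opair x y) g →
  ∃ h, y = F x h ∧ (∀ z, E z h ↔ ∃ u w, E u x ∧ E (opair u w) g ∧ z = opair u w) ∧
    (∀ u, E u x → ∃ w, E (opair u w) g) ∧
    (∀ u w w', E u x → E (opair u w) g → E (opair u w') g → w = w')

/-- recursion on membership -/
noncomputable def mrec (F : M → M → M) (x : M) : M :=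
  the (fun y => ∃ g, Att F g ∧ E (opair x y) g)

instance DfT.mrec {n : ℕ} {s : (Fin n → M) → M} {F : M → M → (Fin n → M) → M}
    [hs : DfT s]
    [h : DfT (fun w : Fin (n + 2) → M => F (w 0) (w 1) (fun i => w i.succ.succ))] :
    DfT (fun v => SW.mrec (fun x y => F x y v) (s v)) := by
  have _ : ∀ (k : ℕ) (r : Fin n → Fin k) (u t : (Fin k → M) → M) [DfT u] [DfT t],
      DfT (fun w : Fin k → M => F (u w) (t w) (fun i => w (r i))) :=
    fun k r u t hu ht => h.comp2v hu ht
  unfold SW.mrec Att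
  infer_instance

theorem Att.uniq {F : M → M → M} (hF : Fn2 F) {g g' : M} (hg : Att F g) (hg' : Att F g') (x : M) :
    ∀ y y' : M, E (opair x y) g → E (opair x y') g' → y = y' := by
  refine mem_induction (C := fun x => ∀ y y' : M, E (opair x y) g → E (opair x y') g' → y = y')
    inferInstance ?_ x
  intro x ih y y' h h'
  obtain ⟨k, rfl, hk, hk1, hk2⟩ := hg x y h
  obtain ⟨k', rfl, hk', hk1', hk2'⟩ := hg' x y' h'
  have : k = k' := by
    refine ext fun z => ?_
    rw [hk, hk']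
    constructor
    · rintro ⟨u, w, hu, hw, rfl⟩
      obtain ⟨w', hw'⟩ := hk1' u hu
      have := ih u hu w w' hw hw'
      subst this
      exact ⟨u, w, hu, hw', rfl⟩
    · rintro ⟨u, w, hu, hw, rfl⟩
      obtain ⟨w', hw'⟩ := hk1 u hu
      have := ih u hu w' w hw' hw
      subst this
      exact ⟨u, w', hu, hw', rfl⟩
  rw [this]

/-- the graph of a class function on a set -/
noncomputable def gr (x : M) (f : M → M) : M := img x (fun y => opair y (f y))

theorem mem_gr' {f : M → M} (hf : Fn1 f) {x z : M} :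
    E z (gr x f) ↔ ∃ y, E y x ∧ z = opair y (f y) := by
  unfold gr
  exact mem_img' inferInstance

theorem opair_mem_gr {f : M → M} (hf : Fn1 f) {x y w : M} :
    E (opair y w) (gr x f) ↔ E y x ∧ w = f y := by
  rw [mem_gr' hf]
  constructor
  · rintro ⟨y', hy, h⟩
    rw [opair_inj] at h
    obtain ⟨rfl, rfl⟩ := h
    exact ⟨hy, rfl⟩
  · rintro ⟨hy, rfl⟩
    exact ⟨y, hy, rfl⟩

instance DfT.gr {n : ℕ} {t : (Fin n → M) → M} {f : M → (Fin n → M) → M} [ht : DfT t]
    [h : DfT (fun w : Fin (n + 1) → M => f (w 0) (fun i => w i.succ))] :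
    DfT (fun v => SW.gr (t v) (fun x => f x v)) := by
  unfold SW.gr
  have _ : ∀ (k : ℕ) (r : Fin n → Fin k) (u : (Fin k → M) → M) [DfT u],
      DfT (fun w : Fin k → M => f (u w) (fun i => w (r i))) := fun k r u hu => h.comp1v hu
  infer_instance

theorem mrec_ex {F : M → M → M} (hF : Fn2 F) (x : M) :
    ∃ y g, Att F g ∧ E (opair x y) g := by
  have hC : Cl (fun x : M => ∃ y g, Att F g ∧ E (opair x y) g) := by
    unfold Att; infer_instance
  refine mem_induction hC ?_ x
  intro x ih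
  -- all members of the transitive closure have attempts
  have h1 : ∀ z, E z (tc x) → ∃ y g, Att F g ∧ E (opair z y) g := by
    intro z hz
    have h2 : Sub (tc x) (sep (tc x) (fun x => ∃ y g, Att F g ∧ E (opair x y) g)) := by
      refine tc_min (fun z hz => (mem_sep' hC).2 ⟨sub_tc x z hz, ih z hz⟩) ?_
      intro u hu w hw
      rw [mem_sep' hC] at hu ⊢
      obtain ⟨hu, y, g, hg, hy⟩ := hu
      refine ⟨Trans_tc x u hu w hw, ?_⟩
      obtain ⟨k, _, _, hk, _⟩ := hg u y hy
      obtain ⟨w', hw'⟩ := hk w hw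
      exact ⟨w', g, hg, hw'⟩
    exact ((mem_sep' hC).1 (h2 z hz)).2
  have hm : Fn1 (fun x : M => mrec F x) := DfT.mrec (n := 1) (s := fun w => w 0)
    (F := fun a b _ => F a b)
  have h2 : ∀ z, E z (tc x) → ∃ g, Att F g ∧ E (opair z (mrec F z)) g := by
    intro z hz
    obtain ⟨y, hy⟩ := h1 z hz
    refine the_spec (p := fun y => ∃ g, Att F g ∧ E (opair z y) g) ⟨y, hy, ?_⟩
    rintro y' ⟨g, hg, hz⟩
    obtain ⟨g', hg', hy'⟩ := hy
    exact Att.uniq hF hg hg' z _ _ hz hy'
  have key : ∀ z, E z (tc x) → mrec F z = F z (gr z (mrec F)) := by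
    intro z hz
    obtain ⟨g, hg, hy⟩ := h2 z hz
    obtain ⟨k, h3, h4, h5, h6⟩ := hg _ _ hy
    rw [h3]
    congr 1
    refine ext fun u => ?_
    rw [h4, mem_gr' hm]
    constructor
    · rintro ⟨u', w, hu', hw, rfl⟩
      obtain ⟨g', hg', hy'⟩ := h2 u' (Trans_tc x z hz u' hu')
      exact ⟨u', hu', by rw [Att.uniq hF hg hg' _ _ _ hw hy']⟩
    · rintro ⟨u', hu', rfl⟩
      obtain ⟨w, hw⟩ := h5 u' hu'
      obtain ⟨g', hg', hy'⟩ := h2 u' (Trans_tc x z hz u' hu')
      have := Att.uniq hF hg hg' _ _ _ hw hy'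
      exact ⟨u', w, hu', hw, by rw [this]⟩
  refine ⟨F x (gr x (mrec F)), ins (opair x (F x (gr x (mrec F)))) (gr (tc x) (mrec F)), ?_,
    by simp⟩
  have hx : ¬ E x (tc x) := by
    intro hx
    -- `tc x` is transitive, use induction
    have : ∀ x : M, ¬ E x (tc x) := by
      refine fun x => mem_induction (C := fun x => ¬ E x (tc x)) inferInstance ?_ x
      intro x ih hx
      have h3 : Sub (tc x) (sep (tc x) (fun z => ∃ y, E y x ∧ (z = y ∨ E z (tc y)))) := by
        refine tc_min ?_ ?_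
        · intro z hz
          rw [mem_sep]
          exact ⟨sub_tc x z hz, z, hz, Or.inl rfl⟩
        · intro z hz w hw
          rw [mem_sep] at hz ⊢
          obtain ⟨hz, y, hy, h⟩ := hz
          refine ⟨Trans_tc x z hz w hw, y, hy, Or.inr ?_⟩
          rcases h with rfl | h
          · exact sub_tc _ _ hw
          · exact Trans_tc y z h w hw
      have h4 := h3 x hx
      rw [mem_sep] at h4
      obtain ⟨_, y, hy, rfl | h5⟩ := h4
      · exact not_mem_self _ hy
      · exact ih y hy (Trans_tc y x h5 y hy)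
    exact this x hx
  intro u w huw
  rw [mem_ins, opair_mem_gr hm, opair_inj] at huw
  have hsub : ∀ u, (E u (tc x) ∨ u = x) → ∀ z, E z u → E z (tc x) := by
    rintro u (hu | rfl) z hz
    · exact Trans_tc x u hu z hz
    · exact sub_tc _ _ hz
  have main : ∀ u, (E u (tc x) ∨ u = x) → (∀ z, E z (gr u (mrec F)) ↔ ∃ u' w, E u' u ∧
      E (opair u' w) (ins (opair x (F x (gr x (mrec F)))) (gr (tc x) (mrec F))) ∧
        z = opair u' w) ∧
    (∀ u', E u' u → ∃ w, E (opair u' w)
      (ins (opair x (F x (gr x (mrec F)))) (gr (tc x) (mrec F)))) ∧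
    (∀ u' w w', E u' u →
      E (opair u' w) (ins (opair x (F x (gr x (mrec F)))) (gr (tc x) (mrec F))) →
      E (opair u' w') (ins (opair x (F x (gr x (mrec F)))) (gr (tc x) (mrec F))) → w = w') := by
    intro u hu
    have hs := hsub u hu
    have h7 : ∀ u' w, E u' u → (E (opair u' w)
      (ins (opair x (F x (gr x (mrec F)))) (gr (tc x) (mrec F))) ↔ w = mrec F u') := by
      intro u' w hu'
      rw [mem_ins, opair_mem_gr hm, opair_inj]
      constructor
      · rintro (h | ⟨rfl, _⟩)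
        · exact h.2
        · exact absurd (hs _ hu') hx
      · intro h
        exact Or.inl ⟨hs _ hu', h⟩
    refine ⟨fun z => ?_, fun u' hu' => ⟨mrec F u', (h7 u' _ hu').2 rfl⟩,
      fun u' w w' hu' h8 h9 => by rw [(h7 u' _ hu').1 h8, (h7 u' _ hu').1 h9]⟩
    rw [mem_gr' hm]
    constructor
    · rintro ⟨y, hy, rfl⟩
      exact ⟨y, _, hy, (h7 y _ hy).2 rfl, rfl⟩
    · rintro ⟨u', w, hu', hw, rfl⟩
      exact ⟨u', hu', by rw [(h7 u' _ hu').1 hw]⟩
  rcases huw with ⟨hu, rfl⟩ | ⟨rfl, rfl⟩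
  · obtain ⟨m1, m2, m3⟩ := main u (Or.inl hu)
    exact ⟨gr u (mrec F), key u hu, m1, m2, m3⟩
  · obtain ⟨m1, m2, m3⟩ := main u (Or.inr rfl)
    exact ⟨gr u (mrec F), rfl, m1, m2, m3⟩

instance mrec_df {F : M → M → M} [hF : Fn2 F] {n : ℕ} {t : (Fin n → M) → M} [ht : DfT t] :
    DfT (fun v => mrec F (t v)) := DfT.mrec (F := fun a b _ => F a b)

/-- the recursion equation -/
theorem mrec_eq {F : M → M → M} (hF : Fn2 F) (x : M) : mrec F x = F x (gr x (mrec F)) := by
  have hm : Fn1 (fun x : M => mrec F x) := mrec_df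
  have h2 : ∀ z, ∃ g, Att F g ∧ E (opair z (mrec F z)) g := by
    intro z
    obtain ⟨y, hy⟩ := mrec_ex hF z
    refine the_spec (p := fun y => ∃ g, Att F g ∧ E (opair z y) g) ⟨y, hy, ?_⟩
    rintro y' ⟨g, hg, hz⟩
    obtain ⟨g', hg', hy'⟩ := hy
    exact Att.uniq hF hg hg' z _ _ hz hy'
  obtain ⟨g, hg, hy⟩ := h2 x
  obtain ⟨k, h3, h4, h5, h6⟩ := hg _ _ hy
  refine h3.trans ?_
  congr 1
  refine ext fun u => ?_
  rw [h4, mem_gr' hm]
  constructor
  · rintro ⟨u', w, hu', hw, rfl⟩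
    obtain ⟨g', hg', hy'⟩ := h2 u'
    exact ⟨u', hu', by rw [Att.uniq hF hg hg' _ _ _ hw hy']⟩
  · rintro ⟨u', hu', rfl⟩
    obtain ⟨w, hw⟩ := h5 u' hu'
    obtain ⟨g', hg', hy'⟩ := h2 u'
    have := Att.uniq hF hg hg' _ _ _ hw hy'
    exact ⟨u', w, hu', hw, by rw [this]⟩

end SW
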